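import Mathlib

/-!
# Rooted forests and their weighted independence polynomials: basic definitions
-/

set_option linter.unusedSectionVars false

namespace Pool.Agent.Hhelper46.Forest

open Finset

/-- A rooted forest on `V`: a parent function along which a rank decreases. -/
structure RF (V : Type*) where
  /-- the parent -/
  par : V → Option V
  /-- the rank (for instance the depth) -/
  rk : V → ℕ
  /-- the rank goes up from a parent to its children -/
  lt : ∀ u v, par u = some v → rk v < rk u

variable {V : Type*} [Fintype V] [DecidableEq V]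

namespace RF

/-- The children of `v`. -/
def ch (T : RF V) (v : V) : Finset V := univ.filter (fun c => T.par c = some v)

lemma mem_ch (T : RF V) (v c : V) : c ∈ T.ch v ↔ T.par c = some v := by
  simp [ch]

/-- Independent sets of the forest. -/
def Ind (T : RF V) (S : Finset V) : Prop := ∀ u ∈ S, ∀ v ∈ S, T.par u ≠ some v

instance (T : RF V) : DecidablePred T.Ind := fun S => by
  unfold Ind
  infer_instance

/-- The independence polynomial of the forest induced on `W`, with weights `x`. -/
def Z {K : Type*} [CommSemiring K] (T : RF V) (W : Finset V) (x : V → K) : K :=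
  ∑ S ∈ W.powerset.filter T.Ind, ∏ v ∈ S, x v

/-- The number of independent sets with `k` vertices. -/
def cnt (T : RF V) (k : ℕ) : ℕ := ((univ : Finset (Finset V)).filter (fun S => T.Ind S ∧ S.card = k)).card

/-- Induction from the leaves to the roots. -/
lemma ind (T : RF V) {P : V → Prop} (h : ∀ v, (∀ c ∈ T.ch v, P c) → P v) (v : V) : P v := by
  obtain ⟨N, hN⟩ : ∃ N, ∀ v, T.rk v ≤ N := ⟨univ.sup T.rk, fun v => Finset.le_sup (mem_univ v)⟩
  have key : ∀ k, ∀ v, N - T.rk v = k → P v := by
    intro k
    induction k using Nat.strong_induction_on with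
    | _ k ih =>
      intro v hv
      apply h
      intro c hc
      rw [mem_ch] at hc
      have h1 := T.lt c v hc
      have h2 := hN c
      exact ih (N - T.rk c) (by omega) c rfl
  exact key _ v rfl

/-- Induction from the roots to the leaves. -/
lemma ind_up (T : RF V) {P : V → Prop} (h : ∀ v, (∀ p, T.par v = some p → P p) → P v) (v : V) : P v := by
  have key : ∀ k, ∀ v, T.rk v = k → P v := by
    intro k
    induction k using Nat.strong_induction_on with
    | _ k ih =>
      intro v hv
      apply h
      intro p hp
      exact ih (T.rk p) (by rw [← hv]; exact T.lt v p hp) p rfl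
  exact key _ v rfl

/-- Recursive definition from the leaves to the roots. -/
lemma exists_rec {α : Type*} [Inhabited α] (T : RF V) (Φ : V → (V → α) → α)
    (hΦ : ∀ v f g, (∀ c ∈ T.ch v, f c = g c) → Φ v f = Φ v g) : ∃ f : V → α, ∀ v, f v = Φ v f := by
  classical
  obtain ⟨N, hN⟩ : ∃ N, ∀ v, T.rk v ≤ N := ⟨univ.sup T.rk, fun v => Finset.le_sup (mem_univ v)⟩
  have hwf : WellFounded (fun c v => c ∈ T.ch v) := by
    apply Subrelation.wf (r := InvImage (· < ·) (fun v => N - T.rk v))
    · intro c v hcv
      show N - T.rk c < N - T.rk v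
      rw [mem_ch] at hcv
      have h1 := T.lt c v hcv
      have h2 := hN c
      omega
    · exact InvImage.wf _ Nat.lt_wfRel.wf
  refine ⟨hwf.fix (fun v rec => Φ v (fun c => if h : c ∈ T.ch v then rec c h else default)), ?_⟩
  intro v
  rw [WellFounded.fix_eq]
  apply hΦ
  intro c hc
  rw [dif_pos hc]

/-- Double counting over parent-child pairs. -/
lemma sum_ch {M : Type*} [AddCommMonoid M] (T : RF V) (f : V → M) :
    ∑ v, ∑ c ∈ T.ch v, f c = ∑ c ∈ univ.filter (fun c => (T.par c).isSome), f c := by
  simp only [ch, Finset.sum_filter]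
  rw [Finset.sum_comm]
  apply Finset.sum_congr rfl
  intro c _
  cases h : T.par c with
  | none => simp
  | some p => simp

/-- The sum over all children is at most the full sum. -/
lemma sum_ch_le (T : RF V) (f : V → ℝ) (hf : ∀ v, 0 ≤ f v) : ∑ v, ∑ c ∈ T.ch v, f c ≤ ∑ v, f v := by
  rw [sum_ch]
  exact Finset.sum_le_sum_of_subset_of_nonneg (Finset.filter_subset _ _) (fun i _ _ => hf i)

end RF

end Pool.Agent.Hhelper46.Forest
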