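import Pool.Agent.Hhelper46.Forest.Prod

/-!
# Sizes of independent sets in a rooted forest
-/

set_option linter.unusedSectionVars false

namespace Pool.Agent.Hhelper46.Forest

open Finset

variable {V : Type*} [Fintype V] [DecidableEq V]

/-- The independence number is at most the number of vertices of type 1. -/
theorem card_le_of_ind (T : RF V) (e : V → ℕ)
    (he : ∀ v, e v = if (∑ c ∈ T.ch v, e c) = 0 then 1 else 0) (S : Finset V) (hS : T.Ind S) :
    S.card ≤ ∑ v, e v := by
  classical
  have h01 : ∀ v, e v = 0 ∨ e v = 1 := by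
    intro v
    rw [he v]
    split_ifs <;> simp
  have hsum : ∑ v, e v = (univ.filter (fun v => e v = 1)).card := by
    rw [Finset.card_filter]
    apply Finset.sum_congr rfl
    intro v _
    rcases h01 v with h | h <;> simp [h]
  have hch : ∀ v, ∃ c, e v = 0 → (T.par c = some v ∧ e c = 1) := by
    intro v
    by_cases hv : e v = 0
    · have h1 : (∑ c ∈ T.ch v, e c) ≠ 0 := by
        intro h
        rw [he v, if_pos h] at hv
        omega
      obtain ⟨c, hc, hc'⟩ := Finset.exists_ne_zero_of_sum_ne_zero h1
      refine ⟨c, fun _ => ⟨(T.mem_ch v c).mp hc, ?_⟩⟩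
      rcases h01 c with h | h
      · exact absurd h hc'
      · exact h
    · exact ⟨v, fun h => absurd h hv⟩
  choose a ha using hch
  rw [hsum]
  apply Finset.card_le_card_of_injOn (fun s => if e s = 0 then a s else s)
  · intro s _
    rw [Finset.mem_coe, Finset.mem_filter]
    refine ⟨Finset.mem_univ _, ?_⟩
    show e (if e s = 0 then a s else s) = 1
    split_ifs with h
    · exact (ha s h).2
    · rcases h01 s with h' | h'
      · exact absurd h' h
      · exact h'
  · intro s hs t ht hst
    simp only at hst
    have hs' : s ∈ S := hs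
    have ht' : t ∈ S := ht
    split_ifs at hst with h1 h2 h2
    · have e1 := (ha s h1).1
      have e2 := (ha t h2).1
      rw [hst] at e1
      exact Option.some.inj (e1.symm.trans e2)
    · have e1 := (ha s h1).1
      rw [hst] at e1
      exact absurd e1 (hS t ht' s hs')
    · have e1 := (ha t h2).1
      rw [← hst] at e1
      exact absurd e1 (hS s hs' t ht')
    · exact hst

/-- Sums over independent sets, by size. -/
lemma sum_ind_eq {K : Type*} [CommSemiring K] (T : RF V) (g : ℕ → K) :
    ∑ S ∈ (univ : Finset (Finset V)).filter T.Ind, g S.card =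
      ∑ k ∈ range (Fintype.card V + 1), (T.cnt k : K) * g k := by
  rw [← Finset.sum_fiberwise_of_maps_to (t := range (Fintype.card V + 1)) (g := Finset.card)]
  · apply Finset.sum_congr rfl
    intro k _
    have h1 : ∀ S ∈ ((univ : Finset (Finset V)).filter T.Ind).filter (fun S => S.card = k), g S.card = g k := by
      intro S hS
      rw [(Finset.mem_filter.mp hS).2]
    rw [Finset.sum_congr rfl h1, Finset.sum_const, nsmul_eq_mul]
    congr 2
    rw [Finset.filter_filter]
    rfl
  · intro S _
    rw [Finset.mem_range]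
    have := Finset.card_le_univ S
    omega

/-- Expansion by size. -/
theorem Z_const {K : Type*} [CommSemiring K] (T : RF V) (x : K) :
    T.Z univ (fun _ => x) = ∑ k ∈ range (Fintype.card V + 1), (T.cnt k : K) * x ^ k := by
  rw [← sum_ind_eq T (fun k => x ^ k)]
  unfold RF.Z
  rw [Finset.powerset_univ]
  apply Finset.sum_congr rfl
  intro S _
  rw [Finset.prod_const]

/-- The mean at fugacity `l` is at most `n l / (1 + l)`. -/
theorem mean_le (T : RF V) (l : ℝ) (hl : 0 < l) :
    ∑ k ∈ range (Fintype.card V + 1), (k : ℝ) * (T.cnt k * l ^ k) ≤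
      (Fintype.card V * (l / (1 + l))) * ∑ k ∈ range (Fintype.card V + 1), (T.cnt k : ℝ) * l ^ k := by
  classical
  have e1 : ∑ k ∈ range (Fintype.card V + 1), (k : ℝ) * (T.cnt k * l ^ k) =
      ∑ S ∈ (univ : Finset (Finset V)).filter T.Ind, (S.card : ℝ) * l ^ S.card := by
    rw [sum_ind_eq T (fun k => (k : ℝ) * l ^ k)]
    apply Finset.sum_congr rfl
    intro k _
    ring
  rw [e1, ← sum_ind_eq T (fun k => l ^ k)]
  set I := (univ : Finset (Finset V)).filter T.Ind with hI
  have e2 : ∑ S ∈ I, (S.card : ℝ) * l ^ S.card = ∑ v : V, ∑ S ∈ I.filter (fun S => v ∈ S), l ^ S.card := by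
    have : ∀ v : V, ∑ S ∈ I.filter (fun S => v ∈ S), l ^ S.card = ∑ S ∈ I, if v ∈ S then l ^ S.card else 0 := by
      intro v
      rw [Finset.sum_filter]
    simp only [this]
    rw [Finset.sum_comm]
    apply Finset.sum_congr rfl
    intro S _
    rw [← Finset.sum_filter, Finset.sum_const, nsmul_eq_mul]
    congr 2
    simp
  rw [e2]
  have h1 : ∀ v : V, ∑ S ∈ I.filter (fun S => v ∈ S), l ^ S.card ≤ l / (1 + l) * ∑ S ∈ I, l ^ S.card := by
    intro v
    have h2 : ∑ S ∈ I.filter (fun S => v ∈ S), l ^ S.card ≤ l * ∑ S ∈ I.filter (fun S => ¬ v ∈ S), l ^ S.card := by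
      have h3 : ∑ S ∈ I.filter (fun S => v ∈ S), l ^ S.card = l * ∑ S ∈ I.filter (fun S => v ∈ S), l ^ (S.erase v).card := by
        rw [Finset.mul_sum]
        apply Finset.sum_congr rfl
        intro S hS
        rw [Finset.mem_filter] at hS
        rw [Finset.card_erase_of_mem hS.2]
        have : 0 < S.card := Finset.card_pos.mpr ⟨v, hS.2⟩
        obtain ⟨j, hj⟩ : ∃ j, S.card = j + 1 := ⟨S.card - 1, by omega⟩
        rw [hj, pow_succ]
        simp [mul_comm]
      rw [h3]
      apply mul_le_mul_of_nonneg_left _ hl.le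
      have h4 : ∑ S ∈ I.filter (fun S => v ∈ S), l ^ (S.erase v).card =
          ∑ S ∈ (I.filter (fun S => v ∈ S)).image (fun S => S.erase v), l ^ S.card := by
        rw [Finset.sum_image]
        intro S hS S' hS' h
        have hS1 := (Finset.mem_filter.mp hS).2
        have hS2 := (Finset.mem_filter.mp hS').2
        simp only at h
        rw [← Finset.insert_erase hS1, h, Finset.insert_erase hS2]
      rw [h4]
      apply Finset.sum_le_sum_of_subset_of_nonneg
      · intro S hS
        rw [Finset.mem_image] at hS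
        obtain ⟨S', hS', rfl⟩ := hS
        rw [Finset.mem_filter] at hS' ⊢
        refine ⟨?_, Finset.notMem_erase _ _⟩
        rw [hI, Finset.mem_filter] at hS' ⊢
        refine ⟨Finset.mem_univ _, ?_⟩
        intro a ha b hb
        exact hS'.1.2 a (Finset.mem_of_mem_erase ha) b (Finset.mem_of_mem_erase hb)
      · intro S _ _
        positivity
    have h5 := Finset.sum_filter_add_sum_filter_not I (fun S => v ∈ S) (fun S => l ^ S.card)
    rw [div_mul_eq_mul_div, le_div_iff₀ (by positivity)]
    rw [← h5]
    nlinarith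
  refine (Finset.sum_le_sum (fun v _ => h1 v)).trans (le_of_eq ?_)
  rw [Finset.sum_const, Finset.card_univ, nsmul_eq_mul]
  ring

/-- The mean of the size in terms of the rooted recursion. -/
theorem mean_eq (T : RF V) (l : ℝ) (hl : 0 < l) (R y : V → ℝ)
    (hR : ∀ v, R v = l * ∏ c ∈ T.ch v, (1 + R c)⁻¹)
    (hy : ∀ v, y v = R v / (1 + R v) * (1 - ∑ c ∈ T.ch v, y c)) :
    ∑ k ∈ range (Fintype.card V + 1), (k : ℝ) * (T.cnt k * l ^ k) =
      (∑ v, y v) * ∑ k ∈ range (Fintype.card V + 1), (T.cnt k : ℝ) * l ^ k := by
  classical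
  obtain ⟨Rf, hRf⟩ := T.exists_rec (α := ℝ → ℝ) (fun v f => fun t => t * ∏ c ∈ T.ch v, (1 + f c t)⁻¹) (by
    intro v f g hfg
    funext t
    congr 1
    exact Finset.prod_congr rfl (fun c hc => by rw [hfg c hc]))
  have hpos : ∀ v, ∀ t : ℝ, 0 < t → 0 < Rf v t := by
    intro v
    induction v using T.ind with
    | _ v ih =>
      intro t ht
      rw [hRf v]
      simp only
      apply mul_pos ht
      apply Finset.prod_pos
      intro c hc
      have := ih c hc t ht
      positivity
  have hval : ∀ v, Rf v l = R v := by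
    intro v
    induction v using T.ind with
    | _ v ih =>
      rw [hRf v, hR v]
      simp only
      congr 1
      exact Finset.prod_congr rfl (fun c hc => by rw [ih c hc])
  have hder : ∀ v, HasDerivAt (Rf v) (R v * (1 - ∑ c ∈ T.ch v, y c) / l) l := by
    intro v
    induction v using T.ind with
    | _ v ih =>
      have h1 : HasDerivAt (fun t => Real.exp (Real.log t - ∑ c ∈ T.ch v, Real.log (1 + Rf c t)))
          (Real.exp (Real.log l - ∑ c ∈ T.ch v, Real.log (1 + Rf c l)) *
            (l⁻¹ - ∑ c ∈ T.ch v, (R c * (1 - ∑ d ∈ T.ch c, y d) / l) / (1 + Rf c l))) l := by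
        apply HasDerivAt.exp
        apply (Real.hasDerivAt_log hl.ne').fun_sub
        apply HasDerivAt.fun_sum
        intro c hc
        have := hpos c l hl
        exact ((ih c hc).const_add 1).log (by positivity)
      have h2 : (fun t => Real.exp (Real.log t - ∑ c ∈ T.ch v, Real.log (1 + Rf c t))) =ᶠ[nhds l] Rf v := by
        filter_upwards [lt_mem_nhds hl] with t ht
        rw [hRf v]
        simp only
        rw [Real.exp_sub, Real.exp_log ht, Real.exp_sum, div_eq_mul_inv, ← Finset.prod_inv_distrib]
        congr 1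
        apply Finset.prod_congr rfl
        intro c _
        have := hpos c t ht
        rw [Real.exp_log (by positivity)]
      have h3 := h1.congr_of_eventuallyEq h2.symm
      refine h3.congr_deriv ?_
      have h4 : Real.exp (Real.log l - ∑ c ∈ T.ch v, Real.log (1 + Rf c l)) = Rf v l := h2.eq_of_nhds
      rw [h4, hval v]
      have h5 : ∑ c ∈ T.ch v, (R c * (1 - ∑ d ∈ T.ch c, y d) / l) / (1 + Rf c l) = (∑ c ∈ T.ch v, y c) / l := by
        rw [Finset.sum_div]
        apply Finset.sum_congr rfl
        intro c _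
        rw [hval c, hy c]
        have := hpos c l hl
        rw [hval c] at this
        field_simp
      rw [h5]
      field_simp
  have hprod : ∀ t : ℝ, 0 < t → ∑ k ∈ range (Fintype.card V + 1), (T.cnt k : ℝ) * t ^ k = ∏ v, (1 + Rf v t) := by
    intro t ht
    rw [← Z_const]
    apply T.Z_eq_prod
    · intro v
      rw [hRf v]
    · intro v
      have := hpos v t ht
      positivity
  have hd1 : HasDerivAt (fun t : ℝ => ∑ k ∈ range (Fintype.card V + 1), (T.cnt k : ℝ) * t ^ k)
      (∑ k ∈ range (Fintype.card V + 1), (T.cnt k : ℝ) * (k * l ^ (k - 1))) l := by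
    apply HasDerivAt.fun_sum
    intro k _
    exact (hasDerivAt_pow k l).const_mul _
  have hd2 : HasDerivAt (fun t : ℝ => ∑ k ∈ range (Fintype.card V + 1), (T.cnt k : ℝ) * t ^ k)
      ((∏ v, (1 + R v)) * ((∑ v, y v) / l)) l := by
    have h1 : HasDerivAt (fun t => Real.exp (∑ v, Real.log (1 + Rf v t)))
        (Real.exp (∑ v, Real.log (1 + Rf v l)) * ∑ v, (R v * (1 - ∑ d ∈ T.ch v, y d) / l) / (1 + Rf v l)) l := by
      apply HasDerivAt.exp
      apply HasDerivAt.fun_sum
      intro v _
      have := hpos v l hl
      exact ((hder v).const_add 1).log (by positivity)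
    have h2 : (fun t => Real.exp (∑ v, Real.log (1 + Rf v t))) =ᶠ[nhds l]
        (fun t : ℝ => ∑ k ∈ range (Fintype.card V + 1), (T.cnt k : ℝ) * t ^ k) := by
      filter_upwards [lt_mem_nhds hl] with t ht
      rw [hprod t ht, Real.exp_sum]
      apply Finset.prod_congr rfl
      intro c _
      have := hpos c t ht
      rw [Real.exp_log (by positivity)]
    have h3 := h1.congr_of_eventuallyEq h2.symm
    refine h3.congr_deriv ?_
    rw [Real.exp_sum]
    congr 1
    · apply Finset.prod_congr rfl
      intro v _
      have := hpos v l hl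
      rw [Real.exp_log (by positivity), hval v]
    · rw [Finset.sum_div]
      apply Finset.sum_congr rfl
      intro v _
      rw [hval v, hy v]
      have := hpos v l hl
      rw [hval v] at this
      field_simp
  have h := hd1.unique hd2
  have hprodl := hprod l hl
  simp only [hval] at hprodl
  rw [hprodl]
  have h6 : ∑ k ∈ range (Fintype.card V + 1), (k : ℝ) * (T.cnt k * l ^ k) =
      l * ∑ k ∈ range (Fintype.card V + 1), (T.cnt k : ℝ) * (k * l ^ (k - 1)) := by
    rw [Finset.mul_sum]
    apply Finset.sum_congr rfl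
    intro k _
    rcases Nat.eq_zero_or_pos k with rfl | hk
    · simp
    · obtain ⟨j, rfl⟩ : ∃ j, k = j + 1 := ⟨k - 1, by omega⟩
      simp only [Nat.add_sub_cancel]
      rw [pow_succ]
      ring
  rw [h6, h]
  field_simp

end Pool.Agent.Hhelper46.Forest
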