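import Pool.Agent.Hhelper46.Forest.Basic
import Mathlib

/-!
# Module E: a local log-concavity estimate by Fourier inversion (no graphs)
-/

set_option linter.unusedSectionVars false

namespace Pool.Agent.Hhelper46.Forest

open Finset

namespace FourierE

open Real

lemma int_cos (m : ℤ) : ∫ t in (-π)..π, Real.cos (m * t) = if m = 0 then 2 * π else 0 := by
  by_cases hm : m = 0
  · subst hm
    simp
    ring
  · rw [if_neg hm]
    have hm' : (m : ℝ) ≠ 0 := by exact_mod_cast hm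
    rw [intervalIntegral.integral_comp_mul_left (fun t => Real.cos t) hm']
    simp

lemma int_w (m : ℤ) : ∫ t in (-π)..π, (1 - Real.cos t) * Real.cos (m * t) =
    (if m = 0 then 2 * π else 0) - 1 / 2 * (if m + 1 = 0 then 2 * π else 0)
      - 1 / 2 * (if m - 1 = 0 then 2 * π else 0) := by
  have e : (fun t : ℝ => (1 - Real.cos t) * Real.cos (m * t)) =
      fun t : ℝ => Real.cos (m * t) - 1 / 2 * Real.cos (((m + 1 : ℤ) : ℝ) * t)
        - 1 / 2 * Real.cos (((m - 1 : ℤ) : ℝ) * t) := by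
    funext t
    push_cast
    have h1 : ((m : ℝ) + 1) * t = m * t + t := by ring
    have h2 : ((m : ℝ) - 1) * t = m * t - t := by ring
    rw [h1, h2, Real.cos_add, Real.cos_sub]
    ring
  have hc : ∀ k : ℤ, Continuous fun t : ℝ => Real.cos (k * t) := fun k => by fun_prop
  rw [e, intervalIntegral.integral_sub, intervalIntegral.integral_sub,
    intervalIntegral.integral_const_mul, intervalIntegral.integral_const_mul, int_cos, int_cos,
    int_cos]
  · exact (hc m).intervalIntegrable _ _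
  · exact ((hc (m + 1)).const_mul _).intervalIntegrable _ _
  · exact ((hc m).sub ((hc (m + 1)).const_mul _)).intervalIntegrable _ _
  · exact ((hc (m - 1)).const_mul _).intervalIntegrable _ _

lemma sum_pick {n : ℕ} {p : ℕ → ℝ} (hp : ∀ j, n < j → p j = 0) (q : ℕ) (P : ℕ → Prop)
    [DecidablePred P] (hP : ∀ j, P j ↔ j = q) (c : ℝ) :
    ∑ j ∈ range (n + 1), p j * (if P j then c else 0) = c * p q := by
  have e : ∀ j ∈ range (n + 1), p j * (if P j then c else 0) = if j = q then c * p q else 0 := by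
    intro j _
    by_cases h : j = q
    · subst h
      rw [if_pos ((hP j).2 rfl), if_pos rfl, mul_comm]
    · rw [if_neg (fun h' => h ((hP j).1 h')), if_neg h, mul_zero]
  rw [Finset.sum_congr rfl e, Finset.sum_ite_eq']
  split_ifs with h
  · rfl
  · rw [hp q (by simpa using h), mul_zero]

lemma int_J {n : ℕ} {p : ℕ → ℝ} (hp : ∀ j, n < j → p j = 0) {k : ℕ} (hk : 1 ≤ k) :
    ∫ t in (-π)..π, (1 - Real.cos t) * ∑ j ∈ range (n + 1), p j * Real.cos (((j : ℤ) - k : ℤ) * t) =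
      2 * π * p k - π * p (k - 1) - π * p (k + 1) := by
  have e : (fun t : ℝ => (1 - Real.cos t) * ∑ j ∈ range (n + 1),
      p j * Real.cos (((j : ℤ) - k : ℤ) * t)) =
      fun t => ∑ j ∈ range (n + 1), p j * ((1 - Real.cos t) * Real.cos (((j : ℤ) - k : ℤ) * t)) := by
    funext t
    rw [Finset.mul_sum]
    exact Finset.sum_congr rfl fun j _ => by ring
  rw [e, intervalIntegral.integral_finsetSum]
  · simp only [intervalIntegral.integral_const_mul, int_w, mul_sub, Finset.sum_sub_distrib]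
    have h1 := sum_pick hp k (fun j => (j : ℤ) - k = 0) (fun j => by omega) (2 * π)
    have h2 := sum_pick hp (k - 1) (fun j => (j : ℤ) - k + 1 = 0) (fun j => by omega) (2 * π)
    have h3 := sum_pick hp (k + 1) (fun j => (j : ℤ) - k - 1 = 0) (fun j => by omega) (2 * π)
    rw [h1]
    have h2' : ∑ j ∈ range (n + 1), p j * (1 / 2 * (if (j : ℤ) - k + 1 = 0 then 2 * π else 0)) =
        1 / 2 * (2 * π * p (k - 1)) := by
      rw [← h2, Finset.mul_sum]
      exact Finset.sum_congr rfl fun j _ => by ring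
    have h3' : ∑ j ∈ range (n + 1), p j * (1 / 2 * (if (j : ℤ) - k - 1 = 0 then 2 * π else 0)) =
        1 / 2 * (2 * π * p (k + 1)) := by
      rw [← h3, Finset.mul_sum]
      exact Finset.sum_congr rfl fun j _ => by ring
    rw [h2', h3']
    ring
  · intro j _
    exact (Continuous.intervalIntegrable (by fun_prop) _ _)


lemma expansion {F F1 F2 : ℂ → ℂ} {r M : ℝ} (hr : 0 < r)
    (h : ∀ θ ∈ Metric.ball (0 : ℂ) r, HasDerivAt F (F1 θ) θ ∧ HasDerivAt F1 (F2 θ) θ ∧ ‖F2 θ‖ ≤ M)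
    {θ : ℂ} (hθ : θ ∈ Metric.ball (0 : ℂ) r) :
    ‖F θ - F 0 - F1 0 * θ - F2 0 * θ ^ 2 / 2‖ ≤ 2 * M / r * ‖θ‖ ^ 3 := by
  have h00 : (0 : ℂ) ∈ Metric.ball (0 : ℂ) r := Metric.mem_ball_self hr
  have hM : 0 ≤ M := (norm_nonneg _).trans (h 0 h00).2.2
  have hd1 : DifferentiableOn ℂ F1 (Metric.ball 0 r) := fun z hz =>
    (h z hz).2.1.differentiableAt.differentiableWithinAt
  have hd2 : DifferentiableOn ℂ F2 (Metric.ball 0 r) := by
    refine (hd1.deriv Metric.isOpen_ball).congr fun z hz => ?_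
    exact (h z hz).2.1.deriv.symm
  have hS : ∀ z ∈ Metric.ball (0 : ℂ) r, ‖F2 z - F2 0‖ ≤ 2 * M / r * ‖z‖ := by
    intro z hz
    have hm : Set.MapsTo F2 (Metric.ball 0 r) (Metric.closedBall (F2 0) (2 * M)) := by
      intro w hw
      rw [Metric.mem_closedBall, dist_eq_norm]
      have h1 := norm_sub_le (F2 w) (F2 0)
      have h2 := (h w hw).2.2
      have h3 := (h 0 h00).2.2
      linarith
    have := Complex.dist_le_div_mul_dist_of_mapsTo_ball hd2 hm hz
    simpa [dist_eq_norm] using this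
  set ρ := ‖θ‖ with hρ
  have hρr : ρ < r := by simpa using hθ
  have hsub : ∀ z ∈ Metric.closedBall (0 : ℂ) ρ, z ∈ Metric.ball (0 : ℂ) r := fun z hz => by
    rw [Metric.mem_ball]; exact lt_of_le_of_lt (Metric.mem_closedBall.1 hz) hρr
  have hC : 0 ≤ 2 * M / r := by positivity
  have h0 : (0 : ℂ) ∈ Metric.closedBall (0 : ℂ) ρ := by simp [hρ]
  have hK : ∀ z ∈ Metric.closedBall (0 : ℂ) ρ, ‖F1 z - F1 0 - F2 0 * z‖ ≤ 2 * M / r * ρ * ρ := by
    intro z hz
    have h1 : ∀ w ∈ Metric.closedBall (0 : ℂ) ρ, HasDerivWithinAt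
        (fun w => F1 w - F1 0 - F2 0 * w) (F2 w - F2 0) (Metric.closedBall (0 : ℂ) ρ) w := by
      intro w hw
      have := (((h w (hsub w hw)).2.1.sub_const (F1 0)).sub
        ((hasDerivAt_id w).const_mul (F2 0)))
      rw [mul_one] at this
      exact this.hasDerivWithinAt
    have h2 : ∀ w ∈ Metric.closedBall (0 : ℂ) ρ, ‖F2 w - F2 0‖ ≤ 2 * M / r * ρ := by
      intro w hw
      refine (hS w (hsub w hw)).trans ?_
      gcongr
      simpa using hw
    have h3 := (convex_closedBall (0 : ℂ) ρ).norm_image_sub_le_of_norm_hasDerivWithin_le h1 h2 h0 hz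
    simp only [sub_self, mul_zero, sub_zero] at h3
    refine h3.trans ?_
    gcongr
    simpa using hz
  have hL : ∀ z ∈ Metric.closedBall (0 : ℂ) ρ,
      ‖F z - F 0 - F1 0 * z - F2 0 * z ^ 2 / 2‖ ≤ 2 * M / r * ρ * ρ * ρ := by
    intro z hz
    have h1 : ∀ w ∈ Metric.closedBall (0 : ℂ) ρ, HasDerivWithinAt
        (fun w => F w - F 0 - F1 0 * w - F2 0 * w ^ 2 / 2) (F1 w - F1 0 - F2 0 * w)
          (Metric.closedBall (0 : ℂ) ρ) w := by
      intro w hw
      have h4 : HasDerivAt (fun w => F w - F 0 - F1 0 * w - F2 0 * w ^ 2 / 2)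
          (F1 w - F1 0 * 1 - F2 0 * ((2 : ℕ) * w ^ (2 - 1) * 1) / 2) w :=
        (((h w (hsub w hw)).1.sub_const (F 0)).sub ((hasDerivAt_id w).const_mul (F1 0))).sub
          ((((hasDerivAt_id w).pow 2).const_mul (F2 0)).div_const 2)
      have h5 : F1 w - F1 0 * 1 - F2 0 * ((2 : ℕ) * w ^ (2 - 1) * 1) / 2 =
          F1 w - F1 0 - F2 0 * w := by
        norm_num
        ring
      rw [h5] at h4
      exact h4.hasDerivWithinAt
    have h3 := (convex_closedBall (0 : ℂ) ρ).norm_image_sub_le_of_norm_hasDerivWithin_le h1 hK h0 hz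
    simp only [sub_self, mul_zero, sub_zero, ne_eq, OfNat.ofNat_ne_zero, not_false_eq_true,
      zero_pow, zero_div] at h3
    refine h3.trans ?_
    gcongr
    simpa using hz
  have := hL θ (by simp [hρ])
  calc _ ≤ _ := this
    _ = _ := by ring

lemma derivs_zero {n : ℕ} {p : ℕ → ℝ} {F F1 F2 : ℂ → ℂ} {r : ℝ} (hr : 0 < r)
    (hs : ∑ j ∈ range (n + 1), p j = 1)
    (h : ∀ θ ∈ Metric.ball (0 : ℂ) r, HasDerivAt F (F1 θ) θ ∧ HasDerivAt F1 (F2 θ) θ ∧
      Complex.exp (F θ) = ∑ j ∈ range (n + 1), (p j : ℂ) * Complex.exp (j * θ * Complex.I)) :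
    Complex.exp (F 0) = 1 ∧ F1 0 = Complex.I * ((∑ j ∈ range (n + 1), (j : ℝ) * p j : ℝ) : ℂ) ∧
    F2 0 = -((∑ j ∈ range (n + 1), (j : ℝ) ^ 2 * p j -
      (∑ j ∈ range (n + 1), (j : ℝ) * p j) ^ 2 : ℝ) : ℂ) := by
  have h00 : (0 : ℂ) ∈ Metric.ball (0 : ℂ) r := Metric.mem_ball_self hr
  have hnhds : Metric.ball (0 : ℂ) r ∈ nhds (0 : ℂ) := Metric.ball_mem_nhds _ hr
  have e0 : Complex.exp (F 0) = 1 := by
    rw [(h 0 h00).2.2]
    simp only [mul_zero, zero_mul, Complex.exp_zero, mul_one]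
    exact_mod_cast hs
  have hG : ∀ θ : ℂ, HasDerivAt
      (fun θ : ℂ => ∑ j ∈ range (n + 1), (p j : ℂ) * Complex.exp (j * θ * Complex.I))
      (∑ j ∈ range (n + 1), (p j : ℂ) * (Complex.exp (j * θ * Complex.I) * (j * 1 * Complex.I))) θ := by
    intro θ
    refine HasDerivAt.fun_sum fun j _ => ?_
    exact ((((hasDerivAt_id θ).const_mul (j : ℂ)).mul_const Complex.I).cexp).const_mul _
  have hG1 : HasDerivAt
      (fun θ : ℂ => ∑ j ∈ range (n + 1), (p j : ℂ) *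
        (Complex.exp (j * θ * Complex.I) * (j * 1 * Complex.I)))
      (∑ j ∈ range (n + 1), (p j : ℂ) * (Complex.exp (j * 0 * Complex.I) * (j * 1 * Complex.I) *
        (j * 1 * Complex.I))) 0 := by
    refine HasDerivAt.fun_sum fun j _ => ?_
    exact (((((hasDerivAt_id (0 : ℂ)).const_mul (j : ℂ)).mul_const Complex.I).cexp).mul_const
      _).const_mul _
  have hE1 : ∀ θ ∈ Metric.ball (0 : ℂ) r, Complex.exp (F θ) * F1 θ =
      ∑ j ∈ range (n + 1), (p j : ℂ) * (Complex.exp (j * θ * Complex.I) * (j * 1 * Complex.I)) := by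
    intro θ hθ
    have h1 : HasDerivAt (fun θ => Complex.exp (F θ)) (Complex.exp (F θ) * F1 θ) θ :=
      (h θ hθ).1.cexp
    have h2 : (fun θ : ℂ => ∑ j ∈ range (n + 1), (p j : ℂ) * Complex.exp (j * θ * Complex.I))
        =ᶠ[nhds θ] fun θ => Complex.exp (F θ) := by
      filter_upwards [Metric.isOpen_ball.mem_nhds hθ] with w hw
      exact ((h w hw).2.2).symm
    exact (h1.congr_of_eventuallyEq h2).unique (hG θ)
  have e1 : F1 0 = Complex.I * ((∑ j ∈ range (n + 1), (j : ℝ) * p j : ℝ) : ℂ) := by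
    have := hE1 0 h00
    rw [e0, one_mul] at this
    rw [this]
    push_cast
    rw [Finset.mul_sum]
    refine Finset.sum_congr rfl fun j _ => ?_
    simp
    ring
  refine ⟨e0, e1, ?_⟩
  have h1 : HasDerivAt (fun θ => Complex.exp (F θ) * F1 θ)
      (Complex.exp (F 0) * F1 0 * F1 0 + Complex.exp (F 0) * F2 0) 0 :=
    ((h 0 h00).1.cexp).mul (h 0 h00).2.1
  have h2 : (fun θ : ℂ => ∑ j ∈ range (n + 1), (p j : ℂ) *
        (Complex.exp (j * θ * Complex.I) * (j * 1 * Complex.I)))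
        =ᶠ[nhds 0] fun θ => Complex.exp (F θ) * F1 θ := by
    filter_upwards [hnhds] with w hw
    exact (hE1 w hw).symm
  have h3 := (h1.congr_of_eventuallyEq h2).unique hG1
  rw [e0, one_mul, one_mul, e1] at h3
  have h4 : ∑ j ∈ range (n + 1), (p j : ℂ) * (Complex.exp (j * 0 * Complex.I) * (j * 1 * Complex.I) *
        (j * 1 * Complex.I)) = - ((∑ j ∈ range (n + 1), (j : ℝ) ^ 2 * p j : ℝ) : ℂ) := by
    push_cast
    rw [← Finset.sum_neg_distrib]
    refine Finset.sum_congr rfl fun j _ => ?_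
    simp only [mul_zero, zero_mul, Complex.exp_zero, mul_one, one_mul]
    linear_combination (p j : ℂ) * j ^ 2 * Complex.I_sq
  rw [h4] at h3
  push_cast at h3 ⊢
  linear_combination h3 - (∑ j ∈ range (n + 1), (j : ℂ) * (p j : ℂ)) ^ 2 * Complex.I_sq

lemma var_nonneg {n : ℕ} {p : ℕ → ℝ} (hp : ∀ j, 0 ≤ p j) {k : ℝ}
    (hs : ∑ j ∈ range (n + 1), p j = 1) (hk : ∑ j ∈ range (n + 1), (j : ℝ) * p j = k) :
    0 ≤ ∑ j ∈ range (n + 1), (j : ℝ) ^ 2 * p j - k ^ 2 := by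
  have h : ∑ j ∈ range (n + 1), ((j : ℝ) - k) ^ 2 * p j =
      ∑ j ∈ range (n + 1), (j : ℝ) ^ 2 * p j - k ^ 2 := by
    have e : ∀ j ∈ range (n + 1), ((j : ℝ) - k) ^ 2 * p j =
        (j : ℝ) ^ 2 * p j - 2 * k * ((j : ℝ) * p j) + k ^ 2 * p j := fun j _ => by ring
    rw [Finset.sum_congr rfl e, Finset.sum_add_distrib, Finset.sum_sub_distrib, ← Finset.mul_sum,
      ← Finset.mul_sum, hs, hk]
    ring
  rw [← h]
  exact Finset.sum_nonneg fun j _ => mul_nonneg (sq_nonneg _) (hp j)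


lemma exists_N : ∃ N : ℕ, ∀ n : ℕ, N ≤ n → 1 ≤ n ∧
    2 * (6000 * (n : ℝ)) / ((n : ℝ) ^ (-(19 / 40) : ℝ) / 10 ^ 6) * ((n : ℝ) ^ (-(37 / 75) : ℝ)) ^ 3 ≤ 1 / 2 ∧
    (n : ℝ) ^ (-(37 / 75) : ℝ) < (n : ℝ) ^ (-(19 / 40) : ℝ) / 10 ^ 6 ∧
    4 * π * Real.exp (-(2 / π ^ 2 / 1000) * (n : ℝ) ^ (1 / 75 : ℝ)) ≤
      Real.exp (-3001) / 2 * (n : ℝ) ^ (-(3 / 2) : ℝ) / 40 := by
  have hat : Filter.Tendsto (fun n : ℕ => (n : ℝ)) Filter.atTop Filter.atTop :=
    tendsto_natCast_atTop_atTop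
  have h1 : Filter.Tendsto (fun x : ℝ => x ^ (-(1 / 200) : ℝ)) Filter.atTop (nhds 0) :=
    tendsto_rpow_neg_atTop (by norm_num)
  have h2 : Filter.Tendsto (fun x : ℝ => x ^ (-(11 / 600) : ℝ)) Filter.atTop (nhds 0) :=
    tendsto_rpow_neg_atTop (by norm_num)
  have h3 : Filter.Tendsto (fun x : ℝ => x ^ (225 / 2 : ℝ) * Real.exp (-(2 / π ^ 2 / 1000) * x))
      Filter.atTop (nhds 0) := tendsto_rpow_mul_exp_neg_mul_atTop_nhds_zero _ _ (by positivity)
  have h4 : Filter.Tendsto (fun x : ℝ => x ^ (1 / 75 : ℝ)) Filter.atTop Filter.atTop :=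
    tendsto_rpow_atTop (by norm_num)
  have e1 := (h1.comp hat).eventually_lt_const (show (0 : ℝ) < 1 / (24000 * 10 ^ 6) by norm_num)
  have e2 := (h2.comp hat).eventually_lt_const (show (0 : ℝ) < 1 / 10 ^ 6 by norm_num)
  have e3 := ((h3.comp h4).comp hat).eventually_lt_const
    (show (0 : ℝ) < Real.exp (-3001) / 2 / 40 / (4 * π) by positivity)
  have e4 := Filter.eventually_ge_atTop 1
  obtain ⟨N, hN⟩ := Filter.eventually_atTop.1 (e1.and (e2.and (e3.and e4)))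
  refine ⟨N, fun n hn => ?_⟩
  obtain ⟨a1, a2, a3, a4⟩ := hN n hn
  simp only [Function.comp] at a1 a2 a3
  have hx : (0 : ℝ) < n := by exact_mod_cast a4
  set x : ℝ := (n : ℝ) with hxdef
  refine ⟨a4, ?_, ?_, ?_⟩
  · have h5 : 2 * (6000 * x) / (x ^ (-(19 / 40) : ℝ) / 10 ^ 6) * (x ^ (-(37 / 75) : ℝ)) ^ 3 =
        12000 * 10 ^ 6 * x ^ (-(1 / 200) : ℝ) := by
      have h6 : (x ^ (-(37 / 75) : ℝ)) ^ 3 = x ^ (-(37 / 25) : ℝ) := by
        rw [← Real.rpow_natCast, ← Real.rpow_mul hx.le]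
        norm_num
      have h7 : x * x ^ (-(37 / 25) : ℝ) = x ^ (-(1 / 200) : ℝ) * x ^ (-(19 / 40) : ℝ) := by
        rw [← Real.rpow_add hx]
        nth_rewrite 1 [← Real.rpow_one x]
        rw [← Real.rpow_add hx]
        norm_num
      have h8 : 0 < x ^ (-(19 / 40) : ℝ) := Real.rpow_pos_of_pos hx _
      rw [h6]
      field_simp
      linear_combination (2 * 6000) * h7
    rw [h5]
    rw [lt_div_iff₀ (by norm_num)] at a1
    linarith
  · have h8 : 0 < x ^ (-(19 / 40) : ℝ) := Real.rpow_pos_of_pos hx _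
    have h9 : x ^ (-(37 / 75) : ℝ) = x ^ (-(11 / 600) : ℝ) * x ^ (-(19 / 40) : ℝ) := by
      rw [← Real.rpow_add hx]
      norm_num
    rw [h9]
    calc _ < 1 / 10 ^ 6 * x ^ (-(19 / 40) : ℝ) := by gcongr
      _ = _ := by ring
  · have h10 : (x ^ (1 / 75 : ℝ)) ^ (225 / 2 : ℝ) = x ^ (3 / 2 : ℝ) := by
      rw [← Real.rpow_mul hx.le]
      norm_num
    rw [h10] at a3
    have h11 : 0 < x ^ (3 / 2 : ℝ) := Real.rpow_pos_of_pos hx _
    have h12 : x ^ (-(3 / 2) : ℝ) = (x ^ (3 / 2 : ℝ))⁻¹ := Real.rpow_neg hx.le _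
    rw [h12]
    rw [lt_div_iff₀ (by positivity)] at a3
    have h13 := a3.le
    calc 4 * π * Real.exp (-(2 / π ^ 2 / 1000) * x ^ (1 / 75 : ℝ))
        = (x ^ (3 / 2 : ℝ) * Real.exp (-(2 / π ^ 2 / 1000) * x ^ (1 / 75 : ℝ)) * (4 * π)) *
          (x ^ (3 / 2 : ℝ))⁻¹ := by field_simp
      _ ≤ (Real.exp (-3001) / 2 / 40) * (x ^ (3 / 2 : ℝ))⁻¹ := by gcongr
      _ = _ := by ring

lemma re_eq {n k : ℕ} (p : ℕ → ℝ) (t : ℝ) :
    (Complex.exp (-(k * t * Complex.I)) *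
      ∑ j ∈ range (n + 1), (p j : ℂ) * Complex.exp (j * t * Complex.I)).re =
      ∑ j ∈ range (n + 1), p j * Real.cos (((j : ℤ) - k : ℤ) * t) := by
  rw [Finset.mul_sum, Complex.re_sum]
  refine Finset.sum_congr rfl fun j _ => ?_
  have : Complex.exp (-(k * t * Complex.I)) * ((p j : ℂ) * Complex.exp (j * t * Complex.I)) =
      (p j : ℂ) * Complex.exp (((((j : ℤ) - k : ℤ) * t : ℝ) : ℂ) * Complex.I) := by
    rw [mul_left_comm, ← Complex.exp_add]
    congr 2
    push_cast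
    ring
  rw [this, Complex.re_ofReal_mul, Complex.exp_ofReal_mul_I_re]

end FourierE

open FourierE Real in
theorem fourier : ∃ N : ℕ, ∀ n ≥ N, ∀ (p : ℕ → ℝ) (k : ℕ), (∀ j, 0 ≤ p j) → (∀ j, n < j → p j = 0) →
    ∑ j ∈ range (n + 1), p j = 1 → ∑ j ∈ range (n + 1), (j : ℝ) * p j = k → 1 ≤ k →
    (∀ t : ℝ, ‖∑ j ∈ range (n + 1), (p j : ℂ) * Complex.exp (j * t * Complex.I)‖ ≤
      Real.exp (-(n * (1 - Real.cos t) / 1000))) →
    (∃ F F1 F2 : ℂ → ℂ, ∀ θ ∈ Metric.ball (0 : ℂ) ((n : ℝ) ^ (-(19 / 40) : ℝ) / 10 ^ 6),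
      HasDerivAt F (F1 θ) θ ∧ HasDerivAt F1 (F2 θ) θ ∧ ‖F2 θ‖ ≤ 6000 * n ∧
      Complex.exp (F θ) = ∑ j ∈ range (n + 1), (p j : ℂ) * Complex.exp (j * θ * Complex.I)) →
    p (k - 1) + p (k + 1) ≤ 2 * p k := by
  obtain ⟨N, hN⟩ := exists_N
  refine ⟨N, fun n hn p k hp hpn hs hmean hk htail ⟨F, F1, F2, hF⟩ => ?_⟩
  obtain ⟨hn1, ha, hb, hd⟩ := hN n hn
  have hx : (0 : ℝ) < n := by exact_mod_cast hn1
  have hx1 : (1 : ℝ) ≤ n := by exact_mod_cast hn1
  set x : ℝ := (n : ℝ) with hxdef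
  set r : ℝ := x ^ (-(19 / 40) : ℝ) / 10 ^ 6 with hr
  set t1 : ℝ := x ^ (-(37 / 75) : ℝ) with ht1
  have hr0 : 0 < r := by positivity
  have ht10 : 0 < t1 := by positivity
  obtain ⟨z0, z1, z2⟩ := derivs_zero (r := r) hr0 hs fun θ hθ =>
    ⟨(hF θ hθ).1, (hF θ hθ).2.1, (hF θ hθ).2.2.2⟩
  rw [hmean] at z1 z2
  set v : ℝ := ∑ j ∈ range (n + 1), (j : ℝ) ^ 2 * p j - (k : ℝ) ^ 2 with hv
  have hv0 : 0 ≤ v := var_nonneg hp hs hmean
  have hv1 : v ≤ 6000 * x := by
    have h1 := (hF 0 (Metric.mem_ball_self hr0)).2.2.1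
    rw [z2, norm_neg, Complex.norm_real, Real.norm_eq_abs, abs_of_nonneg hv0] at h1
    exact h1
  -- the values of the real part
  set S : ℝ → ℝ := fun t => ∑ j ∈ range (n + 1), p j * Real.cos (((j : ℤ) - k : ℤ) * t) with hS
  have hScont : Continuous S := by
    simp only [hS]
    fun_prop
  -- small t
  have hsmall : ∀ t : ℝ, |t| ≤ t1 → Real.exp (-(v * t ^ 2 / 2) - 1 / 2) / 2 ≤ S t := by
    intro t ht
    have hball : (t : ℂ) ∈ Metric.ball (0 : ℂ) r := by
      simp only [Metric.mem_ball, dist_zero_right, Complex.norm_real, Real.norm_eq_abs]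
      exact lt_of_le_of_lt ht hb
    have hexp := expansion hr0 (fun θ hθ => ⟨(hF θ hθ).1, (hF θ hθ).2.1, (hF θ hθ).2.2.1⟩) hball
    rw [z1, z2, Complex.norm_real, Real.norm_eq_abs] at hexp
    set L : ℂ := F t - F 0 - Complex.I * ((k : ℝ) : ℂ) * t - -(v : ℂ) * (t : ℂ) ^ 2 / 2 with hL
    have hLn : ‖L‖ ≤ 1 / 2 := by
      refine hexp.trans (le_trans ?_ ha)
      have h1 : |t| ^ 3 ≤ t1 ^ 3 := pow_le_pow_left₀ (abs_nonneg t) ht 3
      gcongr
    have hψ : Complex.exp (-(k * t * Complex.I)) *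
        ∑ j ∈ range (n + 1), (p j : ℂ) * Complex.exp (j * t * Complex.I) =
        Complex.exp (((-(v * t ^ 2 / 2) : ℝ) : ℂ) + L) := by
      rw [← (hF t hball).2.2.2]
      have h2 : F t = F 0 + (k * t * Complex.I + (((-(v * t ^ 2 / 2) : ℝ) : ℂ) + L)) := by
        rw [hL]
        push_cast
        ring
      rw [h2, Complex.exp_add, z0, one_mul, ← Complex.exp_add]
      congr 1
      ring
    have h3 : S t = Real.exp (-(v * t ^ 2 / 2) + L.re) * Real.cos L.im := by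
      simp only [hS]
      rw [← re_eq (n := n) (k := k) p t, hψ, Complex.exp_re, Complex.add_re, Complex.add_im,
        Complex.ofReal_re, Complex.ofReal_im, zero_add]
    have h4 : |L.re| ≤ 1 / 2 := (Complex.abs_re_le_norm L).trans hLn
    have h5 : |L.im| ≤ 1 / 2 := (Complex.abs_im_le_norm L).trans hLn
    have h6 : 1 / 2 ≤ Real.cos L.im := by
      have h7 := Real.one_sub_sq_div_two_le_cos (x := L.im)
      have h8 : L.im ^ 2 ≤ (1 / 2) ^ 2 := sq_le_sq' (by linarith [(abs_le.1 h5).1]) (abs_le.1 h5).2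
      linarith
    rw [h3]
    have h9 : Real.exp (-(v * t ^ 2 / 2) - 1 / 2) ≤ Real.exp (-(v * t ^ 2 / 2) + L.re) :=
      Real.exp_le_exp.2 (by linarith [(abs_le.1 h4).1])
    calc _ = Real.exp (-(v * t ^ 2 / 2) - 1 / 2) * (1 / 2) := by ring
      _ ≤ _ := mul_le_mul h9 h6 (by norm_num) (Real.exp_pos _).le
  -- large t
  set E : ℝ := Real.exp (-(2 / π ^ 2 / 1000) * x ^ (1 / 75 : ℝ)) with hE
  have hE0 : 0 < E := Real.exp_pos _
  have hbig : ∀ t : ℝ, |t| ≤ π → t1 ≤ |t| → |S t| ≤ E := by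
    intro t ht ht'
    have h1 : |S t| ≤ ‖∑ j ∈ range (n + 1), (p j : ℂ) * Complex.exp (j * t * Complex.I)‖ := by
      simp only [hS]
      rw [← re_eq (n := n) (k := k) p t]
      refine (Complex.abs_re_le_norm _).trans ?_
      rw [norm_mul]
      have h2 : ‖Complex.exp (-(k * t * Complex.I))‖ = 1 := by
        have : (-(k * t * Complex.I) : ℂ) = ((-(k * t) : ℝ) : ℂ) * Complex.I := by
          push_cast; ring
        rw [this, Complex.norm_exp_ofReal_mul_I]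
      rw [h2, one_mul]
    refine h1.trans ((htail t).trans ?_)
    rw [hE]
    apply Real.exp_le_exp.2
    have h3 := Real.cos_le_one_sub_mul_cos_sq ht
    have h4 : t1 ^ 2 ≤ t ^ 2 := by
      rw [← sq_abs t]
      exact pow_le_pow_left₀ ht10.le ht' 2
    have h5 : x * t1 ^ 2 = x ^ (1 / 75 : ℝ) := by
      rw [ht1, ← Real.rpow_natCast, ← Real.rpow_mul hx.le]
      nth_rewrite 1 [← Real.rpow_one x]
      rw [← Real.rpow_add hx]
      norm_num
    rw [← h5]
    have h6 : 2 / π ^ 2 * t1 ^ 2 ≤ 1 - Real.cos t := by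
      have : 2 / π ^ 2 * t1 ^ 2 ≤ 2 / π ^ 2 * t ^ 2 := by gcongr
      linarith
    have h7 : x * (2 / π ^ 2 * t1 ^ 2) ≤ x * (1 - Real.cos t) := by gcongr
    linarith
  -- the integral
  have hJ := int_J (n := n) hpn hk
  have hπ := Real.pi_pos
  have hπ3 := Real.pi_gt_three
  have hπ4 := Real.pi_lt_d2
  set b : ℝ := x ^ (-(1 / 2) : ℝ) with hbdef
  have hb0 : 0 < b := by positivity
  have hb1 : b ≤ 1 := Real.rpow_le_one_of_one_le_of_nonpos hx1 (by norm_num)
  have hbt : b ≤ t1 := Real.rpow_le_rpow_of_exponent_le hx1 (by norm_num)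
  have hxb : x * b ^ 2 = 1 := by
    rw [hbdef, ← Real.rpow_natCast, ← Real.rpow_mul hx.le]
    nth_rewrite 1 [← Real.rpow_one x]
    rw [← Real.rpow_add hx]
    norm_num
  have hb3 : b ^ 3 = x ^ (-(3 / 2) : ℝ) := by
    rw [hbdef, ← Real.rpow_natCast, ← Real.rpow_mul hx.le]
    norm_num
  set g : ℝ → ℝ := fun t => (1 - Real.cos t) * S t + 2 * E with hg
  have hgc : Continuous g := by
    simp only [hg]
    fun_prop
  have hg0 : ∀ t ∈ Set.Icc (-π) π, 0 ≤ g t := by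
    intro t ht
    have habs : |t| ≤ π := abs_le.2 ht
    have hc1 := Real.cos_le_one t
    have hc2 := Real.neg_one_le_cos t
    simp only [hg]
    rcases le_total |t| t1 with h | h
    · have h1 : 0 ≤ S t := le_trans (by positivity) (hsmall t h)
      have := mul_nonneg (sub_nonneg.2 hc1) h1
      linarith
    · have h1 := abs_le.1 (hbig t habs h)
      nlinarith [h1.1, h1.2]
  have hg1 : ∀ t ∈ Set.Icc (b / 2) b, Real.exp (-3001) / 2 * (b ^ 2 / 20) ≤ g t := by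
    intro t ht
    have ht0 : 0 ≤ t := le_trans (by positivity) ht.1
    have habs : |t| ≤ t1 := by rw [abs_of_nonneg ht0]; exact ht.2.trans hbt
    have h1 := hsmall t habs
    have h2 : Real.exp (-3001) ≤ Real.exp (-(v * t ^ 2 / 2) - 1 / 2) := by
      apply Real.exp_le_exp.2
      have h3 : t ^ 2 ≤ b ^ 2 := pow_le_pow_left₀ ht0 ht.2 2
      have h4 : v * t ^ 2 ≤ 6000 * x * b ^ 2 := by gcongr
      nlinarith
    have h3 : Real.exp (-3001) / 2 ≤ S t := by linarith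
    have h4 : b ^ 2 / 20 ≤ 1 - Real.cos t := by
      have h5 : |t| ≤ π := by rw [abs_of_nonneg ht0]; linarith [ht.2]
      have h6 := Real.cos_le_one_sub_mul_cos_sq h5
      have h7 : (b / 2) ^ 2 ≤ t ^ 2 := pow_le_pow_left₀ (by positivity) ht.1 2
      have h8 : 1 / 5 ≤ 2 / π ^ 2 := by
        rw [div_le_div_iff₀ (by norm_num) (by positivity)]
        nlinarith
      have h9 : 1 / 5 * (b / 2) ^ 2 ≤ 2 / π ^ 2 * t ^ 2 := by gcongr
      linarith
    have h5 : Real.exp (-3001) / 2 * (b ^ 2 / 20) ≤ S t * (1 - Real.cos t) :=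
      mul_le_mul h3 h4 (by positivity) (le_trans (by positivity) h3)
    simp only [hg]
    linarith
  have hI1 : Real.exp (-3001) / 2 * (b ^ 2 / 20) * (b / 2) ≤ ∫ t in (b / 2)..b, g t := by
    have h1 : ∫ t in (b / 2)..b, Real.exp (-3001) / 2 * (b ^ 2 / 20) ≤ ∫ t in (b / 2)..b, g t := by
      refine intervalIntegral.integral_mono_on (by linarith) (by simp) (hgc.intervalIntegrable _ _) ?_
      intro t ht
      exact hg1 t ht
    rw [intervalIntegral.integral_const, smul_eq_mul] at h1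
    calc _ = (b - b / 2) * (Real.exp (-3001) / 2 * (b ^ 2 / 20)) := by ring
      _ ≤ _ := h1
  have hI2 : ∫ t in (b / 2)..b, g t ≤ ∫ t in (-π)..π, g t := by
    refine intervalIntegral.integral_mono_interval (by linarith) (by linarith) (by linarith) ?_
      (hgc.intervalIntegrable _ _)
    filter_upwards [MeasureTheory.ae_restrict_mem measurableSet_Ioc] with t ht
    exact hg0 t ⟨ht.1.le, ht.2⟩
  have hI3 : ∫ t in (-π)..π, g t = (∫ t in (-π)..π, (1 - Real.cos t) * S t) + 4 * π * E := by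
    simp only [hg]
    rw [intervalIntegral.integral_add, intervalIntegral.integral_const, smul_eq_mul]
    · ring
    · exact Continuous.intervalIntegrable (by fun_prop) _ _
    · exact Continuous.intervalIntegrable (by fun_prop) _ _
  rw [hJ] at hI3
  have hfin : 0 ≤ 2 * π * p k - π * p (k - 1) - π * p (k + 1) := by
    have h1 : Real.exp (-3001) / 2 * (b ^ 2 / 20) * (b / 2) = Real.exp (-3001) / 2 *
        x ^ (-(3 / 2) : ℝ) / 40 := by
      rw [← hb3]; ring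
    linarith
  have hfin2 : 0 ≤ π * (2 * p k - (p (k - 1) + p (k + 1))) := by linarith
  have := nonneg_of_mul_nonneg_right hfin2 hπ
  linarith

end Pool.Agent.Hhelper46.Forest
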