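import Pool.Agent.Hhelper46.Forest.Basic

/-!
# Module B: the mean at fugacity 5
-/

set_option linter.unusedSectionVars false

namespace Pool.Agent.Hhelper46.Forest

open Finset

namespace MeanAux

/-- `f` -/
noncomputable def ff (R : ℝ) : ℝ := 2 * R / (2 + R)

/-- `g` -/
noncomputable def gg (x : ℝ) : ℝ := 2 * (1 - x) / (1 + x)

lemma ff_eq {R : ℝ} (hR : 0 < R) : ff R = gg (1 + R)⁻¹ := by
  unfold ff gg
  have : 0 < 1 + R := by linarith
  field_simp
  ring_nf

lemma gg_nonneg {x : ℝ} (h0 : 0 ≤ x) (h1 : x ≤ 1) : 0 ≤ gg x := by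
  unfold gg
  apply div_nonneg <;> linarith

lemma gg_mul_le {x y : ℝ} (hx : 0 ≤ x) (hx1 : x ≤ 1) (hy : 0 ≤ y) (hy1 : y ≤ 1) :
    gg (x * y) ≤ gg x + gg y := by
  unfold gg
  have h1 : 0 < 1 + x := by linarith
  have h2 : 0 < 1 + y := by linarith
  have h3 : 0 ≤ x * y := mul_nonneg hx hy
  have h5 : x * y ≤ 1 := by nlinarith
  rw [div_add_div _ _ h1.ne' h2.ne', div_le_div_iff₀ (by linarith) (by positivity)]
  nlinarith [mul_nonneg (sub_nonneg.2 h5) (mul_nonneg (sub_nonneg.2 hx1) (sub_nonneg.2 hy1))]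

variable {ι : Type*} [DecidableEq ι]

lemma gg_prod_le (A : Finset ι) (x : ι → ℝ) (hx : ∀ i ∈ A, 0 ≤ x i ∧ x i ≤ 1) :
    gg (∏ i ∈ A, x i) ≤ ∑ i ∈ A, gg (x i) := by
  induction A using Finset.induction_on with
  | empty => simp [gg]
  | insert a A ha ih =>
    rw [prod_insert ha, sum_insert ha]
    have h1 := hx a (mem_insert_self a A)
    have h2 : ∀ i ∈ A, 0 ≤ x i ∧ x i ≤ 1 := fun i hi => hx i (mem_insert_of_mem hi)
    have h3 := ih h2
    have h4 : 0 ≤ ∏ i ∈ A, x i := prod_nonneg fun i hi => (h2 i hi).1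
    have h5 : ∏ i ∈ A, x i ≤ 1 := prod_le_one (fun i hi => (h2 i hi).1) (fun i hi => (h2 i hi).2)
    have := gg_mul_le h1.1 h1.2 h4 h5
    linarith

lemma one_add_sum_le (A : Finset ι) (R : ι → ℝ) (hR : ∀ i ∈ A, 0 ≤ R i) :
    1 + ∑ i ∈ A, R i ≤ ∏ i ∈ A, (1 + R i) := by
  induction A using Finset.induction_on with
  | empty => simp
  | insert a A ha ih =>
    rw [prod_insert ha, sum_insert ha]
    have h1 := hR a (mem_insert_self a A)
    have h2 : ∀ i ∈ A, 0 ≤ R i := fun i hi => hR i (mem_insert_of_mem hi)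
    have h3 := ih h2
    have h4 : 0 ≤ ∑ i ∈ A, R i := sum_nonneg h2
    nlinarith

/-- the lower bound `T0` -/
noncomputable def T0 (R : ℝ) : ℝ := R / (1 + R) - 2 / 3 + 7 / 20 * (1 - R / (1 + R)) * gg (R / 5)

lemma T0_eq {R : ℝ} (hR : 0 < R) : T0 R = (10 * R ^ 2 + 9 * R + 5) / (30 * (1 + R) * (5 + R)) := by
  unfold T0 gg
  have h1 : 0 < 1 + R := by linarith
  have h2 : 0 < 5 + R := by linarith
  have h3 : 1 + R / 5 = (5 + R) / 5 := by ring
  rw [h3]
  field_simp
  ring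

lemma T0_pos {R : ℝ} (hR : 0 < R) : 0 < T0 R := by
  rw [T0_eq hR]
  positivity

/-- `B'` -/
noncomputable def BB (R : ℝ) : ℝ := 2 / 3 - 7 / 20 * gg (R / 5)

lemma BB_eq {R : ℝ} (hR : 0 < R) : BB R = 7 / 5 * R / (5 + R) - 1 / 30 := by
  unfold BB gg
  have h2 : 0 < 5 + R := by linarith
  have h3 : 1 + R / 5 = (5 + R) / 5 := by ring
  rw [h3]
  field_simp
  ring

lemma poly_ineq {R h : ℝ} (hR : 0 ≤ R) (hR5 : R ≤ 5) (hh : 0 ≤ h) :
    (R + h) * (7 + 2 * (R + h)) * (41 * R - 5 - (2 * R ^ 2 + 9 / 5 * R + 1) * (1 + h))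
      ≤ R * (5 + R) * (39 * (R + h) + 84) := by
  have p0 : 1800 ≤ 20 * R ^ 3 - 127 * R ^ 2 + 83 * R + 2310 := by
    nlinarith [sq_nonneg (R - 4), mul_nonneg hR (sq_nonneg (R - 4)), mul_nonneg hR (sub_nonneg.2 hR5)]
  have p1 : 0 ≤ 20 * R ^ 4 + 128 * R ^ 3 - 446 * R ^ 2 + 188 * R + 210 := by
    nlinarith [sq_nonneg (R ^ 2 - 9 / 4), mul_nonneg hR (sq_nonneg (R - 3 / 2)), sq_nonneg (R - 3 / 2),
      mul_nonneg (mul_nonneg hR hR) (sq_nonneg (R - 3 / 2))]
  have p2 : 0 ≤ 40 * R ^ 3 + 126 * R ^ 2 - 203 * R + 95 := by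
    nlinarith [sq_nonneg (R - 3 / 5), mul_nonneg hR (sq_nonneg (R - 3 / 5))]
  have p3 : 0 ≤ 20 * R ^ 2 - 28 * R + 10 := by nlinarith [sq_nonneg (R - 7 / 10)]
  have p4 : 0 ≤ 1800 - 430 * h - 106 * h ^ 2 + 46 * h ^ 3 := by
    nlinarith [sq_nonneg (h - 27 / 10), mul_nonneg hh (sq_nonneg (h - 27 / 10))]
  have a0 : 0 ≤ R * (20 * R ^ 3 - 127 * R ^ 2 + 83 * R + 2310 - 1800) := mul_nonneg hR (by linarith)
  have a1 := mul_nonneg hh p1
  have a2 := mul_nonneg (pow_nonneg hh 2) p2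
  have a3 := mul_nonneg (pow_nonneg hh 3) p3
  have a4 := mul_nonneg hR p4
  nlinarith

lemma term_ineq {R S : ℝ} (hR : 0 < R) (hR5 : R ≤ 5) (hRS : R ≤ S) :
    (41 * R - 5 - (2 * R ^ 2 + 9 / 5 * R + 1) * (1 + S - R)) / (5 + R)
      ≤ R / S * ((39 * S + 84) / (7 + 2 * S)) := by
  have hS : 0 < S := by linarith
  have h1 := poly_ineq hR.le hR5 (sub_nonneg.2 hRS)
  have e1 : R + (S - R) = S := by ring
  have e2 : 1 + (S - R) = 1 + S - R := by ring
  rw [e1, e2] at h1
  rw [div_mul_div_comm, div_le_div_iff₀ (by linarith) (by positivity)]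
  nlinarith

lemma key_sum (A : Finset ι) (hA : A.Nonempty) (R : ι → ℝ) (hR : ∀ i ∈ A, 0 < R i ∧ R i ≤ 5) :
    ∑ i ∈ A, (42 * R i / (5 + R i) - 1
      - (∏ j ∈ A, (1 + R j)) / (5 * (1 + R i)) * ((10 * R i ^ 2 + 9 * R i + 5) / (5 + R i)))
      ≤ 39 / 2 - (105 / 2) / (2 * (∏ j ∈ A, (1 + R j)) + 5) := by
  set Pi := ∏ j ∈ A, (1 + R j) with hPi
  set S := ∑ j ∈ A, R j with hS
  have hPS : 1 + S ≤ Pi := one_add_sum_le A R fun i hi => (hR i hi).1.le
  have hS0 : 0 < S := sum_pos (fun i hi => (hR i hi).1) hA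
  have h1 : ∀ i ∈ A, 42 * R i / (5 + R i) - 1
      - Pi / (5 * (1 + R i)) * ((10 * R i ^ 2 + 9 * R i + 5) / (5 + R i))
      ≤ R i / S * ((39 * S + 84) / (7 + 2 * S)) := by
    intro i hi
    obtain ⟨hR0, hR5⟩ := hR i hi
    have hRS : R i ≤ S := single_le_sum (fun j hj => (hR j hj).1.le) hi
    refine le_trans ?_ (term_ineq hR0 hR5 hRS)
    have h2 : 1 + S - R i ≤ Pi / (1 + R i) := by
      have e1 : Pi = (1 + R i) * ∏ j ∈ A.erase i, (1 + R j) := (mul_prod_erase A _ hi).symm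
      have e2 : S = R i + ∑ j ∈ A.erase i, R j := (add_sum_erase A _ hi).symm
      have e3 := one_add_sum_le (A.erase i) R fun j hj => (hR j (mem_of_mem_erase hj)).1.le
      rw [e1, mul_div_cancel_left₀ _ (by linarith)]
      linarith
    have h5 : 0 < 5 + R i := by linarith
    have h6 : 0 < 1 + R i := by linarith
    have e4 : 42 * R i / (5 + R i) - 1
      - Pi / (5 * (1 + R i)) * ((10 * R i ^ 2 + 9 * R i + 5) / (5 + R i))
      = (41 * R i - 5 - (2 * R i ^ 2 + 9 / 5 * R i + 1) * (Pi / (1 + R i))) / (5 + R i) := by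
      field_simp
      ring
    rw [e4]
    apply div_le_div_of_nonneg_right _ h5.le
    have h7 : 0 ≤ 2 * R i ^ 2 + 9 / 5 * R i + 1 := by positivity
    have := mul_le_mul_of_nonneg_left h2 h7
    linarith
  refine (sum_le_sum h1).trans ?_
  rw [← sum_mul, ← sum_div, ← hS, div_self hS0.ne', one_mul]
  have h8 : (39 * S + 84) / (7 + 2 * S) = 39 / 2 - (105 / 2) / (2 * (1 + S) + 5) := by
    have : 0 < 7 + 2 * S := by linarith
    have : 2 * (1 + S) + 5 = 7 + 2 * S := by ring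
    rw [this]
    field_simp
    ring
  rw [h8]
  have h9 : (105 / 2) / (2 * Pi + 5) ≤ (105 / 2) / (2 * (1 + S) + 5) := by
    apply div_le_div_of_nonneg_left (by norm_num) (by linarith) (by linarith)
  linarith

/-- the inequality needed at a vertex of type 0 -/
lemma type_zero (A : Finset ι) (hA : A.Nonempty) (R : ι → ℝ) (hR : ∀ i ∈ A, 0 < R i ∧ R i ≤ 5)
    {e0 r : ℝ} (he0 : 0 < e0) (he1 : e0 ≤ 1) (hr : r = 5 * (e0 * ∏ i ∈ A, (1 + R i)⁻¹)) :
    7 / 20 * ff r ≤ r / (1 + r) + ∑ i ∈ A, ((1 - r / (1 + r)) * (R i / (1 + R i)) - 2 / 3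
      + 7 / 20 * (1 - (1 - r / (1 + r)) * (R i / (1 + R i))) * gg (R i / 5))
      + 7 / 20 * (1 - r / (1 + r)) * gg e0 := by
  set Pi := ∏ j ∈ A, (1 + R j) with hPi
  have hPi1 : 1 ≤ Pi := by
    have := one_add_sum_le A R fun i hi => (hR i hi).1.le
    have h2 : 0 ≤ ∑ i ∈ A, R i := sum_nonneg fun i hi => (hR i hi).1.le
    linarith
  have hPi0 : 0 < Pi := by linarith
  have hr' : r = 5 * e0 / Pi := by
    rw [hr, prod_inv_distrib, ← hPi]
    field_simp
  have hr0 : 0 < r := by rw [hr']; positivity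
  set y := 1 / r with hy
  have hy0 : 0 < y := by positivity
  have hyP : Pi / 5 ≤ y := by
    rw [hy, hr', one_div, inv_div, div_le_div_iff₀ (by norm_num) (by positivity)]
    nlinarith
  have hg0 : 0 ≤ gg e0 := gg_nonneg he0.le he1
  have hry : r = 1 / y := by rw [hy, one_div_one_div]
  -- the sum multiplied by (1 + y)
  have hterm : ∀ i ∈ A, (1 + y) * ((1 - r / (1 + r)) * (R i / (1 + R i)) - 2 / 3
      + 7 / 20 * (1 - (1 - r / (1 + r)) * (R i / (1 + R i))) * gg (R i / 5))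
      = y * T0 (R i) - BB (R i) := by
    intro i hi
    obtain ⟨hR0, _⟩ := hR i hi
    have h1 : 0 < 1 + R i := by linarith
    have h2 : 1 - r / (1 + r) = y / (1 + y) := by
      rw [hry]; field_simp; ring
    rw [h2]
    unfold T0 BB
    field_simp
    ring
  have hsum : (1 + y) * ∑ i ∈ A, ((1 - r / (1 + r)) * (R i / (1 + R i)) - 2 / 3
      + 7 / 20 * (1 - (1 - r / (1 + r)) * (R i / (1 + R i))) * gg (R i / 5))
      = y * ∑ i ∈ A, T0 (R i) - ∑ i ∈ A, BB (R i) := by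
    rw [mul_sum, mul_sum, ← sum_sub_distrib]
    exact sum_congr rfl hterm
  have hT : 0 ≤ ∑ i ∈ A, T0 (R i) := sum_nonneg fun i hi => (T0_pos (hR i hi).1).le
  have hkey : ∑ i ∈ A, BB (R i) - Pi / 5 * ∑ i ∈ A, T0 (R i)
      ≤ 1 - 7 / 10 * (1 + Pi / 5) / (2 * (Pi / 5) + 1) := by
    have h1 := key_sum A hA R hR
    rw [← hPi] at h1
    have h2 : ∑ i ∈ A, BB (R i) - Pi / 5 * ∑ i ∈ A, T0 (R i)
        = (1 / 30) * ∑ i ∈ A, (42 * R i / (5 + R i) - 1
          - Pi / (5 * (1 + R i)) * ((10 * R i ^ 2 + 9 * R i + 5) / (5 + R i))) := by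
      rw [mul_sum, mul_sum, ← sum_sub_distrib]
      apply sum_congr rfl
      intro i hi
      obtain ⟨hR0, _⟩ := hR i hi
      rw [T0_eq hR0, BB_eq hR0]
      have h5 : 0 < 5 + R i := by linarith
      have h6 : 0 < 1 + R i := by linarith
      field_simp
      ring
    have h3 : 1 - 7 / 10 * (1 + Pi / 5) / (2 * (Pi / 5) + 1)
        = (1 / 30) * (39 / 2 - (105 / 2) / (2 * Pi + 5)) := by
      have : 0 < 2 * Pi + 5 := by linarith
      have : 2 * (Pi / 5) + 1 = (2 * Pi + 5) / 5 := by ring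
      rw [this]
      field_simp
      ring
    rw [h2, h3]
    linarith
  have hmono : 7 / 10 * (1 + y) / (2 * y + 1) ≤ 7 / 10 * (1 + Pi / 5) / (2 * (Pi / 5) + 1) := by
    rw [div_le_div_iff₀ (by linarith) (by linarith)]
    nlinarith
  have hmono2 : Pi / 5 * ∑ i ∈ A, T0 (R i) ≤ y * ∑ i ∈ A, T0 (R i) :=
    mul_le_mul_of_nonneg_right hyP hT
  have hfin : (1 + y) * (7 / 20 * ff r) ≤ (1 + y) * (r / (1 + r) + ∑ i ∈ A, ((1 - r / (1 + r)) * (R i / (1 + R i)) - 2 / 3
      + 7 / 20 * (1 - (1 - r / (1 + r)) * (R i / (1 + R i))) * gg (R i / 5))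
      + 7 / 20 * (1 - r / (1 + r)) * gg e0) := by
    rw [mul_add, mul_add, hsum]
    have e1 : (1 + y) * (7 / 20 * ff r) = 7 / 10 * (1 + y) / (2 * y + 1) := by
      rw [hry]; unfold ff; field_simp; ring
    have e2 : (1 + y) * (r / (1 + r)) = 1 := by
      rw [hry]; field_simp; ring
    have e3 : (1 + y) * (7 / 20 * (1 - r / (1 + r)) * gg e0) = 7 / 20 * y * gg e0 := by
      rw [hry]; field_simp; ring
    rw [e1, e2, e3]
    have : 0 ≤ 7 / 20 * y * gg e0 := by positivity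
    linarith
  exact le_of_mul_le_mul_left hfin (by linarith)

end MeanAux

variable {V : Type*} [Fintype V] [DecidableEq V]

open MeanAux in
theorem mean_lower (T : RF V) (R y : V → ℝ) (e : V → ℕ)
    (hR : ∀ v, R v = 5 * ∏ c ∈ T.ch v, (1 + R c)⁻¹)
    (hy : ∀ v, y v = R v / (1 + R v) * (1 - ∑ c ∈ T.ch v, y c))
    (he : ∀ v, e v = if (∑ c ∈ T.ch v, e c) = 0 then 1 else 0) :
    (2 / 3 : ℝ) * ∑ v, (e v : ℝ) ≤ ∑ v, y v := by
  have hR0 : ∀ v, 0 < R v := by
    refine fun v => T.ind (P := fun v => 0 < R v) ?_ v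
    intro v ih
    rw [hR v]
    apply mul_pos (by norm_num)
    exact prod_pos fun c hc => inv_pos.2 (by linarith [ih c hc])
  have hinv : ∀ v, 0 < (1 + R v)⁻¹ ∧ (1 + R v)⁻¹ ≤ 1 := fun v =>
    ⟨inv_pos.2 (by linarith [hR0 v]), inv_le_one_of_one_le₀ (by linarith [hR0 v])⟩
  have hR5 : ∀ v, R v ≤ 5 := by
    intro v
    rw [hR v]
    have : ∏ c ∈ T.ch v, (1 + R c)⁻¹ ≤ 1 :=
      prod_le_one (fun c _ => (hinv c).1.le) (fun c _ => (hinv c).2)
    linarith
  obtain ⟨E, hE⟩ := T.exists_rec (α := ℝ) (fun v f => ∑ c ∈ T.ch v, f c + y v - 2 / 3 * (e v : ℝ))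
    (by
      intro v f g hfg
      rw [sum_congr rfl hfg])
  have he01 : ∀ v, e v = 0 ∨ e v = 1 := by
    intro v; rw [he v]; split_ifs <;> simp
  have hq : ∀ v, 0 < R v / (1 + R v) ∧ R v / (1 + R v) < 1 := by
    intro v
    have := hR0 v
    constructor
    · positivity
    · rw [div_lt_one (by linarith)]; linarith
  have main : ∀ v, (e v = 0 → 0 ≤ E v - y v ∧ 7 / 20 * ff (R v) ≤ E v) ∧
      (e v = 1 → ∀ P : ℝ, 0 ≤ P → P ≤ 1 →
        (1 - P) * (R v / (1 + R v)) - 2 / 3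
          + 7 / 20 * (1 - (1 - P) * (R v / (1 + R v))) * gg (R v / 5) ≤ E v - P * y v) := by
    refine fun v => T.ind (P := fun v => (e v = 0 → 0 ≤ E v - y v ∧ 7 / 20 * ff (R v) ≤ E v) ∧
      (e v = 1 → ∀ P : ℝ, 0 ≤ P → P ≤ 1 →
        (1 - P) * (R v / (1 + R v)) - 2 / 3
          + 7 / 20 * (1 - (1 - P) * (R v / (1 + R v))) * gg (R v / 5) ≤ E v - P * y v)) ?_ v
    intro v ih
    -- consequence for the children of type 0
    have h0 : ∀ c ∈ T.ch v, e c = 0 → ∀ p : ℝ, 0 ≤ p → p ≤ 1 →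
        7 / 20 * (1 - p) * gg (1 + R c)⁻¹ ≤ E c - p * y c := by
      intro c hc hec p hp0 hp1
      obtain ⟨a1, a2⟩ := (ih c hc).1 hec
      rw [← ff_eq (hR0 c)]
      nlinarith [mul_le_mul_of_nonneg_left a2 (sub_nonneg.2 hp1), mul_nonneg hp0 a1]
    constructor
    · -- type 0
      intro hev
      set A := (T.ch v).filter (fun c => e c = 1) with hA
      set C0 := (T.ch v).filter (fun c => ¬ e c = 1) with hC0
      have hAne : A.Nonempty := by
        rw [he v] at hev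
        by_contra hcon
        rw [not_nonempty_iff_eq_empty] at hcon
        have : ∑ c ∈ T.ch v, e c = 0 := by
          apply sum_eq_zero
          intro c hc
          rcases he01 c with h | h
          · exact h
          · exfalso
            have : c ∈ A := by rw [hA, mem_filter]; exact ⟨hc, h⟩
            rw [hcon] at this
            exact absurd this (notMem_empty c)
        rw [if_pos this] at hev
        exact one_ne_zero hev
      have hsplit : ∀ F : V → ℝ, ∑ c ∈ T.ch v, F c = ∑ c ∈ A, F c + ∑ c ∈ C0, F c := fun F =>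
        (sum_filter_add_sum_filter_not _ _ _).symm
      have hprod : ∏ c ∈ T.ch v, (1 + R c)⁻¹ = (∏ c ∈ A, (1 + R c)⁻¹) * ∏ c ∈ C0, (1 + R c)⁻¹ :=
        (prod_filter_mul_prod_filter_not _ _ _).symm
      set e0 := ∏ c ∈ C0, (1 + R c)⁻¹ with he0
      have he0pos : 0 < e0 := prod_pos fun c _ => (hinv c).1
      have he0le : e0 ≤ 1 := prod_le_one (fun c _ => (hinv c).1.le) (fun c _ => (hinv c).2)
      have hEv : E v = ∑ c ∈ T.ch v, E c + y v := by
        rw [hE v, hev]; simp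
      have hA1 : ∀ P : ℝ, 0 ≤ P → P ≤ 1 → ∑ i ∈ A, ((1 - P) * (R i / (1 + R i)) - 2 / 3
          + 7 / 20 * (1 - (1 - P) * (R i / (1 + R i))) * gg (R i / 5)) ≤ ∑ i ∈ A, (E i - P * y i) := by
        intro P hP0 hP1
        apply sum_le_sum
        intro i hi
        rw [hA, mem_filter] at hi
        exact (ih i hi.1).2 hi.2 P hP0 hP1
      have hC1 : ∀ P : ℝ, 0 ≤ P → P ≤ 1 → 7 / 20 * (1 - P) * gg e0 ≤ ∑ c ∈ C0, (E c - P * y c) := by
        intro P hP0 hP1
        have h1 : 7 / 20 * (1 - P) * gg e0 ≤ 7 / 20 * (1 - P) * ∑ c ∈ C0, gg (1 + R c)⁻¹ := by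
          apply mul_le_mul_of_nonneg_left
          · exact gg_prod_le C0 _ fun c _ => ⟨(hinv c).1.le, (hinv c).2⟩
          · have := sub_nonneg.2 hP1
            positivity
        refine h1.trans ?_
        rw [mul_sum]
        apply sum_le_sum
        intro c hc
        rw [hC0, mem_filter] at hc
        rcases he01 c with h | h
        · exact h0 c hc.1 h P hP0 hP1
        · exact absurd h hc.2
      have hEP : ∀ P : ℝ, ∑ c ∈ T.ch v, (E c - P * y c) = ∑ c ∈ T.ch v, E c - P * ∑ c ∈ T.ch v, y c := by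
        intro P; rw [sum_sub_distrib, mul_sum]
      constructor
      · have h1 := hA1 0 le_rfl zero_le_one
        have h2 := hC1 0 le_rfl zero_le_one
        have h3 := hEP 0
        rw [hsplit] at h3
        have h4 : 0 ≤ ∑ i ∈ A, ((1 - 0) * (R i / (1 + R i)) - 2 / 3
          + 7 / 20 * (1 - (1 - 0) * (R i / (1 + R i))) * gg (R i / 5)) := by
          apply sum_nonneg
          intro i _
          have := (T0_pos (hR0 i)).le
          unfold T0 at this
          simpa using this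
        have h5 : 0 ≤ 7 / 20 * (1 - 0) * gg e0 := by
          have := gg_nonneg he0pos.le he0le
          positivity
        rw [zero_mul, sub_zero] at h3
        linarith
      · obtain ⟨hq0, hq1⟩ := hq v
        set P := R v / (1 + R v) with hP
        have h1 := hA1 P hq0.le hq1.le
        have h2 := hC1 P hq0.le hq1.le
        have h3 := hEP P
        rw [hsplit] at h3
        have h4 := type_zero A hAne R (fun i _ => ⟨hR0 i, hR5 i⟩) he0pos he0le (r := R v)
          (by rw [hR v, hprod, mul_comm e0])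
        rw [← hP] at h4
        have h5 : y v = P - P * ∑ c ∈ T.ch v, y c := by rw [hy v]; ring
        linarith
    · -- type 1
      intro hev P hP0 hP1
      have hch : ∀ c ∈ T.ch v, e c = 0 := by
        rw [he v] at hev
        by_cases h : ∑ c ∈ T.ch v, e c = 0
        · exact fun c hc => (sum_eq_zero_iff.1 h) c hc
        · rw [if_neg h] at hev
          exact absurd hev zero_ne_one
      obtain ⟨hq0, hq1⟩ := hq v
      set P' := (1 - P) * (R v / (1 + R v)) with hP'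
      have hP'0 : 0 ≤ P' := mul_nonneg (sub_nonneg.2 hP1) hq0.le
      have hP'1 : P' ≤ 1 := by nlinarith
      have h1 : 7 / 20 * (1 - P') * gg (R v / 5) ≤ ∑ c ∈ T.ch v, (E c - P' * y c) := by
        have e1 : R v / 5 = ∏ c ∈ T.ch v, (1 + R c)⁻¹ := by
          have := hR v
          linarith
        rw [e1]
        have h1 : 7 / 20 * (1 - P') * gg (∏ c ∈ T.ch v, (1 + R c)⁻¹)
            ≤ 7 / 20 * (1 - P') * ∑ c ∈ T.ch v, gg (1 + R c)⁻¹ := by
          apply mul_le_mul_of_nonneg_left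
          · exact gg_prod_le _ _ fun c _ => ⟨(hinv c).1.le, (hinv c).2⟩
          · have := sub_nonneg.2 hP'1
            positivity
        refine h1.trans ?_
        rw [mul_sum]
        apply sum_le_sum
        intro c hc
        exact h0 c hc (hch c hc) P' hP'0 hP'1
      have h2 : ∑ c ∈ T.ch v, (E c - P' * y c) = ∑ c ∈ T.ch v, E c - P' * ∑ c ∈ T.ch v, y c := by
        rw [sum_sub_distrib, mul_sum]
      have h3 : E v = ∑ c ∈ T.ch v, E c + y v - 2 / 3 := by
        rw [hE v, hev]; simp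
      have h4 : (1 - P) * y v = P' - P' * ∑ c ∈ T.ch v, y c := by
        rw [hy v, hP']; ring
      nlinarith
  have hE0 : ∀ v, 0 ≤ E v := by
    intro v
    rcases he01 v with h | h
    · have h1 := ((main v).1 h).2
      have h2 : 0 ≤ ff (R v) := by
        have := hR0 v
        unfold ff; positivity
      linarith
    · have h1 := (main v).2 h 0 le_rfl zero_le_one
      have h2 := (T0_pos (hR0 v)).le
      unfold T0 at h2
      simp only [sub_zero, one_mul, zero_mul] at h1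
      linarith
  have h1 := T.sum_ch_le E hE0
  have h2 : ∑ v, E v = ∑ v, ∑ c ∈ T.ch v, E c + ∑ v, y v - 2 / 3 * ∑ v, (e v : ℝ) := by
    rw [sum_congr rfl fun v _ => hE v, sum_sub_distrib, sum_add_distrib, mul_sum]
  linarith

end Pool.Agent.Hhelper46.Forest
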