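import Pool.Agent.Hhelper46.Forest.Basic

/-!
# Tail bound for the independence polynomial of a rooted forest
-/

set_option linter.unusedSectionVars false

namespace Pool.Agent.Hhelper46.Forest

open Finset

variable {V : Type*} [Fintype V] [DecidableEq V]

namespace TailAux

lemma Z_eq_ite {K : Type*} [CommSemiring K] (T : RF V) (W : Finset V) (x : V → K) :
    T.Z W x = ∑ S ∈ W.powerset, if T.Ind S then ∏ v ∈ S, x v else 0 := by
  unfold RF.Z
  rw [Finset.sum_filter]

lemma par_ne_self (T : RF V) (v : V) : T.par v ≠ some v := fun h => lt_irrefl _ (T.lt v v h)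

lemma ind_insert (T : RF V) (v : V) (S : Finset V) :
    T.Ind (insert v S) ↔ T.Ind S ∧ ∀ u ∈ S, T.par u ≠ some v ∧ T.par v ≠ some u := by
  unfold RF.Ind
  constructor
  · intro h
    refine ⟨fun u hu w hw => h u (mem_insert_of_mem hu) w (mem_insert_of_mem hw), fun u hu => ?_⟩
    exact ⟨h u (mem_insert_of_mem hu) v (mem_insert_self _ _),
      h v (mem_insert_self _ _) u (mem_insert_of_mem hu)⟩
  · rintro ⟨h1, h2⟩ u hu w hw
    rcases mem_insert.mp hu with hu' | hu'
    · rcases mem_insert.mp hw with hw' | hw'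
      · rw [hu', hw']
        exact par_ne_self T _
      · rw [hu']
        exact (h2 w hw').2
    · rcases mem_insert.mp hw with hw' | hw'
      · rw [hw']
        exact (h2 u hu').1
      · exact h1 u hu' w hw'

/-- Splitting at a vertex. -/
lemma Z_split {K : Type*} [CommSemiring K] (T : RF V) (W : Finset V) (x : V → K) (v : V)
    (hv : v ∈ W) :
    T.Z W x = T.Z (W.erase v) x +
      x v * T.Z ((W.erase v).filter (fun u => T.par u ≠ some v ∧ T.par v ≠ some u)) x := by
  have hW : W = insert v (W.erase v) := (insert_erase hv).symm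
  conv_lhs => rw [hW]
  rw [Z_eq_ite, Finset.sum_powerset_insert (notMem_erase v W), ← Z_eq_ite]
  congr 1
  rw [Z_eq_ite, Finset.mul_sum]
  symm
  have hsub : ((W.erase v).filter (fun u => T.par u ≠ some v ∧ T.par v ≠ some u)).powerset ⊆
      (W.erase v).powerset := powerset_mono.mpr (filter_subset _ _)
  rw [← Finset.sum_subset hsub]
  · refine Finset.sum_congr rfl fun S hS => ?_
    have hS' := mem_powerset.mp hS
    have hvS : v ∉ S := fun h => notMem_erase v W (mem_of_mem_filter _ (hS' h))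
    have h1 : T.Ind (insert v S) ↔ T.Ind S := by
      rw [ind_insert]
      exact ⟨fun h => h.1, fun h => ⟨h, fun u hu => (mem_filter.mp (hS' hu)).2⟩⟩
    by_cases h : T.Ind S
    · rw [if_pos h, if_pos (h1.mpr h), prod_insert hvS]
    · rw [if_neg h, if_neg (fun h' => h (h1.mp h')), mul_zero]
  · intro S hS hS'
    rw [if_neg]
    intro hi
    rw [ind_insert] at hi
    apply hS'
    rw [mem_powerset]
    intro u hu
    rw [mem_filter]
    exact ⟨mem_powerset.mp hS hu, hi.2 u hu⟩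

lemma Z_isolated {K : Type*} [CommSemiring K] (T : RF V) (W : Finset V) (x : V → K) (c : V)
    (hc : c ∈ W) (h : ∀ u ∈ W, T.par u ≠ some c ∧ T.par c ≠ some u) :
    T.Z W x = (1 + x c) * T.Z (W.erase c) x := by
  rw [Z_split T W x c hc]
  have : (W.erase c).filter (fun u => T.par u ≠ some c ∧ T.par c ≠ some u) = W.erase c :=
    filter_true_of_mem fun u hu => h u (mem_of_mem_erase hu)
  rw [this, add_mul, one_mul]

lemma Z_isolated_set {K : Type*} [CommSemiring K] (T : RF V) (x : V → K) (D : Finset V) :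
    ∀ W : Finset V, D ⊆ W → (∀ c ∈ D, ∀ u ∈ W, T.par u ≠ some c ∧ T.par c ≠ some u) →
    T.Z W x = (∏ c ∈ D, (1 + x c)) * T.Z (W \ D) x := by
  induction D using Finset.induction_on with
  | empty => intro W _ _; simp
  | insert c D hc ih =>
    intro W hDW h
    rw [Z_isolated T W x c (hDW (mem_insert_self _ _)) (h c (mem_insert_self _ _)),
      ih (W.erase c) ?_ ?_, prod_insert hc, mul_assoc]
    · congr 3
      ext u
      simp only [mem_sdiff, mem_erase, mem_insert, not_or]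
      tauto
    · intro u hu
      exact mem_erase.mpr ⟨fun h' => hc (h' ▸ hu), hDW (mem_insert_of_mem hu)⟩
    · intro c' hc' u hu
      exact h c' (mem_insert_of_mem hc') u (mem_of_mem_erase hu)

lemma Z_empty {K : Type*} [CommSemiring K] (T : RF V) (x : V → K) : T.Z ∅ x = 1 := by
  rw [Z_eq_ite]
  simp [RF.Ind]

lemma Z_nonneg (T : RF V) (W : Finset V) (x : V → ℝ) (hx : ∀ v, 0 ≤ x v) : 0 ≤ T.Z W x :=
  Finset.sum_nonneg fun _ _ => Finset.prod_nonneg fun v _ => hx v

lemma Z_mono (T : RF V) {W W' : Finset V} (h : W ⊆ W') (x : V → ℝ) (hx : ∀ v, 0 ≤ x v) :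
    T.Z W x ≤ T.Z W' x := by
  unfold RF.Z
  refine Finset.sum_le_sum_of_subset_of_nonneg ?_ fun _ _ _ => Finset.prod_nonneg fun v _ => hx v
  exact filter_subset_filter _ (powerset_mono.mpr h)

/-- `|1 + l e^{it}| ≤ τ^100 (1+l)` -/
lemma norm_one_add (l : ℝ) (hl : 1 / 3 ≤ l) (hl' : l ≤ 5) (t : ℝ) :
    ‖1 + (l : ℂ) * Complex.exp (t * Complex.I)‖ ≤
      Real.exp (-((1 - Real.cos t) / 1000)) ^ 100 * (1 + l) := by
  have h0 : 0 ≤ 1 - Real.cos t := by linarith [Real.cos_le_one t]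
  have hl1 : 0 < 1 + l := by linarith
  have hexp : Real.exp (-((1 - Real.cos t) / 1000)) ^ 100 =
      Real.exp (-((1 - Real.cos t) / 10)) := by
    rw [← Real.exp_nat_mul]
    congr 1
    push_cast
    ring
  rw [hexp]
  have hsq : ‖1 + (l : ℂ) * Complex.exp (t * Complex.I)‖ ^ 2 =
      (1 + l) ^ 2 - 2 * l * (1 - Real.cos t) := by
    rw [Complex.sq_norm, Complex.normSq_apply]
    have hre : (1 + (l : ℂ) * Complex.exp (t * Complex.I)).re = 1 + l * Real.cos t := by
      simp [Complex.exp_ofReal_mul_I_re]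
    have him : (1 + (l : ℂ) * Complex.exp (t * Complex.I)).im = l * Real.sin t := by
      simp [Complex.exp_ofReal_mul_I_im]
    rw [hre, him]
    nlinarith [Real.sin_sq_add_cos_sq t]
  have h1 : (1 + l) ^ 2 - 2 * l * (1 - Real.cos t) ≤
      (Real.exp (-((1 - Real.cos t) / 10)) * (1 + l)) ^ 2 := by
    have h2 : Real.exp (-((1 - Real.cos t) / 10)) ^ 2 = Real.exp (-((1 - Real.cos t) / 5)) := by
      rw [← Real.exp_nat_mul]
      congr 1
      push_cast
      ring
    rw [mul_pow, h2]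
    have h3 : 1 - (1 - Real.cos t) / 5 ≤ Real.exp (-((1 - Real.cos t) / 5)) := by
      have := Real.add_one_le_exp (-((1 - Real.cos t) / 5))
      linarith
    have h4 : (1 + l) ^ 2 / 5 ≤ 2 * l := by nlinarith
    have h5 : (1 - (1 - Real.cos t) / 5) * (1 + l) ^ 2 ≤
        Real.exp (-((1 - Real.cos t) / 5)) * (1 + l) ^ 2 :=
      mul_le_mul_of_nonneg_right h3 (by positivity)
    nlinarith
  refine abs_le_of_sq_le_sq' ?_ (by positivity) |>.2
  rw [hsq]
  exact h1

/-- The elementary inequality. -/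
lemma key_ineq (τ l : ℝ) (hτ0 : 499 / 500 ≤ τ) (hτ1 : τ ≤ 1) (hl : 1 / 3 ≤ l) (hl' : l ≤ 5)
    (k : ℕ) (hk : 1 ≤ k) :
    l * (1 - τ ^ (k + 2)) ≤ (1 + l) ^ k * (τ ^ (k + 2) - τ ^ (100 * k + 1)) := by
  obtain ⟨m, rfl⟩ : ∃ m, k = m + 1 := ⟨k - 1, by omega⟩
  set d : ℝ := 1 - τ with hd
  have hd0 : 0 ≤ d := by linarith
  have hd1 : d ≤ 1 / 500 := by linarith
  have hτ : τ = 1 + (-d) := by rw [hd]; ring
  have hτpos : 0 < τ := by linarith
  set K : ℝ := (m : ℝ) + 1 with hK
  have hm0 : (0 : ℝ) ≤ m := Nat.cast_nonneg m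
  -- a = τ^(k+2)
  have ha : 1 - 3 * K * d ≤ τ ^ (m + 1 + 2) := by
    have h1 := one_add_mul_le_pow (a := -d) (by linarith) (m + 1 + 2)
    rw [← hτ] at h1
    push_cast at h1
    nlinarith
  -- b
  have hb : τ ^ (99 * m + 98) * (1 + 98 * K * d) ≤ 1 := by
    have h1 : 1 + ((99 * m + 98 : ℕ) : ℝ) * d ≤ (1 + d) ^ (99 * m + 98) :=
      one_add_mul_le_pow (a := d) (by linarith) (99 * m + 98)
    have h2 : τ * (1 + d) ≤ 1 := by nlinarith
    have h3 : τ ^ (99 * m + 98) * (1 + d) ^ (99 * m + 98) ≤ 1 := by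
      rw [← mul_pow]
      exact pow_le_one₀ (by positivity) h2
    have h4 : 1 + 98 * K * d ≤ 1 + ((99 * m + 98 : ℕ) : ℝ) * d := by
      push_cast
      nlinarith
    calc τ ^ (99 * m + 98) * (1 + 98 * K * d) ≤ τ ^ (99 * m + 98) * (1 + d) ^ (99 * m + 98) :=
          mul_le_mul_of_nonneg_left (h4.trans h1) (by positivity)
      _ ≤ 1 := h3
  have hsplit : τ ^ (100 * (m + 1) + 1) = τ ^ (m + 1 + 2) * τ ^ (99 * m + 98) := by
    rw [← pow_add]; congr 1; ring
  set a : ℝ := τ ^ (m + 1 + 2) with ha'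
  set b : ℝ := τ ^ (99 * m + 98) with hb'
  have hb1 : 98 * K * d ≤ (1 - b) * (1 + 49 / 250 * K) := by
    have hbn : 0 ≤ b := by positivity
    have hKd : 98 * K * d ≤ 49 / 250 * K := by nlinarith
    have hb2 : b ≤ 1 := pow_le_one₀ hτpos.le hτ1
    nlinarith
  -- (1+l)^k a
  have hA : (1 + l) * (994 / 1000) * (17 / 25 + 8 / 25 * K) ≤ (1 + l) ^ (m + 1) * a := by
    have h3 : (994 / 1000 : ℝ) ≤ τ ^ 3 := by
      have : (499 / 500 : ℝ) ^ 3 ≤ τ ^ 3 := pow_le_pow_left₀ (by norm_num) hτ0 3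
      norm_num at this ⊢
      linarith
    have h4 : τ ^ (3 * (m + 1)) ≤ a := pow_le_pow_of_le_one hτpos.le hτ1 (by omega)
    have h5 : ((1 + l) * (994 / 1000)) ^ (m + 1) ≤ (1 + l) ^ (m + 1) * a := by
      rw [mul_pow]
      refine mul_le_mul_of_nonneg_left ?_ (by positivity)
      refine le_trans ?_ h4
      rw [pow_mul]
      exact pow_le_pow_left₀ (by norm_num) h3 _
    have h6 : 1 + (m : ℝ) * (8 / 25) ≤ ((1 + l) * (994 / 1000)) ^ m := by
      have h7 : (1 + 8 / 25 : ℝ) ^ m ≤ ((1 + l) * (994 / 1000)) ^ m :=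
        pow_le_pow_left₀ (by norm_num) (by linarith) _
      exact (one_add_mul_le_pow (a := (8 / 25 : ℝ)) (by norm_num) m).trans h7
    calc (1 + l) * (994 / 1000) * (17 / 25 + 8 / 25 * K)
        = (1 + (m : ℝ) * (8 / 25)) * ((1 + l) * (994 / 1000)) := by rw [hK]; ring
      _ ≤ ((1 + l) * (994 / 1000)) ^ m * ((1 + l) * (994 / 1000)) :=
          mul_le_mul_of_nonneg_right h6 (by linarith)
      _ = ((1 + l) * (994 / 1000)) ^ (m + 1) := by rw [pow_succ]
      _ ≤ _ := h5
  rw [hsplit]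
  have hb2 : b ≤ 1 := pow_le_one₀ hτpos.le hτ1
  have hgoal : (1 + l) * (5 / 2) * K * d ≤ (1 + l) ^ (m + 1) * (a - a * b) := by
    have h8 : (1 + l) ^ (m + 1) * (a - a * b) = ((1 + l) ^ (m + 1) * a) * (1 - b) := by ring
    rw [h8]
    have h9 : (1 + l) * (994 / 1000) * (17 / 25 + 8 / 25 * K) * (1 - b) ≤
        ((1 + l) ^ (m + 1) * a) * (1 - b) := mul_le_mul_of_nonneg_right hA (by linarith)
    refine le_trans ?_ h9
    have h10 : 5 / 2 * K * d ≤ (994 / 1000) * (17 / 25 + 8 / 25 * K) * (1 - b) := by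
      have hq : 0 < 1 + 49 / 250 * K := by positivity
      have h11 : (1 - b) * (5 / 196 * (1 + 49 / 250 * K)) ≤
          (1 - b) * ((994 / 1000) * (17 / 25 + 8 / 25 * K)) := by
        refine mul_le_mul_of_nonneg_left ?_ (by linarith)
        nlinarith
      nlinarith
    have h12 : (1 + l) * (5 / 2 * K * d) ≤
        (1 + l) * ((994 / 1000) * (17 / 25 + 8 / 25 * K) * (1 - b)) :=
      mul_le_mul_of_nonneg_left h10 (by linarith)
    linarith
  have hL : l * (1 - a) ≤ (1 + l) * (5 / 2) * K * d := by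
    have h13 : l * (1 - a) ≤ l * (3 * K * d) := mul_le_mul_of_nonneg_left (by linarith) (by linarith)
    have h14 : 0 ≤ K * d := by positivity
    nlinarith
  exact hL.trans hgoal

/-- the induction step, numerically -/
lemma step_ineq (τ l z1 z2 : ℝ) (hτ0 : 499 / 500 ≤ τ) (hτ1 : τ ≤ 1) (hl : 1 / 3 ≤ l) (hl' : l ≤ 5)
    (k n1 n2 : ℕ) (hk : 1 ≤ k) (hn : n1 ≤ n2 + 1) (hz2 : 0 ≤ z2) (hz : z2 ≤ z1) :
    (τ ^ 100 * (1 + l)) ^ k * (τ ^ n1 * z1) + l * (τ ^ n2 * z2) ≤
      τ ^ (n1 + 1 + k) * ((1 + l) ^ k * z1 + l * z2) := by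
  have hτpos : 0 < τ := by linarith
  have hkey := key_ineq τ l hτ0 hτ1 hl hl' k hk
  have h1 : l * (1 - τ ^ (k + 2)) * z2 ≤ (1 + l) ^ k * (τ ^ (k + 2) - τ ^ (100 * k + 1)) * z1 := by
    have h2 : 0 ≤ l * (1 - τ ^ (k + 2)) :=
      mul_nonneg (by linarith) (by linarith [pow_le_one₀ hτpos.le hτ1 (n := k + 2)])
    calc l * (1 - τ ^ (k + 2)) * z2 ≤ l * (1 - τ ^ (k + 2)) * z1 :=
          mul_le_mul_of_nonneg_left hz h2
      _ ≤ _ := mul_le_mul_of_nonneg_right hkey (hz2.trans hz)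
  have h3 : τ ^ (n2 + 1) ≤ τ ^ n1 := pow_le_pow_of_le_one hτpos.le hτ1 hn
  have h4 : l * (τ ^ (n2 + 1) * z2) ≤ l * (τ ^ n1 * z2) :=
    mul_le_mul_of_nonneg_left (mul_le_mul_of_nonneg_right h3 hz2) (by linarith)
  refine le_of_mul_le_mul_left ?_ hτpos
  have e1 : τ * ((τ ^ 100 * (1 + l)) ^ k * (τ ^ n1 * z1) + l * (τ ^ n2 * z2)) =
      τ ^ n1 * ((1 + l) ^ k * τ ^ (100 * k + 1) * z1) + l * (τ ^ (n2 + 1) * z2) := by
    rw [mul_pow, ← pow_mul, pow_succ τ n2, pow_succ τ (100 * k)]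
    ring
  have e2 : τ * (τ ^ (n1 + 1 + k) * ((1 + l) ^ k * z1 + l * z2)) =
      τ ^ n1 * (τ ^ (k + 2) * ((1 + l) ^ k * z1 + l * z2)) := by
    have : τ * τ ^ (n1 + 1 + k) = τ ^ n1 * τ ^ (k + 2) := by
      rw [← pow_succ', ← pow_add]; congr 1; ring
    rw [← mul_assoc, this, mul_assoc]
  rw [e1, e2]
  have h5 : τ ^ n1 * ((1 + l) ^ k * τ ^ (100 * k + 1) * z1 + l * z2) ≤
      τ ^ n1 * (τ ^ (k + 2) * ((1 + l) ^ k * z1 + l * z2)) := by
    refine mul_le_mul_of_nonneg_left ?_ (by positivity)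
    nlinarith
  nlinarith

theorem main (T : RF V) (l : ℝ) (hl : 1 / 3 ≤ l) (hl' : l ≤ 5) (t : ℝ) :
    ∀ n : ℕ, ∀ W : Finset V, W.card = n →
    ‖T.Z W (fun _ => (l : ℂ) * Complex.exp (t * Complex.I))‖ ≤
      Real.exp (-((1 - Real.cos t) / 1000)) ^ W.card * T.Z W (fun _ => l) := by
  intro n
  induction n using Nat.strong_induction_on with
  | _ n ih =>
  intro W hWn
  set τ : ℝ := Real.exp (-((1 - Real.cos t) / 1000)) with hτ
  set x : ℂ := (l : ℂ) * Complex.exp (t * Complex.I) with hx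
  have h0 : 0 ≤ 1 - Real.cos t := by linarith [Real.cos_le_one t]
  have h2 : 1 - Real.cos t ≤ 2 := by linarith [Real.neg_one_le_cos t]
  have hτ1 : τ ≤ 1 := by
    rw [hτ]
    exact Real.exp_le_one_iff.mpr (by linarith)
  have hτ0 : 499 / 500 ≤ τ := by
    have := Real.add_one_le_exp (-((1 - Real.cos t) / 1000))
    rw [← hτ] at this
    linarith
  have hτpos : 0 < τ := by linarith
  have hnorm : ‖1 + x‖ ≤ τ ^ 100 * (1 + l) := norm_one_add l hl hl' t
  have hxn : ‖x‖ = l := by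
    rw [hx, norm_mul, Complex.norm_exp_ofReal_mul_I, mul_one, Complex.norm_real,
      Real.norm_of_nonneg (by linarith)]
  have hlnn : ∀ _ : V, 0 ≤ l := fun _ => by linarith
  by_cases hcase : ∀ v ∈ W, ∀ c ∈ W, T.par c ≠ some v
  · have e1 : ∀ {K : Type} [CommSemiring K] (y : K), T.Z W (fun _ => y) = (1 + y) ^ W.card := by
      intro K _ y
      rw [Z_isolated_set T (fun _ => y) W W (Subset.refl _) ?_, sdiff_self, bot_eq_empty, Z_empty, mul_one,
        prod_const]
      intro c hc u hu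
      exact ⟨hcase c hc u hu, hcase u hu c hc⟩
    rw [e1, e1, norm_pow, ← mul_pow]
    refine pow_le_pow_left₀ (norm_nonneg _) (hnorm.trans ?_) _
    refine mul_le_mul_of_nonneg_right ?_ (by linarith)
    calc τ ^ 100 ≤ τ ^ 1 := pow_le_pow_of_le_one hτpos.le hτ1 (by norm_num)
      _ = τ := pow_one τ
  · push Not at hcase
    obtain ⟨v0, hv0, c0, hc0, hpc0⟩ := hcase
    -- vertex of maximal rank with a child in W
    obtain ⟨v, hvB, hvmax⟩ := Finset.exists_max_image
      (W.filter (fun v => ∃ c ∈ W, T.par c = some v)) T.rk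
      ⟨v0, mem_filter.mpr ⟨hv0, c0, hc0, hpc0⟩⟩
    rw [mem_filter] at hvB
    obtain ⟨hvW, c1, hc1, hpc1⟩ := hvB
    set D : Finset V := W.filter (fun c => T.par c = some v) with hD
    have hDne : 1 ≤ D.card := card_pos.mpr ⟨c1, mem_filter.mpr ⟨hc1, hpc1⟩⟩
    have hDleaf : ∀ c ∈ D, ∀ u ∈ W, T.par u ≠ some c := by
      intro c hc u hu hpu
      have hc' := mem_filter.mp hc
      have h3 := hvmax c (mem_filter.mpr ⟨hc'.1, u, hu, hpu⟩)
      have h4 := T.lt c v hc'.2
      omega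
    have hDsub : D ⊆ W.erase v := by
      intro c hc
      have hc' := mem_filter.mp hc
      refine mem_erase.mpr ⟨?_, hc'.1⟩
      rintro rfl
      exact par_ne_self T _ hc'.2
    set W1 : Finset V := W.erase v \ D with hW1
    set W2 : Finset V := W1.filter (fun u => T.par v ≠ some u) with hW2
    have hW2' : (W.erase v).filter (fun u => T.par u ≠ some v ∧ T.par v ≠ some u) = W2 := by
      ext u
      simp only [hW2, hW1, hD, mem_filter, mem_sdiff, mem_erase]
      tauto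
    have hcard1 : W1.card + 1 + D.card = W.card := by
      rw [hW1, card_sdiff_of_subset hDsub, card_erase_of_mem hvW]
      have h5 := card_le_card hDsub
      rw [card_erase_of_mem hvW] at h5
      have h6 : 0 < W.card := card_pos.mpr ⟨v, hvW⟩
      omega
    have hcard2 : W1.card ≤ W2.card + 1 := by
      have h7 : W1.card = W2.card + (W1.filter (fun u => ¬ T.par v ≠ some u)).card := by
        rw [hW2, card_filter_add_card_filter_not]
      have h8 : (W1.filter (fun u => ¬ T.par v ≠ some u)).card ≤ 1 := by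
        rw [card_le_one]
        intro a ha b hb
        have ha' := (mem_filter.mp ha).2
        have hb' := (mem_filter.mp hb).2
        rw [not_not] at ha' hb'
        rw [ha'] at hb'
        exact Option.some_injective _ hb'
      omega
    have hsplit : ∀ {K : Type} [CommSemiring K] (y : K), T.Z W (fun _ => y) =
        (1 + y) ^ D.card * T.Z W1 (fun _ => y) + y * T.Z W2 (fun _ => y) := by
      intro K _ y
      rw [Z_split T W (fun _ => y) v hvW, hW2', Z_isolated_set T (fun _ => y) D (W.erase v) hDsub ?_,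
        prod_const]
      intro c hc u hu
      refine ⟨hDleaf c hc u (mem_of_mem_erase hu), ?_⟩
      intro h9
      have hc' := (mem_filter.mp hc).2
      rw [hc'] at h9
      exact (mem_erase.mp hu).1 (Option.some_injective _ h9).symm
    have ih1 := ih W1.card (by omega) W1 rfl
    have hW2le : W2.card ≤ W1.card := card_le_card (filter_subset _ _)
    have ih2 := ih W2.card (by omega) W2 rfl
    rw [hsplit, hsplit (l : ℝ)]
    have hz2 : 0 ≤ T.Z W2 (fun _ => l) := Z_nonneg T W2 _ hlnn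
    have hz : T.Z W2 (fun _ => l) ≤ T.Z W1 (fun _ => l) :=
      Z_mono T (filter_subset _ _) _ hlnn
    have hstep := step_ineq τ l (T.Z W1 (fun _ => l)) (T.Z W2 (fun _ => l)) hτ0 hτ1 hl hl'
      D.card W1.card W2.card hDne hcard2 hz2 hz
    rw [← hcard1]
    refine le_trans ?_ hstep
    refine (norm_add_le _ _).trans ?_
    rw [norm_mul, norm_mul, norm_pow, hxn]
    refine add_le_add ?_ (mul_le_mul_of_nonneg_left ih2 (by linarith))
    exact mul_le_mul (pow_le_pow_left₀ (norm_nonneg _) hnorm _) ih1 (norm_nonneg _) (by positivity)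

end TailAux

theorem tail_bound (T : RF V) (W : Finset V) (l : ℝ) (hl : 1 / 3 ≤ l) (hl' : l ≤ 5) (t : ℝ) :
    ‖T.Z W (fun _ => (l : ℂ) * Complex.exp (t * Complex.I))‖ ≤
      Real.exp (-(W.card * (1 - Real.cos t) / 1000)) * T.Z W (fun _ => l) := by
  have h := TailAux.main T l hl hl' t W.card W rfl
  rw [← Real.exp_nat_mul] at h
  have e : (W.card : ℝ) * -((1 - Real.cos t) / 1000) = -(W.card * (1 - Real.cos t) / 1000) := by
    ring
  rw [e] at h
  exact h

end Pool.Agent.Hhelper46.Forest
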