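import Pool.Agent.Hhelper46.Forest.Local
import Pool.Agent.Hhelper46.Forest.Comb
import Pool.Agent.Hhelper46.Forest.Mean
import Pool.Agent.Hhelper46.Forest.Tail
import Pool.Agent.Hhelper46.Forest.Fourier

/-!
# Log-concavity in the bulk for large forests
-/

set_option linter.unusedSectionVars false

namespace Pool.Agent.Hhelper46.Forest

open Finset

/-- The Fourier step for the threshold `N`. -/
def FourierN (N : ℕ) : Prop := ∀ n ≥ N, ∀ (p : ℕ → ℝ) (k : ℕ), (∀ j, 0 ≤ p j) → (∀ j, n < j → p j = 0) →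
    ∑ j ∈ range (n + 1), p j = 1 → ∑ j ∈ range (n + 1), (j : ℝ) * p j = k → 1 ≤ k →
    (∀ t : ℝ, ‖∑ j ∈ range (n + 1), (p j : ℂ) * Complex.exp (j * t * Complex.I)‖ ≤
      Real.exp (-(n * (1 - Real.cos t) / 1000))) →
    (∃ F F1 F2 : ℂ → ℂ, ∀ θ ∈ Metric.ball (0 : ℂ) ((n : ℝ) ^ (-(19 / 40) : ℝ) / 10 ^ 6),
      HasDerivAt F (F1 θ) θ ∧ HasDerivAt F1 (F2 θ) θ ∧ ‖F2 θ‖ ≤ 6000 * n ∧
      Complex.exp (F θ) = ∑ j ∈ range (n + 1), (p j : ℂ) * Complex.exp (j * θ * Complex.I)) →
    p (k - 1) + p (k + 1) ≤ 2 * p k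

variable {V : Type*} [Fintype V] [DecidableEq V]

lemma cnt_eq_zero (T : RF V) (j : ℕ) (hj : Fintype.card V < j) : T.cnt j = 0 := by
  unfold RF.cnt
  rw [Finset.card_eq_zero, Finset.filter_eq_empty_iff]
  intro S _ h
  have := Finset.card_le_univ S
  omega

lemma cnt_zero (T : RF V) : T.cnt 0 = 1 := by
  unfold RF.cnt
  rw [Finset.card_eq_one]
  refine ⟨∅, ?_⟩
  ext S
  simp only [Finset.mem_filter, Finset.mem_univ, true_and, Finset.mem_singleton, Finset.card_eq_zero]
  constructor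
  · exact fun h => h.2
  · rintro rfl
    refine ⟨?_, rfl⟩
    intro u hu
    simp at hu

/-- Log-concavity in the bulk. -/
theorem bulk {N : ℕ} (hN : FourierN N) (T : RF V) (hV1 : 1 ≤ Fintype.card V) (hV : N ≤ Fintype.card V)
    (α : ℕ) (hα : ∃ S, T.Ind S ∧ S.card = α) (k : ℕ) (hk1 : Fintype.card V ≤ 4 * k) (hk2 : 3 * k ≤ 2 * α) :
    T.cnt (k - 1) * T.cnt (k + 1) ≤ T.cnt k ^ 2 := by
  classical
  set n := Fintype.card V with hn
  have hk : 1 ≤ k := by omega
  set Zr : ℝ → ℝ := fun l => ∑ j ∈ range (n + 1), (T.cnt j : ℝ) * l ^ j with hZr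
  set Mr : ℝ → ℝ := fun l => ∑ j ∈ range (n + 1), (j : ℝ) * (T.cnt j * l ^ j) with hMr
  have hZpos : ∀ l : ℝ, 0 < l → 0 < Zr l := by
    intro l hl
    simp only [hZr]
    have h0 : (T.cnt 0 : ℝ) * l ^ 0 ≤ ∑ j ∈ range (n + 1), (T.cnt j : ℝ) * l ^ j :=
      Finset.single_le_sum (f := fun j => (T.cnt j : ℝ) * l ^ j) (fun j _ => by positivity)
        (Finset.mem_range.mpr (by omega))
    rw [cnt_zero] at h0
    simp only [Nat.cast_one, pow_zero, mul_one] at h0
    linarith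
  -- the fugacity
  have hlow : Mr (1 / 3) - k * Zr (1 / 3) ≤ 0 := by
    have h1 := mean_le T (1 / 3) (by norm_num)
    have h2 := hZpos (1 / 3) (by norm_num)
    have h3 : (n : ℝ) ≤ 4 * k := by exact_mod_cast hk1
    have h4 : (n : ℝ) * (1 / 3 / (1 + 1 / 3)) ≤ k := by
      have : (1 / 3 / (1 + 1 / 3) : ℝ) = 1 / 4 := by norm_num
      rw [this]; linarith
    have h5 := mul_le_mul_of_nonneg_right h4 h2.le
    simp only [hMr, hZr] at *
    linarith
  have hhigh : 0 ≤ Mr 5 - k * Zr 5 := by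
    obtain ⟨R, hR⟩ := T.exists_rec (α := ℝ) (fun v f => 5 * ∏ c ∈ T.ch v, (1 + f c)⁻¹) (by
      intro v f g hfg
      congr 1
      exact Finset.prod_congr rfl (fun c hc => by rw [hfg c hc]))
    obtain ⟨y, hy⟩ := T.exists_rec (α := ℝ) (fun v f => R v / (1 + R v) * (1 - ∑ c ∈ T.ch v, f c)) (by
      intro v f g hfg
      congr 2
      exact Finset.sum_congr rfl (fun c hc => hfg c hc))
    obtain ⟨e, he⟩ := T.exists_rec (α := ℕ) (fun v f => if (∑ c ∈ T.ch v, f c) = 0 then 1 else 0) (by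
      intro v f g hfg
      rw [Finset.sum_congr rfl (fun c hc => hfg c hc)])
    have h1 := mean_eq T 5 (by norm_num) R y hR hy
    have h2 := mean_lower T R y e hR hy he
    obtain ⟨S, hS, hSα⟩ := hα
    have h3 := card_le_of_ind T e he S hS
    rw [hSα] at h3
    have h4 : (α : ℝ) ≤ ∑ v, (e v : ℝ) := by exact_mod_cast h3
    have h5 : (3 : ℝ) * k ≤ 2 * α := by exact_mod_cast hk2
    have h6 := hZpos 5 (by norm_num)
    have h7 : (k : ℝ) ≤ ∑ v, y v := by linarith
    have h8 := mul_le_mul_of_nonneg_right h7 h6.le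
    simp only [hMr, hZr] at *
    linarith
  have hcont : Continuous (fun l => Mr l - k * Zr l) := by
    simp only [hMr, hZr]
    fun_prop
  obtain ⟨l, hl, hl0⟩ : ∃ l ∈ Set.Icc (1 / 3 : ℝ) 5, Mr l - k * Zr l = 0 := by
    have := intermediate_value_Icc (by norm_num : (1 / 3 : ℝ) ≤ 5) hcont.continuousOn
    exact this ⟨hlow, hhigh⟩
  have hlpos : 0 < l := by linarith [hl.1]
  have hZ := hZpos l hlpos
  -- the probabilities
  set p : ℕ → ℝ := fun j => (T.cnt j : ℝ) * l ^ j / Zr l with hp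
  have hzc : (T.Z univ (fun _ => l) : ℝ) = Zr l := Z_const T l
  have key : p (k - 1) + p (k + 1) ≤ 2 * p k := by
    apply hN n hV p k
    · intro j
      simp only [hp]
      positivity
    · intro j hj
      simp only [hp]
      rw [cnt_eq_zero T j hj]
      simp
    · simp only [hp]
      rw [← Finset.sum_div, div_eq_one_iff_eq hZ.ne']
    · have : ∑ j ∈ range (n + 1), (j : ℝ) * p j = Mr l / Zr l := by
        simp only [hp, hMr]
        rw [Finset.sum_div]
        apply Finset.sum_congr rfl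
        intro j _
        ring
      rw [this, div_eq_iff hZ.ne']
      linarith
    · exact hk
    · intro t
      have h1 := tail_bound T univ l hl.1 hl.2 t
      rw [hzc, Finset.card_univ] at h1
      have h2 : ∑ j ∈ range (n + 1), (p j : ℂ) * Complex.exp (j * t * Complex.I) =
          T.Z univ (fun _ => (l : ℂ) * Complex.exp (t * Complex.I)) / (Zr l : ℂ) := by
        rw [Z_const, Finset.sum_div]
        apply Finset.sum_congr rfl
        intro j _
        simp only [hp]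
        rw [mul_pow, ← Complex.exp_nat_mul]
        push_cast
        ring_nf
      rw [h2, norm_div, Complex.norm_real, Real.norm_of_nonneg hZ.le, div_le_iff₀ hZ]
      exact h1
    · obtain ⟨F, F1, F2, hF⟩ := local_log T (by omega) l hl.1 hl.2
      refine ⟨F, F1, F2, ?_⟩
      intro θ hθ
      obtain ⟨h1, h2, h3, h4⟩ := hF θ hθ
      refine ⟨h1, h2, h3, ?_⟩
      have h5 : ∑ j ∈ range (n + 1), (p j : ℂ) * Complex.exp (j * θ * Complex.I) =
          T.Z univ (fun _ => (l : ℂ) * Complex.exp (θ * Complex.I)) / (Zr l : ℂ) := by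
        rw [Z_const, Finset.sum_div]
        apply Finset.sum_congr rfl
        intro j _
        simp only [hp]
        rw [mul_pow, ← Complex.exp_nat_mul]
        push_cast
        ring_nf
      rw [h5, ← h4, hzc]
      have : (Zr l : ℂ) ≠ 0 := by exact_mod_cast hZ.ne'
      field_simp
  -- back to the counts
  have h1 : 0 ≤ p (k - 1) := by simp only [hp]; positivity
  have h2 : 0 ≤ p (k + 1) := by simp only [hp]; positivity
  have h3 : p (k - 1) * p (k + 1) ≤ p k ^ 2 := by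
    nlinarith [sq_nonneg (p (k - 1) - p (k + 1))]
  simp only [hp] at h3
  have h4 : (T.cnt (k - 1) : ℝ) * l ^ (k - 1) / Zr l * ((T.cnt (k + 1) : ℝ) * l ^ (k + 1) / Zr l) =
      ((T.cnt (k - 1) : ℝ) * T.cnt (k + 1)) * (l ^ (2 * k) / Zr l ^ 2) := by
    obtain ⟨j, rfl⟩ : ∃ j, k = j + 1 := ⟨k - 1, by omega⟩
    simp only [Nat.add_sub_cancel]
    field_simp
    ring
  have h5 : ((T.cnt k : ℝ) * l ^ k / Zr l) ^ 2 = (T.cnt k : ℝ) ^ 2 * (l ^ (2 * k) / Zr l ^ 2) := by
    field_simp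
    ring
  rw [h4, h5] at h3
  have h6 : (T.cnt (k - 1) : ℝ) * T.cnt (k + 1) ≤ (T.cnt k : ℝ) ^ 2 :=
    le_of_mul_le_mul_right h3 (by positivity)
  exact_mod_cast h6

end Pool.Agent.Hhelper46.Forest
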