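import Pool.Agent.Hhelper46.Forest.Basic

set_option linter.unusedSectionVars false

/-!
# Every finite acyclic graph is a rooted forest
-/

namespace Pool.Agent.Hhelper46.Forest

open Finset

namespace GraphAux

variable {V : Type*} {G : SimpleGraph V}

/-- A parent function with a rank, such that every edge joins a vertex to its parent. -/
lemma exists_parent_rank (hG : G.IsAcyclic) : ∃ (p : V → Option V) (rk : V → ℕ),
    (∀ u v, p u = some v → G.Adj u v) ∧ (∀ u v, G.Adj u v → p u = some v ∨ p v = some u) ∧
    (∀ u v, p u = some v → rk v < rk u) := by
  classical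
  -- a root in every component
  have hroot : ∀ v : V, G.Reachable v (G.connectedComponentMk v).out := by
    intro v
    have : G.connectedComponentMk ((G.connectedComponentMk v).out) = G.connectedComponentMk v :=
      Quot.out_eq _
    exact (SimpleGraph.ConnectedComponent.eq.mp this).symm
  -- the path to the root
  have hpath : ∀ v : V, ∃ q : G.Walk v (G.connectedComponentMk v).out, q.IsPath := by
    intro v
    obtain ⟨w⟩ := hroot v
    exact ⟨w.toPath, w.toPath.2⟩
  choose q hq using hpath
  have hsame : ∀ u v : V, G.Adj u v → (G.connectedComponentMk u).out = (G.connectedComponentMk v).out := by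
    intro u v h
    rw [SimpleGraph.ConnectedComponent.eq.mpr h.reachable]
  have huniq : ∀ (u r : V) (a b : G.Walk u r), a.IsPath → b.IsPath → a = b := by
    intro u r a b ha hb
    have := (hG.subsingleton_path u r).elim ⟨a, ha⟩ ⟨b, hb⟩
    exact congrArg Subtype.val this
  refine ⟨fun v => if v = (G.connectedComponentMk v).out then none else some (q v).snd,
    fun v => (q v).length, ?_, ?_, ?_⟩
  · intro u v h
    dsimp only at h
    by_cases hu : u = (G.connectedComponentMk u).out
    · rw [if_pos hu] at h
      cases h
    · rw [if_neg hu] at h
      have h' : (q u).snd = v := Option.some.inj h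
      rw [← h']
      apply SimpleGraph.Walk.adj_snd
      exact SimpleGraph.Walk.not_nil_of_ne hu
  · intro u v h
    have key : ∀ (a b r : V) (hab : G.Adj a b) (qa : G.Walk a r) (qb : G.Walk b r), qa.IsPath → qb.IsPath →
        (a ≠ r ∧ qa.snd = b) ∨ (b ≠ r ∧ qb.snd = a) := by
      intro a b r hab qa qb ha hb
      by_cases hmem : a ∈ qb.support
      · right
        have h1 : b ≠ r := by
          rintro rfl
          have hnil : qb = SimpleGraph.Walk.nil := huniq _ _ _ _ hb SimpleGraph.Walk.IsPath.nil
          rw [hnil] at hmem
          simp at hmem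
          exact hab.ne hmem
        refine ⟨h1, ?_⟩
        exact (hG.eq_snd_of_adj_start hb hab.symm hmem).symm
      · left
        have hc : (SimpleGraph.Walk.cons hab qb).IsPath := by
          rw [SimpleGraph.Walk.cons_isPath_iff]
          exact ⟨hb, hmem⟩
        have he : qa = SimpleGraph.Walk.cons hab qb := huniq _ _ _ _ ha hc
        refine ⟨?_, ?_⟩
        · rintro rfl
          exact hmem qb.end_mem_support
        · rw [he, SimpleGraph.Walk.snd_cons]
    have hs := hsame u v h
    dsimp only
    rcases key u v (G.connectedComponentMk u).out h (q u) ((q v).copy rfl hs.symm) (hq u)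
      (by simpa using hq v) with ⟨h1, h2⟩ | ⟨h1, h2⟩
    · left
      rw [if_neg h1, h2]
    · right
      rw [hs] at h1
      rw [if_neg h1]
      congr 1
      rw [← h2]
      have : ∀ (a b : V) (hab : a = b) (w : G.Walk v a), (w.copy rfl hab).snd = w.snd := by
        intro a b hab w
        subst hab
        rfl
      exact (this _ _ hs.symm (q v)).symm
  · intro u v h1
    have hlen : ∀ (a b r : V) (qa : G.Walk a r) (qb : G.Walk b r), qa.IsPath → qb.IsPath → a ≠ r →
        qa.snd = b → qa.length = qb.length + 1 := by
      intro a b r qa qb ha hb har hs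
      subst hs
      have : qb = qa.tail := huniq _ _ _ _ hb ha.tail
      rw [this, SimpleGraph.Walk.length_tail_add_one (SimpleGraph.Walk.not_nil_of_ne har)]
    have hgo : ∀ a b : V, (if a = (G.connectedComponentMk a).out then none else some (q a).snd) = some b →
        G.Adj a b ∧ (q a).length = (q b).length + 1 := by
      intro a b hab
      by_cases ha : a = (G.connectedComponentMk a).out
      · rw [if_pos ha] at hab
        cases hab
      · rw [if_neg ha] at hab
        have hab' : (q a).snd = b := Option.some.inj hab
        have hadj : G.Adj a b := by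
          rw [← hab']
          exact SimpleGraph.Walk.adj_snd (SimpleGraph.Walk.not_nil_of_ne ha)
        refine ⟨hadj, ?_⟩
        have hs := hsame a b hadj
        have := hlen a b _ (q a) ((q b).copy rfl hs.symm) (hq a) (by simpa using hq b) ha hab'
        simpa using this
    have e1 := (hgo u v h1).2
    show (q v).length < (q u).length
    omega

end GraphAux

variable {V : Type*} [Fintype V] [DecidableEq V]

/-- A7. Every finite acyclic graph is a rooted forest. -/
theorem exists_RF (G : SimpleGraph V) (hG : G.IsAcyclic) :
    ∃ T : RF V, ∀ S : Finset V, G.IsIndepSet (S : Set V) ↔ T.Ind S := by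
  obtain ⟨p, rk, h1, h2, h3⟩ := GraphAux.exists_parent_rank hG
  refine ⟨⟨p, rk, h3⟩, ?_⟩
  intro S
  constructor
  · intro hS u hu v hv huv
    have hadj : G.Adj u v := h1 u v huv
    exact hS hu hv hadj.ne hadj
  · intro hS u hu v hv _ hadj
    rcases h2 u v hadj with h | h
    · exact hS u hu v hv h
    · exact hS v hv u hu h

end Pool.Agent.Hhelper46.Forest
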