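import Pool.Agent.Hhelper46.Forest.Basic

set_option linter.unusedSectionVars false

/-!
# The Levit-Mandrescu ratio bound for rooted forests
-/

namespace Pool.Agent.Hhelper46.Forest

open Finset

variable {V : Type*} [Fintype V] [DecidableEq V]

namespace RatioAux

/-- A proper 2-colouring of a rooted forest. -/
lemma exists_col (T : RF V) : ∃ col : V → Bool, ∀ u v, T.par u = some v → col u = !col v := by
  classical
  have hwf : WellFounded (fun p v => T.par v = some p) := by
    apply Subrelation.wf (r := InvImage (· < ·) T.rk)
    · intro p v h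
      exact T.lt v p h
    · exact InvImage.wf _ Nat.lt_wfRel.wf
  let F : (v : V) → ((p : V) → T.par v = some p → Bool) → Bool := fun v rec =>
    if h : ∃ p, T.par v = some p then !(rec h.choose h.choose_spec) else true
  refine ⟨hwf.fix F, ?_⟩
  intro u v h
  rw [WellFounded.fix_eq]
  have hex : ∃ p, T.par u = some p := ⟨v, h⟩
  have hc : hex.choose = v := Option.some.inj (hex.choose_spec.symm.trans h)
  show (if h : ∃ p, T.par u = some p then !(hwf.fix F h.choose) else true) = _
  rw [dif_pos hex, hc]

/-- The independent sets with `k` vertices. -/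
def IS (T : RF V) (k : ℕ) : Finset (Finset V) :=
  (univ : Finset (Finset V)).filter (fun S => T.Ind S ∧ S.card = k)

lemma mem_IS (T : RF V) (k : ℕ) (S : Finset V) : S ∈ IS T k ↔ T.Ind S ∧ S.card = k := by
  simp [IS]

/-- The vertices by which an independent set can be extended. -/
def free (T : RF V) (S : Finset V) : Finset V := univ.filter (fun v => v ∉ S ∧ T.Ind (insert v S))

lemma mem_free (T : RF V) (S : Finset V) (v : V) : v ∈ free T S ↔ v ∉ S ∧ T.Ind (insert v S) := by
  simp [free]

lemma ind_mono (T : RF V) {S S' : Finset V} (h : S ⊆ S') (hS' : T.Ind S') : T.Ind S :=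
  fun u hu v hv => hS' u (h hu) v (h hv)

/-- Double counting of the pairs (independent set, extending vertex). -/
lemma ext_count (T : RF V) (k : ℕ) :
    ∑ S ∈ IS T k, (free T S).card = (k + 1) * (IS T (k + 1)).card := by
  have h1 : ∑ v : V, ((IS T (k + 1)).filter (fun S => v ∈ S)).card = (k + 1) * (IS T (k + 1)).card := by
    simp_rw [Finset.card_filter]
    rw [Finset.sum_comm]
    have : ∀ S ∈ IS T (k + 1), ∑ v, (if v ∈ S then 1 else 0) = k + 1 := by
      intro S hS
      rw [← Finset.card_filter, Finset.filter_mem_eq_inter, Finset.univ_inter]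
      exact ((mem_IS T _ _).mp hS).2
    rw [Finset.sum_congr rfl this, Finset.sum_const, smul_eq_mul, mul_comm]
  rw [← h1]
  unfold free
  simp_rw [Finset.card_filter]
  rw [Finset.sum_comm]
  apply Finset.sum_congr rfl
  intro v _
  rw [← Finset.card_filter, ← Finset.card_filter]
  apply Finset.card_bij' (fun s _ => insert v s) (fun s _ => s.erase v)
  rotate_left 2
  · intro s hs
    rw [Finset.mem_filter, mem_IS] at hs
    rw [Finset.mem_filter, mem_IS]
    refine ⟨⟨hs.2.2, ?_⟩, Finset.mem_insert_self _ _⟩
    rw [Finset.card_insert_of_notMem hs.2.1, hs.1.2]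
  · intro s hs
    rw [Finset.mem_filter, mem_IS] at hs
    rw [Finset.mem_filter, mem_IS]
    refine ⟨⟨ind_mono T (Finset.erase_subset _ _) hs.1.1, ?_⟩, Finset.notMem_erase _ _, ?_⟩
    · rw [Finset.card_erase_of_mem hs.2, hs.1.2]
      rfl
    · rw [Finset.insert_erase hs.2]
      exact hs.1.1
  · intro s hs
    rw [Finset.mem_filter] at hs
    exact Finset.erase_insert hs.2.1
  · intro s hs
    rw [Finset.mem_filter] at hs
    exact Finset.insert_erase hs.2

/-- Extending by all the free vertices of one colour keeps the set independent. -/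
lemma ind_union (T : RF V) (col : V → Bool) (hcol : ∀ u v, T.par u = some v → col u = !col v)
    (S : Finset V) (hS : T.Ind S) (b : Bool) :
    T.Ind (S ∪ (free T S).filter (fun v => col v = b)) := by
  intro u hu v hv huv
  rw [Finset.mem_union, Finset.mem_filter, mem_free] at hu hv
  rcases hu with hu | hu
  · rcases hv with hv | hv
    · exact hS u hu v hv huv
    · exact hv.1.2 u (Finset.mem_insert_of_mem hu) v (Finset.mem_insert_self _ _) huv
  · rcases hv with hv | hv
    · exact hu.1.2 u (Finset.mem_insert_self _ _) v (Finset.mem_insert_of_mem hv) huv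
    · have := hcol u v huv
      rw [hu.2, hv.2] at this
      cases b <;> simp at this

lemma card_free_le (T : RF V) (α : ℕ) (hα : ∀ S, T.Ind S → S.card ≤ α) (S : Finset V) (hS : T.Ind S) :
    (free T S).card ≤ 2 * (α - S.card) := by
  obtain ⟨col, hcol⟩ := exists_col T
  have hb : ∀ b : Bool, ((free T S).filter (fun v => col v = b)).card ≤ α - S.card := by
    intro b
    have h1 := hα _ (ind_union T col hcol S hS b)
    rw [Finset.card_union_of_disjoint] at h1
    · omega
    · rw [Finset.disjoint_left]
      intro v hv hv'
      rw [Finset.mem_filter, mem_free] at hv'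
      exact hv'.1.1 hv
  have h2 : (free T S).card = ((free T S).filter (fun v => col v = true)).card +
      ((free T S).filter (fun v => ¬ (col v = true))).card :=
    (Finset.card_filter_add_card_filter_not (s := free T S) (p := fun v => col v = true)).symm
  have h3 : (free T S).filter (fun v => ¬ (col v = true)) = (free T S).filter (fun v => col v = false) := by
    apply Finset.filter_congr
    intro v _
    simp
  rw [h3] at h2
  have := hb true
  have := hb false
  omega

end RatioAux

open RatioAux in
/-- A5. Levit-Mandrescu: upper bound for the ratio. -/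
theorem cnt_succ_le (T : RF V) (α : ℕ) (hα : ∀ S, T.Ind S → S.card ≤ α) (k : ℕ) :
    (k + 1) * T.cnt (k + 1) ≤ 2 * (α - k) * T.cnt k := by
  have h1 : T.cnt (k + 1) = (IS T (k + 1)).card := rfl
  have h2 : T.cnt k = (IS T k).card := rfl
  rw [h1, h2, ← ext_count]
  calc ∑ S ∈ IS T k, (free T S).card ≤ ∑ _S ∈ IS T k, 2 * (α - k) := by
        apply Finset.sum_le_sum
        intro S hS
        rw [mem_IS] at hS
        have := card_free_le T α hα S hS.1
        rwa [hS.2] at this
    _ = 2 * (α - k) * (IS T k).card := by
        rw [Finset.sum_const, smul_eq_mul, mul_comm]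

end Pool.Agent.Hhelper46.Forest
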