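import Pool.Agent.Hhelper46.Forest.Bulk
import Pool.Agent.Hhelper46.Forest.Ratio
import Pool.Agent.Hhelper46.Forest.Graph
import Pool.Agent.Hhelper46.Forest.Quarter
import Pool.Prelude.Def_F_f5f3026a

/-!
# Large forests are unimodal: assembly
-/

namespace Pool.Agent.Hhelper46.Forest

open Finset N36365310

/-- The assembly for a threshold `N` for which the Fourier step holds. -/
theorem assembly {N : ℕ} (hN : FourierN N) (V : Type) [Fintype V] (G : SimpleGraph V) (hG : G.IsAcyclic)
    (hV : N ≤ Fintype.card V) :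
    UnimodalSeq (indepSeq G) ∧
    ∀ (S : Finset V) (k : ℕ), G.IsIndepSet (S : Set V) → 1 ≤ k → Fintype.card V ≤ 4 * k → 3 * k ≤ 2 * S.card →
      indepSeq G (k - 1) * indepSeq G (k + 1) ≤ indepSeq G k ^ 2 := by
  classical
  obtain ⟨T, hT⟩ := exists_RF G hG
  have hcnt : ∀ k, indepSeq G k = T.cnt k := by
    intro k
    unfold indepSeq RF.cnt
    rw [Nat.card_eq_fintype_card, Fintype.card_subtype]
    congr 1
    ext S
    simp only [Finset.mem_filter, Finset.mem_univ, true_and]
    rw [hT S, and_comm]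
  have hquarter : ∀ k, 4 * k + 1 ≤ Fintype.card V → T.cnt k ≤ T.cnt (k + 1) := by
    intro k hk
    have := (Quarter.result V G hG k).2 hk
    rw [← hcnt, ← hcnt]
    exact this
  have hbulk : ∀ (S : Finset V) (k : ℕ), T.Ind S → 1 ≤ k → Fintype.card V ≤ 4 * k → 3 * k ≤ 2 * S.card →
      T.cnt (k - 1) * T.cnt (k + 1) ≤ T.cnt k ^ 2 := by
    intro S k hS hk hk1 hk2
    have hV1 : 1 ≤ Fintype.card V := by
      have : 1 ≤ S.card := by omega
      exact this.trans (Finset.card_le_univ S)
    exact bulk hN T hV1 hV S.card ⟨S, hS, rfl⟩ k hk1 hk2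
  refine ⟨?_, ?_⟩
  · -- a largest independent set
    obtain ⟨S, hS, hmax⟩ : ∃ S : Finset V, T.Ind S ∧ ∀ S', T.Ind S' → S'.card ≤ S.card := by
      have hne : ((univ : Finset (Finset V)).filter T.Ind).Nonempty :=
        ⟨∅, Finset.mem_filter.mpr ⟨Finset.mem_univ _, fun u hu => by simp at hu⟩⟩
      obtain ⟨S, hS, h⟩ := Finset.exists_max_image _ Finset.card hne
      exact ⟨S, (Finset.mem_filter.mp hS).2, fun S' hS' => h S' (Finset.mem_filter.mpr ⟨Finset.mem_univ _, hS'⟩)⟩
    set α := S.card with hα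
    have htail : ∀ k, 2 * α ≤ 3 * k + 1 → T.cnt (k + 1) ≤ T.cnt k := by
      intro k hk
      have h1 := cnt_succ_le T α hmax k
      have h2 : 2 * (α - k) ≤ k + 1 := by omega
      have h3 : (k + 1) * T.cnt (k + 1) ≤ (k + 1) * T.cnt k :=
        h1.trans (Nat.mul_le_mul_right _ h2)
      exact Nat.le_of_mul_le_mul_left h3 (Nat.succ_pos k)
    have hpos : ∀ k, k ≤ α → 0 < T.cnt k := by
      intro k hk
      obtain ⟨S', hS', hc⟩ := Finset.exists_subset_card_eq hk
      unfold RF.cnt
      rw [Finset.card_pos]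
      exact ⟨S', Finset.mem_filter.mpr ⟨Finset.mem_univ _,
        fun u hu v hv => hS u (hS' hu) v (hS' hv), hc⟩⟩
    have hend : T.cnt (α + 1) = 0 := by
      unfold RF.cnt
      rw [Finset.card_eq_zero, Finset.filter_eq_empty_iff]
      intro S' _ h
      have := hmax S' h.1
      omega
    have hex : ∃ k, T.cnt (k + 1) < T.cnt k := ⟨α, by rw [hend]; exact hpos α le_rfl⟩
    refine ⟨Nat.find hex, ?_, ?_⟩
    · intro i hi
      rw [hcnt, hcnt]
      exact not_lt.mp (Nat.find_min hex hi)
    · intro i hi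
      rw [hcnt, hcnt]
      set m := Nat.find hex with hm
      have hm1 : T.cnt (m + 1) < T.cnt m := Nat.find_spec hex
      have hm2 : Fintype.card V < 4 * m + 1 := by
        by_contra h
        exact absurd (hquarter m (by omega)) (by omega)
      induction i, hi using Nat.le_induction with
      | base => exact hm1.le
      | succ j hj ih =>
        by_cases hc : 2 * α ≤ 3 * (j + 1) + 1
        · exact htail (j + 1) hc
        · have hb := hbulk S (j + 1) hS (by omega) (by omega) (by omega)
          simp only [Nat.add_sub_cancel] at hb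
          have hjpos : 0 < T.cnt j := hpos j (by omega)
          have h1 : T.cnt j * T.cnt (j + 1 + 1) ≤ T.cnt j * T.cnt (j + 1) := by
            calc T.cnt j * T.cnt (j + 1 + 1) ≤ T.cnt (j + 1) ^ 2 := hb
              _ = T.cnt (j + 1) * T.cnt (j + 1) := sq _
              _ ≤ T.cnt j * T.cnt (j + 1) := Nat.mul_le_mul_right _ ih
          exact Nat.le_of_mul_le_mul_left h1 hjpos
  · intro S k hS hk hk1 hk2
    rw [hcnt, hcnt, hcnt]
    exact hbulk S k ((hT S).mp hS) hk hk1 hk2

end Pool.Agent.Hhelper46.Forest
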