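import Pool.Agent.Hhelper46.Forest.Bulk
import Mathlib

/-!
# Module E with an explicit threshold
-/

set_option linter.unusedSectionVars false

namespace Pool.Agent.Hhelper46.Forest

open Finset

namespace FourierE

open Real

lemma explicit_N {n : ℕ} (hn : 10 ^ 900 ≤ n) : 1 ≤ n ∧
    2 * (6000 * (n : ℝ)) / ((n : ℝ) ^ (-(19 / 40) : ℝ) / 10 ^ 6) * ((n : ℝ) ^ (-(119 / 240) : ℝ)) ^ 3 ≤ 1 / 2 ∧
    (n : ℝ) ^ (-(119 / 240) : ℝ) < (n : ℝ) ^ (-(19 / 40) : ℝ) / 10 ^ 6 ∧
    4 * π * Real.exp (-(2 / π ^ 2 / 1000) * (n : ℝ) ^ (1 / 120 : ℝ)) ≤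
      Real.exp (-3001) / 2 * (n : ℝ) ^ (-(3 / 2) : ℝ) / 40 := by
  have hn1 : 1 ≤ n := le_trans (Nat.one_le_pow _ _ (by norm_num)) hn
  have hx : (0 : ℝ) < n := by exact_mod_cast hn1
  have hx2 : (10 : ℝ) ^ 900 ≤ n := by exact_mod_cast hn
  have hx1 : (1 : ℝ) ≤ n := by exact_mod_cast hn1
  set x : ℝ := (n : ℝ) with hxdef
  -- powers of `x`
  have hp : ∀ (a : ℝ), 0 ≤ a → (10 : ℝ) ^ (900 * a) ≤ x ^ a := by
    intro a ha
    have h1 : ((10 : ℝ) ^ 900) ^ a ≤ x ^ a := Real.rpow_le_rpow (by positivity) hx2 ha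
    rwa [← Real.rpow_natCast, ← Real.rpow_mul (by norm_num)] at h1
  refine ⟨hn1, ?_, ?_, ?_⟩
  · have h5 : 2 * (6000 * x) / (x ^ (-(19 / 40) : ℝ) / 10 ^ 6) * (x ^ (-(119 / 240) : ℝ)) ^ 3 =
        12000 * 10 ^ 6 * x ^ (-(1 / 80) : ℝ) := by
      have h6 : (x ^ (-(119 / 240) : ℝ)) ^ 3 = x ^ (-(119 / 80) : ℝ) := by
        rw [← Real.rpow_natCast, ← Real.rpow_mul hx.le]
        norm_num
      have h7 : x * x ^ (-(119 / 80) : ℝ) = x ^ (-(1 / 80) : ℝ) * x ^ (-(19 / 40) : ℝ) := by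
        rw [← Real.rpow_add hx]
        nth_rewrite 1 [← Real.rpow_one x]
        rw [← Real.rpow_add hx]
        norm_num
      have h8 : 0 < x ^ (-(19 / 40) : ℝ) := Real.rpow_pos_of_pos hx _
      rw [h6]
      field_simp
      linear_combination (2 * 6000) * h7
    rw [h5, Real.rpow_neg hx.le]
    have h1 := hp (1 / 80) (by norm_num)
    have h2 : (10 : ℝ) ^ (11 : ℕ) ≤ (10 : ℝ) ^ (900 * (1 / 80) : ℝ) := by
      rw [← Real.rpow_natCast]
      exact Real.rpow_le_rpow_of_exponent_le (by norm_num) (by norm_num)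
    have h3 : (10 : ℝ) ^ (11 : ℕ) ≤ x ^ (1 / 80 : ℝ) := h2.trans h1
    have h4 : 0 < x ^ (1 / 80 : ℝ) := by positivity
    rw [← div_eq_mul_inv, div_le_iff₀ h4]
    norm_num at h3 ⊢
    linarith
  · have h8 : 0 < x ^ (-(19 / 40) : ℝ) := Real.rpow_pos_of_pos hx _
    have h9 : x ^ (-(119 / 240) : ℝ) = x ^ (-(1 / 48) : ℝ) * x ^ (-(19 / 40) : ℝ) := by
      rw [← Real.rpow_add hx]
      norm_num
    rw [h9]
    have h1 := hp (1 / 48) (by norm_num)
    have h2 : (10 : ℝ) ^ (7 : ℕ) ≤ (10 : ℝ) ^ (900 * (1 / 48) : ℝ) := by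
      rw [← Real.rpow_natCast]
      exact Real.rpow_le_rpow_of_exponent_le (by norm_num) (by norm_num)
    have h3 : (10 : ℝ) ^ (7 : ℕ) ≤ x ^ (1 / 48 : ℝ) := h2.trans h1
    have h4 : x ^ (-(1 / 48) : ℝ) < 1 / 10 ^ 6 := by
      have h6 : (10 : ℝ) ^ 6 < x ^ (1 / 48 : ℝ) := lt_of_lt_of_le (by norm_num) h3
      rw [Real.rpow_neg hx.le, one_div ((10 : ℝ) ^ 6)]
      exact inv_strictAnti₀ (by norm_num) h6
    calc _ < 1 / 10 ^ 6 * x ^ (-(19 / 40) : ℝ) := by gcongr
      _ = _ := by ring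
  · set y : ℝ := x ^ (1 / 120 : ℝ) with hy
    have hy0 : 0 < y := by positivity
    have hy1 : 31622776 ≤ y := by
      have h1 := hp (1 / 120) (by norm_num)
      have h2 : (900 * (1 / 120) : ℝ) = 15 / 2 := by norm_num
      rw [h2] at h1
      have h3 : ((10 : ℝ) ^ (15 / 2 : ℝ)) ^ 2 = 10 ^ 15 := by
        rw [← Real.rpow_natCast, ← Real.rpow_mul (by norm_num)]
        norm_num
      have h4 : (31622776 : ℝ) ^ 2 ≤ ((10 : ℝ) ^ (15 / 2 : ℝ)) ^ 2 := by
        rw [h3]; norm_num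
      exact (le_of_sq_le_sq h4 (by positivity)).trans h1
    have hlogx : Real.log x = 120 * Real.log y := by
      rw [hy, Real.log_rpow hx]; ring
    -- tangent line for the logarithm at `y0`
    have hlogy : Real.log y ≤ y / 31622776 - 1 + Real.log 31622776 := by
      have h1 := Real.log_le_sub_one_of_pos (show 0 < y / 31622776 by positivity)
      rw [Real.log_div hy0.ne' (by norm_num)] at h1
      linarith
    have hlog0 : Real.log 31622776 ≤ 17.5 := by
      have h1 : (31622776 : ℝ) ≤ 2 ^ 25 := by norm_num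
      have h2 := Real.log_le_log (by norm_num) h1
      rw [Real.log_pow] at h2
      have h3 := Real.log_two_lt_d9
      push_cast at h2
      linarith
    have hpi := Real.pi_lt_d4
    have hpi3 := Real.pi_gt_three
    have hc : 0.0002026 ≤ 2 / π ^ 2 / 1000 := by
      rw [div_div, le_div_iff₀ (by positivity)]
      have : π ^ 2 ≤ 3.1416 ^ 2 := by gcongr
      nlinarith
    have hlogc : Real.log (320 * π) ≤ 7 := by
      have h1 : 320 * π ≤ 1024 := by linarith
      have h2 := Real.log_le_log (by positivity) h1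
      have h4 : Real.log 1024 = 10 * Real.log 2 := by
        rw [show (1024 : ℝ) = 2 ^ 10 by norm_num, Real.log_pow]
        norm_num
      have h3 := Real.log_two_lt_d9
      rw [h4] at h2
      linarith
    have hmain : -(2 / π ^ 2 / 1000) * y ≤ -3001 + (-(3 / 2)) * Real.log x - Real.log (320 * π) := by
      rw [hlogx]
      have h1 : 0.0002026 * y ≤ 2 / π ^ 2 / 1000 * y := by gcongr
      linarith
    have h1 : x ^ (-(3 / 2) : ℝ) = Real.exp ((-(3 / 2)) * Real.log x) := by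
      rw [Real.rpow_def_of_pos hx]
      congr 1
      ring
    have h2 : Real.exp (-(2 / π ^ 2 / 1000) * y) ≤
        Real.exp (-3001) * x ^ (-(3 / 2) : ℝ) / (320 * π) := by
      have h3 := Real.exp_le_exp.2 hmain
      rw [Real.exp_sub, Real.exp_add, ← h1, Real.exp_log (by positivity)] at h3
      exact h3
    calc 4 * π * Real.exp (-(2 / π ^ 2 / 1000) * y)
        ≤ 4 * π * (Real.exp (-3001) * x ^ (-(3 / 2) : ℝ) / (320 * π)) := by gcongr
      _ = _ := by field_simp; ring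

end FourierE

open FourierE Real in
/-- The Fourier step holds for every `n ≥ 10 ^ 900`. -/
theorem fourier_explicit : FourierN (10 ^ 900) := by
  intro n hn p k hp hpn hs hmean hk htail ⟨F, F1, F2, hF⟩
  obtain ⟨hn1, ha, hb, hd⟩ := explicit_N hn
  have hx : (0 : ℝ) < n := by exact_mod_cast hn1
  have hx1 : (1 : ℝ) ≤ n := by exact_mod_cast hn1
  set x : ℝ := (n : ℝ) with hxdef
  set r : ℝ := x ^ (-(19 / 40) : ℝ) / 10 ^ 6 with hr
  set t1 : ℝ := x ^ (-(119 / 240) : ℝ) with ht1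
  have hr0 : 0 < r := by positivity
  have ht10 : 0 < t1 := by positivity
  obtain ⟨z0, z1, z2⟩ := derivs_zero (r := r) hr0 hs fun θ hθ =>
    ⟨(hF θ hθ).1, (hF θ hθ).2.1, (hF θ hθ).2.2.2⟩
  rw [hmean] at z1 z2
  set v : ℝ := ∑ j ∈ range (n + 1), (j : ℝ) ^ 2 * p j - (k : ℝ) ^ 2 with hv
  have hv0 : 0 ≤ v := var_nonneg hp hs hmean
  have hv1 : v ≤ 6000 * x := by
    have h1 := (hF 0 (Metric.mem_ball_self hr0)).2.2.1
    rw [z2, norm_neg, Complex.norm_real, Real.norm_eq_abs, abs_of_nonneg hv0] at h1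
    exact h1
  -- the values of the real part
  set S : ℝ → ℝ := fun t => ∑ j ∈ range (n + 1), p j * Real.cos (((j : ℤ) - k : ℤ) * t) with hS
  have hScont : Continuous S := by
    simp only [hS]
    fun_prop
  -- small t
  have hsmall : ∀ t : ℝ, |t| ≤ t1 → Real.exp (-(v * t ^ 2 / 2) - 1 / 2) / 2 ≤ S t := by
    intro t ht
    have hball : (t : ℂ) ∈ Metric.ball (0 : ℂ) r := by
      simp only [Metric.mem_ball, dist_zero_right, Complex.norm_real, Real.norm_eq_abs]
      exact lt_of_le_of_lt ht hb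
    have hexp := expansion hr0 (fun θ hθ => ⟨(hF θ hθ).1, (hF θ hθ).2.1, (hF θ hθ).2.2.1⟩) hball
    rw [z1, z2, Complex.norm_real, Real.norm_eq_abs] at hexp
    set L : ℂ := F t - F 0 - Complex.I * ((k : ℝ) : ℂ) * t - -(v : ℂ) * (t : ℂ) ^ 2 / 2 with hL
    have hLn : ‖L‖ ≤ 1 / 2 := by
      refine hexp.trans (le_trans ?_ ha)
      have h1 : |t| ^ 3 ≤ t1 ^ 3 := pow_le_pow_left₀ (abs_nonneg t) ht 3
      gcongr
    have hψ : Complex.exp (-(k * t * Complex.I)) *
        ∑ j ∈ range (n + 1), (p j : ℂ) * Complex.exp (j * t * Complex.I) =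
        Complex.exp (((-(v * t ^ 2 / 2) : ℝ) : ℂ) + L) := by
      rw [← (hF t hball).2.2.2]
      have h2 : F t = F 0 + (k * t * Complex.I + (((-(v * t ^ 2 / 2) : ℝ) : ℂ) + L)) := by
        rw [hL]
        push_cast
        ring
      rw [h2, Complex.exp_add, z0, one_mul, ← Complex.exp_add]
      congr 1
      ring
    have h3 : S t = Real.exp (-(v * t ^ 2 / 2) + L.re) * Real.cos L.im := by
      simp only [hS]
      rw [← re_eq (n := n) (k := k) p t, hψ, Complex.exp_re, Complex.add_re, Complex.add_im,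
        Complex.ofReal_re, Complex.ofReal_im, zero_add]
    have h4 : |L.re| ≤ 1 / 2 := (Complex.abs_re_le_norm L).trans hLn
    have h5 : |L.im| ≤ 1 / 2 := (Complex.abs_im_le_norm L).trans hLn
    have h6 : 1 / 2 ≤ Real.cos L.im := by
      have h7 := Real.one_sub_sq_div_two_le_cos (x := L.im)
      have h8 : L.im ^ 2 ≤ (1 / 2) ^ 2 := sq_le_sq' (by linarith [(abs_le.1 h5).1]) (abs_le.1 h5).2
      linarith
    rw [h3]
    have h9 : Real.exp (-(v * t ^ 2 / 2) - 1 / 2) ≤ Real.exp (-(v * t ^ 2 / 2) + L.re) :=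
      Real.exp_le_exp.2 (by linarith [(abs_le.1 h4).1])
    calc _ = Real.exp (-(v * t ^ 2 / 2) - 1 / 2) * (1 / 2) := by ring
      _ ≤ _ := mul_le_mul h9 h6 (by norm_num) (Real.exp_pos _).le
  -- large t
  set E : ℝ := Real.exp (-(2 / π ^ 2 / 1000) * x ^ (1 / 120 : ℝ)) with hE
  have hE0 : 0 < E := Real.exp_pos _
  have hbig : ∀ t : ℝ, |t| ≤ π → t1 ≤ |t| → |S t| ≤ E := by
    intro t ht ht'
    have h1 : |S t| ≤ ‖∑ j ∈ range (n + 1), (p j : ℂ) * Complex.exp (j * t * Complex.I)‖ := by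
      simp only [hS]
      rw [← re_eq (n := n) (k := k) p t]
      refine (Complex.abs_re_le_norm _).trans ?_
      rw [norm_mul]
      have h2 : ‖Complex.exp (-(k * t * Complex.I))‖ = 1 := by
        have : (-(k * t * Complex.I) : ℂ) = ((-(k * t) : ℝ) : ℂ) * Complex.I := by
          push_cast; ring
        rw [this, Complex.norm_exp_ofReal_mul_I]
      rw [h2, one_mul]
    refine h1.trans ((htail t).trans ?_)
    rw [hE]
    apply Real.exp_le_exp.2
    have h3 := Real.cos_le_one_sub_mul_cos_sq ht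
    have h4 : t1 ^ 2 ≤ t ^ 2 := by
      rw [← sq_abs t]
      exact pow_le_pow_left₀ ht10.le ht' 2
    have h5 : x * t1 ^ 2 = x ^ (1 / 120 : ℝ) := by
      rw [ht1, ← Real.rpow_natCast, ← Real.rpow_mul hx.le]
      nth_rewrite 1 [← Real.rpow_one x]
      rw [← Real.rpow_add hx]
      norm_num
    rw [← h5]
    have h6 : 2 / π ^ 2 * t1 ^ 2 ≤ 1 - Real.cos t := by
      have : 2 / π ^ 2 * t1 ^ 2 ≤ 2 / π ^ 2 * t ^ 2 := by gcongr
      linarith
    have h7 : x * (2 / π ^ 2 * t1 ^ 2) ≤ x * (1 - Real.cos t) := by gcongr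
    linarith
  -- the integral
  have hJ := int_J (n := n) hpn hk
  have hπ := Real.pi_pos
  have hπ3 := Real.pi_gt_three
  have hπ4 := Real.pi_lt_d2
  set b : ℝ := x ^ (-(1 / 2) : ℝ) with hbdef
  have hb0 : 0 < b := by positivity
  have hb1 : b ≤ 1 := Real.rpow_le_one_of_one_le_of_nonpos hx1 (by norm_num)
  have hbt : b ≤ t1 := Real.rpow_le_rpow_of_exponent_le hx1 (by norm_num)
  have hxb : x * b ^ 2 = 1 := by
    rw [hbdef, ← Real.rpow_natCast, ← Real.rpow_mul hx.le]
    nth_rewrite 1 [← Real.rpow_one x]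
    rw [← Real.rpow_add hx]
    norm_num
  have hb3 : b ^ 3 = x ^ (-(3 / 2) : ℝ) := by
    rw [hbdef, ← Real.rpow_natCast, ← Real.rpow_mul hx.le]
    norm_num
  set g : ℝ → ℝ := fun t => (1 - Real.cos t) * S t + 2 * E with hg
  have hgc : Continuous g := by
    simp only [hg]
    fun_prop
  have hg0 : ∀ t ∈ Set.Icc (-π) π, 0 ≤ g t := by
    intro t ht
    have habs : |t| ≤ π := abs_le.2 ht
    have hc1 := Real.cos_le_one t
    have hc2 := Real.neg_one_le_cos t
    simp only [hg]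
    rcases le_total |t| t1 with h | h
    · have h1 : 0 ≤ S t := le_trans (by positivity) (hsmall t h)
      have := mul_nonneg (sub_nonneg.2 hc1) h1
      linarith
    · have h1 := abs_le.1 (hbig t habs h)
      nlinarith [h1.1, h1.2]
  have hg1 : ∀ t ∈ Set.Icc (b / 2) b, Real.exp (-3001) / 2 * (b ^ 2 / 20) ≤ g t := by
    intro t ht
    have ht0 : 0 ≤ t := le_trans (by positivity) ht.1
    have habs : |t| ≤ t1 := by rw [abs_of_nonneg ht0]; exact ht.2.trans hbt
    have h1 := hsmall t habs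
    have h2 : Real.exp (-3001) ≤ Real.exp (-(v * t ^ 2 / 2) - 1 / 2) := by
      apply Real.exp_le_exp.2
      have h3 : t ^ 2 ≤ b ^ 2 := pow_le_pow_left₀ ht0 ht.2 2
      have h4 : v * t ^ 2 ≤ 6000 * x * b ^ 2 := by gcongr
      nlinarith
    have h3 : Real.exp (-3001) / 2 ≤ S t := by linarith
    have h4 : b ^ 2 / 20 ≤ 1 - Real.cos t := by
      have h5 : |t| ≤ π := by rw [abs_of_nonneg ht0]; linarith [ht.2]
      have h6 := Real.cos_le_one_sub_mul_cos_sq h5
      have h7 : (b / 2) ^ 2 ≤ t ^ 2 := pow_le_pow_left₀ (by positivity) ht.1 2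
      have h8 : 1 / 5 ≤ 2 / π ^ 2 := by
        rw [div_le_div_iff₀ (by norm_num) (by positivity)]
        nlinarith
      have h9 : 1 / 5 * (b / 2) ^ 2 ≤ 2 / π ^ 2 * t ^ 2 := by gcongr
      linarith
    have h5 : Real.exp (-3001) / 2 * (b ^ 2 / 20) ≤ S t * (1 - Real.cos t) :=
      mul_le_mul h3 h4 (by positivity) (le_trans (by positivity) h3)
    simp only [hg]
    linarith
  have hI1 : Real.exp (-3001) / 2 * (b ^ 2 / 20) * (b / 2) ≤ ∫ t in (b / 2)..b, g t := by
    have h1 : ∫ t in (b / 2)..b, Real.exp (-3001) / 2 * (b ^ 2 / 20) ≤ ∫ t in (b / 2)..b, g t := by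
      refine intervalIntegral.integral_mono_on (by linarith) (by simp) (hgc.intervalIntegrable _ _) ?_
      intro t ht
      exact hg1 t ht
    rw [intervalIntegral.integral_const, smul_eq_mul] at h1
    calc _ = (b - b / 2) * (Real.exp (-3001) / 2 * (b ^ 2 / 20)) := by ring
      _ ≤ _ := h1
  have hI2 : ∫ t in (b / 2)..b, g t ≤ ∫ t in (-π)..π, g t := by
    refine intervalIntegral.integral_mono_interval (by linarith) (by linarith) (by linarith) ?_
      (hgc.intervalIntegrable _ _)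
    filter_upwards [MeasureTheory.ae_restrict_mem measurableSet_Ioc] with t ht
    exact hg0 t ⟨ht.1.le, ht.2⟩
  have hI3 : ∫ t in (-π)..π, g t = (∫ t in (-π)..π, (1 - Real.cos t) * S t) + 4 * π * E := by
    simp only [hg]
    rw [intervalIntegral.integral_add, intervalIntegral.integral_const, smul_eq_mul]
    · ring
    · exact Continuous.intervalIntegrable (by fun_prop) _ _
    · exact Continuous.intervalIntegrable (by fun_prop) _ _
  rw [hJ] at hI3
  have hfin : 0 ≤ 2 * π * p k - π * p (k - 1) - π * p (k + 1) := by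
    have h1 : Real.exp (-3001) / 2 * (b ^ 2 / 20) * (b / 2) = Real.exp (-3001) / 2 *
        x ^ (-(3 / 2) : ℝ) / 40 := by
      rw [← hb3]; ring
    linarith
  have hfin2 : 0 ≤ π * (2 * p k - (p (k - 1) + p (k + 1))) := by linarith
  have := nonneg_of_mul_nonneg_right hfin2 hπ
  linarith

end Pool.Agent.Hhelper46.Forest
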