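import Pool.Agent.Hhelper46.Forest.Basic

/-!
# The product formula (elimination of leaves)
-/

set_option linter.unusedSectionVars false

namespace Pool.Agent.Hhelper46.Forest

open Finset

variable {V : Type*} [Fintype V] [DecidableEq V]

namespace RF

lemma ind_insert (T : RF V) (v : V) (S : Finset V) (hch : ∀ c ∈ S, T.par c ≠ some v) :
    T.Ind (insert v S) ↔ T.Ind S ∧ ∀ u ∈ S, T.par v ≠ some u := by
  constructor
  · intro h
    refine ⟨fun a ha b hb => h a (mem_insert_of_mem ha) b (mem_insert_of_mem hb), ?_⟩
    intro u hu
    exact h v (mem_insert_self _ _) u (mem_insert_of_mem hu)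
  · rintro ⟨h1, h2⟩ a ha b hb hab
    rw [mem_insert] at ha hb
    rcases ha with rfl | ha
    · rcases hb with rfl | hb
      · exact absurd (T.lt _ _ hab) (lt_irrefl _)
      · exact h2 b hb hab
    · rcases hb with rfl | hb
      · exact hch a ha hab
      · exact h1 a ha b hb hab

lemma leaf_elim {K : Type*} [Field K] (T : RF V) (W : Finset V) (v : V) (hv : v ∈ W)
    (hch : ∀ c ∈ W, T.par c ≠ some v) (x : V → K) (hx : 1 + x v ≠ 0) :
    T.Z W x = (1 + x v) * T.Z (W.erase v) (fun u => if T.par v = some u then x u * (1 + x v)⁻¹ else x u) := by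
  unfold Z
  rw [Finset.sum_filter, Finset.sum_filter]
  conv_lhs => rw [← Finset.insert_erase hv]
  rw [Finset.sum_powerset_insert (Finset.notMem_erase v W), ← Finset.sum_add_distrib, Finset.mul_sum]
  apply Finset.sum_congr rfl
  intro S hS
  rw [mem_powerset] at hS
  have hvS : v ∉ S := fun h => Finset.notMem_erase v W (hS h)
  have hchS : ∀ c ∈ S, T.par c ≠ some v := fun c hc => hch c (Finset.mem_of_mem_erase (hS hc))
  have hiff := T.ind_insert v S hchS
  by_cases hI : T.Ind S
  · rw [if_pos hI, if_pos hI]
    by_cases hp : ∀ u ∈ S, T.par v ≠ some u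
    · rw [if_pos (hiff.mpr ⟨hI, hp⟩), Finset.prod_insert hvS]
      have : ∏ u ∈ S, (if T.par v = some u then x u * (1 + x v)⁻¹ else x u) = ∏ u ∈ S, x u := by
        apply Finset.prod_congr rfl
        intro u hu
        rw [if_neg (hp u hu)]
      rw [this]
      ring
    · rw [if_neg (fun h => hp (hiff.mp h).2)]
      push Not at hp
      obtain ⟨p, hpS, hp⟩ := hp
      rw [← Finset.mul_prod_erase S _ hpS, ← Finset.mul_prod_erase S (fun u => if T.par v = some u then _ else _) hpS]
      rw [if_pos hp]
      have : ∏ u ∈ S.erase p, (if T.par v = some u then x u * (1 + x v)⁻¹ else x u) = ∏ u ∈ S.erase p, x u := by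
        apply Finset.prod_congr rfl
        intro u hu
        rw [if_neg]
        intro h
        rw [hp] at h
        exact (Finset.ne_of_mem_erase hu) (Option.some.inj h).symm
      rw [this]
      field_simp
      ring
  · rw [if_neg hI, if_neg (fun h => hI (hiff.mp h).1), if_neg hI]
    ring

/-- Product formula (leaf elimination). -/
theorem Z_eq_prod {K : Type*} [Field K] (T : RF V) (x R : V → K)
    (hR : ∀ v, R v = x v * ∏ c ∈ T.ch v, (1 + R c)⁻¹) (hne : ∀ v, 1 + R v ≠ 0) :
    T.Z univ x = ∏ v, (1 + R v) := by
  have key : ∀ k, ∀ W : Finset V, W.card = k → (∀ u ∈ W, ∀ p, T.par u = some p → p ∈ W) →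
      T.Z W (fun v => x v * ∏ c ∈ T.ch v \ W, (1 + R c)⁻¹) = ∏ v ∈ W, (1 + R v) := by
    intro k
    induction k with
    | zero =>
      intro W hW _
      rw [Finset.card_eq_zero] at hW
      subst hW
      unfold Z
      rw [Finset.powerset_empty, Finset.sum_filter, Finset.sum_singleton, if_pos]
      · simp
      · intro u hu
        simp at hu
    | succ k ih =>
      intro W hW hcl
      have hne' : W.Nonempty := by
        rw [← Finset.card_pos]; omega
      obtain ⟨v, hv, hmax⟩ := Finset.exists_max_image W T.rk hne'
      have hch : ∀ c ∈ W, T.par c ≠ some v := by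
        intro c hc h
        have h1 := T.lt c v h
        have h2 := hmax c hc
        omega
      have hxv : x v * ∏ c ∈ T.ch v \ W, (1 + R c)⁻¹ = R v := by
        rw [hR v]
        congr 2
        rw [Finset.sdiff_eq_self_iff_disjoint, Finset.disjoint_left]
        intro c hc hcW
        exact hch c hcW ((T.mem_ch v c).mp hc)
      rw [T.leaf_elim W v hv hch _ (by simp only [hxv]; exact hne v)]
      simp only [hxv]
      rw [← Finset.mul_prod_erase W _ hv]
      congr 1
      rw [← ih (W.erase v) (by rw [Finset.card_erase_of_mem hv]; omega)]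
      · congr 1
        funext u
        by_cases hu : T.par v = some u
        · rw [if_pos hu]
          have hset : T.ch u \ W.erase v = insert v (T.ch u \ W) := by
            ext c
            simp only [Finset.mem_sdiff, Finset.mem_erase, Finset.mem_insert, mem_ch]
            constructor
            · rintro ⟨h1, h2⟩
              by_cases hcv : c = v
              · exact Or.inl hcv
              · exact Or.inr ⟨h1, fun h => h2 ⟨hcv, h⟩⟩
            · rintro (rfl | ⟨h1, h2⟩)
              · exact ⟨hu, fun h => h.1 rfl⟩
              · exact ⟨h1, fun h => h2 h.2⟩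
          have hnm : v ∉ T.ch u \ W := by
            simp [hv]
          rw [hset, Finset.prod_insert hnm]
          ring
        · rw [if_neg hu]
          have hset : T.ch u \ W.erase v = T.ch u \ W := by
            ext c
            simp only [Finset.mem_sdiff, Finset.mem_erase, mem_ch]
            constructor
            · rintro ⟨h1, h2⟩
              exact ⟨h1, fun h => h2 ⟨by rintro rfl; exact hu h1, h⟩⟩
            · rintro ⟨h1, h2⟩
              exact ⟨h1, fun h => h2 h.2⟩
          rw [hset]
      · intro u hu p hp
        rw [Finset.mem_erase] at hu ⊢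
        refine ⟨?_, hcl u hu.2 p hp⟩
        rintro rfl
        exact hch u hu.2 hp
  have h := key _ univ rfl (fun _ _ _ _ => mem_univ _)
  rw [← h]
  congr 1
  funext v
  have : T.ch v \ univ = ∅ := Finset.sdiff_eq_empty_iff_subset.mpr (Finset.subset_univ _)
  rw [this, Finset.prod_empty, mul_one]

end RF

end Pool.Agent.Hhelper46.Forest
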