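import Pool.Agent.Hhelper46.Forest.LocalReal
import Pool.Agent.Hhelper46.Forest.Prod

/-!
# The logarithm of the independence polynomial near the real axis
-/

set_option linter.unusedSectionVars false

namespace Pool.Agent.Hhelper46.Forest

open Finset

variable {V : Type*} [Fintype V] [DecidableEq V]

namespace LocalC

open LocalReal Complex

lemma norm_exp_sub_one (z : ℂ) : ‖exp z - 1‖ ≤ ‖z‖ * Real.exp ‖z‖ := by
  have := Complex.norm_exp_sub_sum_le_norm_mul_exp z 1
  simpa using this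

variable {T : RF V} {q m B : V → ℝ} {r : ℝ}

/-- the statement for one vertex -/
structure Good (q B b : V → ℝ) (r : ℝ) (T : RF V) (L L1 L2 : V → ℂ → ℂ) (v : V) : Prop where
  h0 : L v 0 = 0
  h1 : ∀ θ ∈ Metric.ball (0 : ℂ) r, HasDerivAt (L v) (L1 v θ) θ
  h2 : ∀ θ ∈ Metric.ball (0 : ℂ) r, HasDerivAt (L1 v) (L2 v θ) θ
  h3 : ∀ θ ∈ Metric.ball (0 : ℂ) r, ‖L1 v θ‖ ≤ B v
  h4 : ∀ θ ∈ Metric.ball (0 : ℂ) r, ‖L2 v θ‖ ≤ ∑ c ∈ T.ch v, b c

/-- the value `1 + q (e^L - 1)` -/
noncomputable def E (q : V → ℝ) (L : V → ℂ → ℂ) (v : V) (θ : ℂ) : ℂ := 1 + q v * (exp (L v θ) - 1)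

/-- complex occupation probability -/
noncomputable def Q (q : V → ℝ) (L : V → ℂ → ℂ) (v : V) (θ : ℂ) : ℂ := q v * exp (L v θ) / E q L v θ

variable {b : V → ℝ} {L L1 L2 : V → ℂ → ℂ}

lemma Good.normL (D : Data T q m B r) {v : V} (G : Good q B b r T L L1 L2 v) {θ : ℂ} (hθ : θ ∈ Metric.ball (0 : ℂ) r) :
    ‖L v θ‖ ≤ r * B v := by
  have h := Convex.norm_image_sub_le_of_norm_hasDerivWithin_le (f := L v) (f' := L1 v) (C := B v)
    (s := Metric.ball (0 : ℂ) r) (x := 0) (y := θ) (fun x hx => (G.h1 x hx).hasDerivWithinAt) G.h3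
    (convex_ball _ _) (Metric.mem_ball_self D.r_pos) hθ
  rw [G.h0, sub_zero, sub_zero] at h
  have h2 : ‖θ‖ < r := by simpa using hθ
  have h3 := D.B_ge v
  calc _ ≤ B v * ‖θ‖ := h
    _ ≤ B v * r := mul_le_mul_of_nonneg_left h2.le (by linarith)
    _ = _ := mul_comm _ _

lemma Good.small (D : Data T q m B r) {v : V} (G : Good q B b r T L L1 L2 v) {θ : ℂ} (hθ : θ ∈ Metric.ball (0 : ℂ) r) :
    ‖(q v : ℂ) * (exp (L v θ) - 1)‖ ≤ 271 / 100000 := by
  rw [norm_mul, Complex.norm_real, Real.norm_of_nonneg (D.q_pos v).le]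
  refine le_trans ?_ (D.small v)
  apply mul_le_mul_of_nonneg_left _ (D.q_pos v).le
  refine (norm_exp_sub_one _).trans ?_
  have h := G.normL D hθ
  have h3 := D.B_ge v
  have h4 := D.r_pos
  exact mul_le_mul h (Real.exp_le_exp.mpr h) (Real.exp_pos _).le (by positivity)

lemma Good.slit (D : Data T q m B r) {v : V} (G : Good q B b r T L L1 L2 v) {θ : ℂ} (hθ : θ ∈ Metric.ball (0 : ℂ) r) :
    E q L v θ ∈ slitPlane := by
  unfold E
  apply Complex.mem_slitPlane_of_norm_lt_one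
  have := G.small D hθ
  linarith

lemma Good.Ene (D : Data T q m B r) {v : V} (G : Good q B b r T L L1 L2 v) {θ : ℂ} (hθ : θ ∈ Metric.ball (0 : ℂ) r) :
    E q L v θ ≠ 0 := Complex.slitPlane_ne_zero (G.slit D hθ)

lemma Good.normQ (D : Data T q m B r) {v : V} (G : Good q B b r T L L1 L2 v) {θ : ℂ} (hθ : θ ∈ Metric.ball (0 : ℂ) r) :
    ‖Q q L v θ‖ ≤ Qb q B r v := by
  unfold Q
  rw [norm_div, norm_mul, Complex.norm_real, Real.norm_of_nonneg (D.q_pos v).le]
  have h1 : 1 - 271 / 100000 ≤ ‖E q L v θ‖ := by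
    unfold E
    have h2 := G.small D hθ
    have h3 := norm_sub_norm_le (1 : ℂ) (-((q v : ℂ) * (exp (L v θ) - 1)))
    rw [sub_neg_eq_add, norm_neg, norm_one] at h3
    linarith
  have h2 : ‖exp (L v θ)‖ ≤ Real.exp (r * B v) := by
    rw [Complex.norm_exp]
    apply Real.exp_le_exp.mpr
    exact (Complex.re_le_norm _).trans (G.normL D hθ)
  have h3 := D.q_pos v
  rw [div_le_iff₀ (by linarith)]
  unfold Qb
  have h4 : 0 ≤ q v * Real.exp (r * B v) := by positivity
  calc q v * ‖exp (L v θ)‖ ≤ q v * Real.exp (r * B v) := mul_le_mul_of_nonneg_left h2 h3.le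
    _ ≤ 1003 / 1000 * q v * Real.exp (r * B v) * (1 - 271 / 100000) := by nlinarith
    _ ≤ _ := mul_le_mul_of_nonneg_left h1 (by positivity)

lemma Good.derivE {v : V} (G : Good q B b r T L L1 L2 v) {θ : ℂ} (hθ : θ ∈ Metric.ball (0 : ℂ) r) :
    HasDerivAt (E q L v) ((q v : ℂ) * (exp (L v θ) * L1 v θ)) θ := by
  unfold E
  have h := ((G.h1 θ hθ).cexp.sub_const 1).const_mul (q v : ℂ)
  exact h.const_add 1

lemma Good.derivLog (D : Data T q m B r) {v : V} (G : Good q B b r T L L1 L2 v) {θ : ℂ} (hθ : θ ∈ Metric.ball (0 : ℂ) r) :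
    HasDerivAt (fun t => log (E q L v t)) (Q q L v θ * L1 v θ) θ := by
  have h := (G.derivE hθ).clog (G.slit D hθ)
  convert h using 1
  unfold Q
  ring

lemma Good.derivQ (D : Data T q m B r) {v : V} (G : Good q B b r T L L1 L2 v) {θ : ℂ} (hθ : θ ∈ Metric.ball (0 : ℂ) r) :
    HasDerivAt (Q q L v) (Q q L v θ * (1 - Q q L v θ) * L1 v θ) θ := by
  have hE := G.Ene D hθ
  have h1 := ((G.h1 θ hθ).cexp.const_mul (q v : ℂ)).fun_div (G.derivE hθ) hE
  refine HasDerivAt.congr_deriv (f := Q q L v) h1 ?_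
  simp only [Q]
  field_simp

lemma Good.derivQL (D : Data T q m B r) {v : V} (G : Good q B b r T L L1 L2 v) {θ : ℂ} (hθ : θ ∈ Metric.ball (0 : ℂ) r) :
    HasDerivAt (fun t => Q q L v t * L1 v t)
      (Q q L v θ * (1 - Q q L v θ) * L1 v θ ^ 2 + Q q L v θ * L2 v θ) θ := by
  have h := (G.derivQ D hθ).fun_mul (G.h2 θ hθ)
  refine h.congr_deriv ?_
  ring

lemma Good.norm1 (D : Data T q m B r) {v : V} (G : Good q B b r T L L1 L2 v) {θ : ℂ} (hθ : θ ∈ Metric.ball (0 : ℂ) r) :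
    ‖Q q L v θ * L1 v θ‖ ≤ Qb q B r v * B v := by
  rw [norm_mul]
  exact mul_le_mul (G.normQ D hθ) (G.h3 θ hθ) (norm_nonneg _) (D.Qb_pos v).le

lemma Good.norm2 (D : Data T q m B r) {v : V} (G : Good q B b r T L L1 L2 v)
    (hb : b v = Qb q B r v * (1 + Qb q B r v) * B v ^ 2 + Qb q B r v * ∑ c ∈ T.ch v, b c)
    {θ : ℂ} (hθ : θ ∈ Metric.ball (0 : ℂ) r) :
    ‖Q q L v θ * (1 - Q q L v θ) * L1 v θ ^ 2 + Q q L v θ * L2 v θ‖ ≤ b v := by
  have h1 := G.normQ D hθ
  have h2 := G.h3 θ hθ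
  have h3 := G.h4 θ hθ
  have h4 := D.Qb_pos v
  have h5 : ‖1 - Q q L v θ‖ ≤ 1 + Qb q B r v := by
    refine (norm_sub_le _ _).trans ?_
    rw [norm_one]
    linarith
  rw [hb]
  refine (norm_add_le _ _).trans (add_le_add ?_ ?_)
  · rw [norm_mul, norm_mul, norm_pow]
    apply mul_le_mul _ (pow_le_pow_left₀ (norm_nonneg _) h2 2) (by positivity) (by positivity)
    exact mul_le_mul h1 h5 (norm_nonneg _) h4.le
  · rw [norm_mul]
    exact mul_le_mul h1 h3 (norm_nonneg _) h4.le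

/-- The recursion is good at every vertex. -/
lemma good_all (D : Data T q m B r)
    (hb : ∀ v, b v = Qb q B r v * (1 + Qb q B r v) * B v ^ 2 + Qb q B r v * ∑ c ∈ T.ch v, b c)
    (hL : ∀ v, L v = fun θ => θ * I - ∑ c ∈ T.ch v, log (E q L c θ))
    (hL1 : ∀ v, L1 v = fun θ => I - ∑ c ∈ T.ch v, Q q L c θ * L1 c θ)
    (hL2 : ∀ v, L2 v = fun θ => - ∑ c ∈ T.ch v,
      (Q q L c θ * (1 - Q q L c θ) * L1 c θ ^ 2 + Q q L c θ * L2 c θ)) (v : V) :
    Good q B b r T L L1 L2 v := by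
  induction v using T.ind with
  | _ v ih =>
    constructor
    · rw [hL v]
      simp only [zero_mul, zero_sub, neg_eq_zero]
      apply Finset.sum_eq_zero
      intro c hc
      unfold E
      rw [(ih c hc).h0]
      simp
    · intro θ hθ
      rw [hL v, hL1 v]
      have h1 : HasDerivAt (fun t : ℂ => t * I) I θ := by
        simpa using (hasDerivAt_id θ).mul_const I
      apply h1.fun_sub
      apply HasDerivAt.fun_sum
      intro c hc
      exact (ih c hc).derivLog D hθ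
    · intro θ hθ
      rw [hL1 v, hL2 v]
      apply HasDerivAt.const_sub
      apply HasDerivAt.fun_sum
      intro c hc
      exact (ih c hc).derivQL D hθ
    · intro θ hθ
      rw [hL1 v]
      refine (norm_sub_le _ _).trans ?_
      rw [Complex.norm_I, D.B_eq v]
      apply add_le_add le_rfl
      refine (norm_sum_le _ _).trans (Finset.sum_le_sum ?_)
      intro c hc
      exact (ih c hc).norm1 D hθ
    · intro θ hθ
      rw [hL2 v, norm_neg]
      refine (norm_sum_le _ _).trans (Finset.sum_le_sum ?_)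
      intro c hc
      exact (ih c hc).norm2 D (hb c) hθ

end LocalC

open LocalReal LocalC in
/-- The logarithm of the independence polynomial near a real fugacity in `[1/3, 5]`. -/
theorem local_log (T : RF V) (hn : 0 < Fintype.card V) (l : ℝ) (hl : 1 / 3 ≤ l) (hl' : l ≤ 5) :
    ∃ F F1 F2 : ℂ → ℂ, ∀ θ ∈ Metric.ball (0 : ℂ) ((Fintype.card V : ℝ) ^ (-(19 / 40) : ℝ) / 10 ^ 6),
      HasDerivAt F (F1 θ) θ ∧ HasDerivAt F1 (F2 θ) θ ∧ ‖F2 θ‖ ≤ 6000 * Fintype.card V ∧
      Complex.exp (F θ) * (T.Z univ (fun _ => l) : ℝ) =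
        T.Z univ (fun _ => (l : ℂ) * Complex.exp (θ * Complex.I)) := by
  have hl0 : 0 < l := by linarith
  obtain ⟨R, hR⟩ := T.exists_rec (α := ℝ) (fun v f => l * ∏ c ∈ T.ch v, (1 + f c)⁻¹) (by
    intro v f g hfg
    congr 1
    exact Finset.prod_congr rfl (fun c hc => by rw [hfg c hc]))
  have hRpos := R_pos T l R hl0 hR
  obtain ⟨m, hm⟩ := T.exists_rec (α := ℝ) (fun v f => 1 + ∑ c ∈ T.ch v, f c) (by
    intro v f g hfg
    congr 1
    exact Finset.sum_congr rfl (fun c hc => hfg c hc))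
  have hmle := m_le T m hm
  set n : ℝ := (Fintype.card V : ℝ) with hndef
  have hn1 : 1 ≤ n := by rw [hndef]; exact_mod_cast hn
  set r : ℝ := n ^ (-(19 / 40) : ℝ) / 10 ^ 6 with hr
  have hr0 : 0 < r := by rw [hr]; positivity
  set q : V → ℝ := fun v => R v / (1 + R v) with hq
  obtain ⟨B, hB⟩ := T.exists_rec (α := ℝ)
    (fun v f => 1 + ∑ c ∈ T.ch v, 1003 / 1000 * q c * Real.exp (r * f c) * f c) (by
    intro v f g hfg
    congr 1
    exact Finset.sum_congr rfl (fun c hc => by rw [hfg c hc]))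
  have D : Data T q m B r := by
    refine ⟨?_, ?_, ?_, fun v => (hmle v).1, hm, hr0, ?_, ?_, hB⟩
    · intro v
      have := hRpos v
      simp only [hq]; positivity
    · intro v
      have := hRpos v
      simp only [hq]
      rw [div_lt_one (by positivity)]
      linarith
    · exact LocalReal.q_le T l R hl0 hl' hR q (fun v => rfl)
    · rw [hr]
      have : n ^ (-(19 / 40) : ℝ) ≤ 1 := Real.rpow_le_one_of_one_le_of_nonpos hn1 (by norm_num)
      rw [div_le_iff₀ (by norm_num)]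
      linarith
    · intro v
      obtain ⟨h1, h2⟩ := hmle v
      rw [hr, Real.rpow_neg (by linarith)]
      have h3 : m v ^ (19 / 40 : ℝ) ≤ n ^ (19 / 40 : ℝ) := Real.rpow_le_rpow (by linarith) h2 (by norm_num)
      have h4 : 0 < n ^ (19 / 40 : ℝ) := Real.rpow_pos_of_pos (by linarith) _
      have h5 : (n ^ (19 / 40 : ℝ))⁻¹ * m v ^ (19 / 40 : ℝ) ≤ 1 := by
        rw [inv_mul_le_iff₀ h4]; linarith
      calc (n ^ (19 / 40 : ℝ))⁻¹ / 10 ^ 6 * 1000 * m v ^ (19 / 40 : ℝ) =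
          ((n ^ (19 / 40 : ℝ))⁻¹ * m v ^ (19 / 40 : ℝ)) * (1000 / 10 ^ 6) := by ring
        _ ≤ 1 * (1000 / 10 ^ 6) := mul_le_mul_of_nonneg_right h5 (by norm_num)
        _ = _ := by norm_num
  obtain ⟨b, hb⟩ := T.exists_rec (α := ℝ)
    (fun v f => Qb q B r v * (1 + Qb q B r v) * B v ^ 2 + Qb q B r v * ∑ c ∈ T.ch v, f c) (by
    intro v f g hfg
    congr 2
    exact Finset.sum_congr rfl (fun c hc => hfg c hc))
  obtain ⟨L, hL⟩ := T.exists_rec (α := ℂ → ℂ)
    (fun v f => fun θ => θ * Complex.I - ∑ c ∈ T.ch v, Complex.log (E q f c θ)) (by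
    intro v f g hfg
    funext θ
    congr 1
    exact Finset.sum_congr rfl (fun c hc => by unfold E; rw [hfg c hc]))
  obtain ⟨L1, hL1⟩ := T.exists_rec (α := ℂ → ℂ)
    (fun v f => fun θ => Complex.I - ∑ c ∈ T.ch v, Q q L c θ * f c θ) (by
    intro v f g hfg
    funext θ
    congr 1
    exact Finset.sum_congr rfl (fun c hc => by rw [hfg c hc]))
  obtain ⟨L2, hL2⟩ := T.exists_rec (α := ℂ → ℂ)
    (fun v f => fun θ => - ∑ c ∈ T.ch v,
      (Q q L c θ * (1 - Q q L c θ) * L1 c θ ^ 2 + Q q L c θ * f c θ)) (by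
    intro v f g hfg
    funext θ
    congr 1
    exact Finset.sum_congr rfl (fun c hc => by rw [hfg c hc]))
  have G := good_all D hb hL hL1 hL2
  refine ⟨fun θ => ∑ v, Complex.log (E q L v θ), fun θ => ∑ v, Q q L v θ * L1 v θ,
    fun θ => ∑ v, (Q q L v θ * (1 - Q q L v θ) * L1 v θ ^ 2 + Q q L v θ * L2 v θ), ?_⟩
  intro θ hθ
  refine ⟨?_, ?_, ?_, ?_⟩
  · apply HasDerivAt.fun_sum
    intro v _
    exact (G v).derivLog D hθ
  · apply HasDerivAt.fun_sum
    intro v _
    exact (G v).derivQL D hθ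
  · refine (norm_sum_le _ _).trans ((Finset.sum_le_sum (fun v _ => (G v).norm2 D (hb v) hθ)).trans ?_)
    exact (D.sum_b b hb).2
  · have hEne : ∀ v, E q L v θ ≠ 0 := fun v => (G v).Ene D hθ
    have h1 : Complex.exp (∑ v, Complex.log (E q L v θ)) = ∏ v, E q L v θ := by
      rw [Complex.exp_sum]
      exact Finset.prod_congr rfl (fun v _ => Complex.exp_log (hEne v))
    have h2 : (T.Z univ (fun _ => l) : ℝ) = ∏ v, (1 + R v) :=
      T.Z_eq_prod _ R hR (fun v => by have := hRpos v; positivity)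
    have h3 : ∀ v, (1 + (R v : ℂ)) * E q L v θ = 1 + R v * Complex.exp (L v θ) := by
      intro v
      have h4 : (1 + (R v : ℂ)) ≠ 0 := by
        have := hRpos v
        exact_mod_cast (by positivity : (1 + R v) ≠ 0)
      unfold E
      simp only [hq]
      push_cast
      field_simp
      ring
    have h4 : T.Z univ (fun _ => (l : ℂ) * Complex.exp (θ * Complex.I)) =
        ∏ v, (1 + (R v : ℂ) * Complex.exp (L v θ)) := by
      apply T.Z_eq_prod _ (fun v => (R v : ℂ) * Complex.exp (L v θ))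
      · intro v
        have h5 : Complex.exp (L v θ) = Complex.exp (θ * Complex.I) * ∏ c ∈ T.ch v, (E q L c θ)⁻¹ := by
          rw [hL v]
          simp only
          rw [Complex.exp_sub, Complex.exp_sum, div_eq_mul_inv, ← Finset.prod_inv_distrib]
          congr 1
          exact Finset.prod_congr rfl (fun c _ => by rw [Complex.exp_log (hEne c)])
        have h6 : (R v : ℂ) = l * ∏ c ∈ T.ch v, (1 + (R c : ℂ))⁻¹ := by
          rw [hR v]; push_cast; rfl
        rw [h5]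
        conv_lhs => rw [h6]
        have h7 : ∏ c ∈ T.ch v, (1 + (R c : ℂ) * Complex.exp (L c θ))⁻¹ =
            (∏ c ∈ T.ch v, (1 + (R c : ℂ))⁻¹) * ∏ c ∈ T.ch v, (E q L c θ)⁻¹ := by
          rw [← Finset.prod_mul_distrib]
          exact Finset.prod_congr rfl (fun c _ => by rw [← h3 c, mul_inv])
        rw [h7]
        ring
      · intro v
        rw [← h3 v]
        apply mul_ne_zero _ (hEne v)
        have := hRpos v
        exact_mod_cast (by positivity : (1 + R v) ≠ 0)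
    rw [h4, h2]
    simp only
    rw [h1]
    push_cast
    rw [← Finset.prod_mul_distrib]
    exact Finset.prod_congr rfl (fun v _ => by rw [← h3 v]; ring)

end Pool.Agent.Hhelper46.Forest
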