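import Mathlib

/-!
# Elementary inequalities used in the local estimate
-/

namespace Pool.Agent.Hhelper46.Forest.LocalNum

open Real

lemma poly_bound (z : ℝ) (hz : 0 ≤ z) : 5 * z ^ 3 ≤ 27 / 20 * (5 + z ^ 5) := by
  nlinarith [mul_nonneg hz (sq_nonneg (z ^ 2 - 20 / 9)), sq_nonneg (z - 149 / 100), mul_nonneg hz (sq_nonneg (z - 149 / 100)),
    mul_nonneg (mul_nonneg hz hz) (sq_nonneg (z - 149 / 100)), mul_nonneg (mul_nonneg (mul_nonneg hz hz) hz) (sq_nonneg (z - 149 / 100))]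

/-- (N0) -/
lemma q_bound (s : ℝ) : 5 / (5 + exp s) ≤ 27 / 20 * exp (-(3 / 5) * s) := by
  have h1 : exp s = exp (s / 5) ^ 5 := by rw [← exp_nat_mul]; congr 1; push_cast; ring
  have h2 : exp (-(3 / 5) * s) = (exp (s / 5) ^ 3)⁻¹ := by
    rw [← exp_nat_mul, ← exp_neg]; congr 1; push_cast; ring
  rw [h1, h2]
  have hz := exp_pos (s / 5)
  set z := exp (s / 5)
  rw [div_le_iff₀ (by positivity)]
  have := poly_bound z hz.le
  have h3 : (z ^ 3)⁻¹ * z ^ 3 = 1 := inv_mul_cancel₀ (by positivity)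
  have h4 : 5 * z ^ 3 * (z ^ 3)⁻¹ ≤ 27 / 20 * (5 + z ^ 5) * (z ^ 3)⁻¹ :=
    mul_le_mul_of_nonneg_right this (by positivity)
  calc (5:ℝ) = 5 * z ^ 3 * (z ^ 3)⁻¹ := by rw [mul_assoc, mul_inv_cancel₀ (by positivity), mul_one]
    _ ≤ _ := h4
    _ = _ := by ring

/-- (N1) -/
lemma le_mul_exp (a s : ℝ) (ha : 0 < a) : s ≤ a * exp (s / a - 1) := by
  have := add_one_le_exp (s / a - 1)
  have h2 : s / a ≤ exp (s / a - 1) := by linarith
  calc s = a * (s / a) := by field_simp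
    _ ≤ _ := mul_le_mul_of_nonneg_left h2 ha.le

lemma exp_small_le (s : ℝ) (hs : 0 ≤ s) : exp (s / 1000) ≤ (999 + exp s) / 1000 := by
  have h1 : exp s = exp (s / 1000) ^ 1000 := by rw [← exp_nat_mul]; congr 1; push_cast; ring
  have h2 : (1:ℝ) ≤ exp (s / 1000) := by
    have := add_one_le_exp (s / 1000); have : 0 ≤ s / 1000 := by positivity
    linarith [add_one_le_exp (s / 1000)]
  have h3 := one_add_mul_le_pow (a := exp (s / 1000) - 1) (by linarith) 1000
  rw [add_sub_cancel] at h3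
  rw [h1]
  push_cast at h3
  linarith

lemma exp_small_le' (s : ℝ) (hs : 0 ≤ s) : exp (s / 500) ≤ (998 + 2 * exp s) / 1000 := by
  have h1 : exp s = exp (s / 500) ^ 500 := by rw [← exp_nat_mul]; congr 1; push_cast; ring
  have h2 : (1:ℝ) ≤ exp (s / 500) := by
    have : 0 ≤ s / 500 := by positivity
    linarith [add_one_le_exp (s / 500)]
  have h3 := one_add_mul_le_pow (a := exp (s / 500) - 1) (by linarith) 500
  rw [add_sub_cancel] at h3
  rw [h1]
  push_cast at h3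
  linarith

lemma exp_c1 : exp (1 / 500) ≤ 1.0021 := by
  have := exp_bound_div_one_sub_of_interval (x := 1 / 500) (by norm_num) (by norm_num)
  refine this.trans (by norm_num)

lemma exp_c2 : exp (1 / 250) ≤ 1.00402 := by
  have := exp_bound_div_one_sub_of_interval (x := 1 / 250) (by norm_num) (by norm_num)
  refine this.trans (by norm_num)

/-- (N-a) -/
lemma small (q s : ℝ) (hs : 0 ≤ s) (hq : q ≤ 5 / (5 + exp s)) :
    q * ((2 + s) / 1000 * exp ((2 + s) / 1000)) ≤ 271 / 100000 := by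
  have h1 := hq.trans (q_bound s)
  have h2 : 2 + s ≤ 2 * exp (s / 2) := by
    have := add_one_le_exp (s / 2); linarith
  have h3 : exp ((2 + s) / 1000) = exp (1 / 500) * exp (s / 1000) := by
    rw [← exp_add]; congr 1; ring
  have h4 : q * ((2 + s) / 1000 * exp ((2 + s) / 1000)) ≤
      27 / 20 * exp (-(3 / 5) * s) * (2 * exp (s / 2) / 1000 * exp ((2 + s) / 1000)) := by
    apply mul_le_mul h1 _ (by positivity) (by positivity)
    apply mul_le_mul_of_nonneg_right _ (exp_pos _).le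
    linarith
  refine h4.trans ?_
  have h5 : 27 / 20 * exp (-(3 / 5) * s) * (2 * exp (s / 2) / 1000 * exp ((2 + s) / 1000)) =
      27 / 10000 * exp (1 / 500) * exp (-(3 / 5) * s + s / 2 + s / 1000) := by
    rw [h3, exp_add, exp_add]; ring
  rw [h5]
  have h6 : exp (-(3 / 5) * s + s / 2 + s / 1000) ≤ 1 := by
    rw [exp_le_one_iff]; linarith
  have h7 : 27 / 10000 * exp (1 / 500) * exp (-(3 / 5) * s + s / 2 + s / 1000) ≤ 27 / 10000 * 1.0021 * 1 := by
    apply mul_le_mul _ h6 (exp_pos _).le (by norm_num)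
    linarith [exp_c1]
  refine h7.trans (by norm_num)

/-- (N-c) -/
lemma qbar_le (q s : ℝ) (hs : 0 ≤ s) (hq : q ≤ 5 / (5 + exp s)) :
    1003 / 1000 * q * exp ((2 + s) / 1000) ≤ 17 / 20 := by
  have h3 : exp ((2 + s) / 1000) = exp (1 / 500) * exp (s / 1000) := by
    rw [← exp_add]; congr 1; ring
  rw [h3]
  have he := exp_pos s
  have h1 : 1 ≤ exp s := one_le_exp hs
  have h2 : q * exp (s / 1000) ≤ 5 / (5 + exp s) * ((999 + exp s) / 1000) :=
    mul_le_mul hq (exp_small_le s hs) (exp_pos _).le (by positivity)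
  have h4 : 5 / (5 + exp s) * ((999 + exp s) / 1000) ≤ 5 / 6 := by
    rw [div_mul_div_comm, div_le_div_iff₀ (by positivity) (by positivity)]
    nlinarith
  have h5 : q * exp (s / 1000) ≤ 5 / 6 := h2.trans h4
  have h6 := exp_c1
  calc 1003 / 1000 * q * (exp (1 / 500) * exp (s / 1000)) = 1003 / 1000 * exp (1 / 500) * (q * exp (s / 1000)) := by ring
    _ ≤ 1003 / 1000 * exp (1 / 500) * (5 / 6) := mul_le_mul_of_nonneg_left h5 (by positivity)
    _ ≤ 1003 / 1000 * 1.0021 * (5 / 6) := by nlinarith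
    _ ≤ _ := by norm_num

/-- (N-d), constant part -/
lemma const_le (q s : ℝ) (hs : 0 ≤ s) (hq : q ≤ 5 / (5 + exp s)) :
    (1003 / 1000) ^ 2 * q * exp (2 * ((2 + s) / 1000)) * 21 ≤ 22 := by
  have h3 : exp (2 * ((2 + s) / 1000)) = exp (1 / 250) * exp (s / 500) := by
    rw [← exp_add]; congr 1; ring
  rw [h3]
  have he := exp_pos s
  have h1 : 1 ≤ exp s := one_le_exp hs
  have h2 : q * exp (s / 500) ≤ 5 / (5 + exp s) * ((998 + 2 * exp s) / 1000) :=
    mul_le_mul hq (exp_small_le' s hs) (exp_pos _).le (by positivity)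
  have h4 : 5 / (5 + exp s) * ((998 + 2 * exp s) / 1000) ≤ 5 / 6 := by
    rw [div_mul_div_comm, div_le_div_iff₀ (by positivity) (by positivity)]
    nlinarith
  have h5 : q * exp (s / 500) ≤ 5 / 6 := h2.trans h4
  have h6 := exp_c2
  calc (1003 / 1000) ^ 2 * q * (exp (1 / 250) * exp (s / 500)) * 21 =
      (1003 / 1000) ^ 2 * exp (1 / 250) * 21 * (q * exp (s / 500)) := by ring
    _ ≤ (1003 / 1000) ^ 2 * exp (1 / 250) * 21 * (5 / 6) := mul_le_mul_of_nonneg_left h5 (by positivity)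
    _ ≤ (1003 / 1000) ^ 2 * 1.00402 * 21 * (5 / 6) := by nlinarith
    _ ≤ _ := by norm_num

/-- (N-d), linear part -/
lemma lin_le (q s : ℝ) (hq0 : 0 ≤ q) (hs : 0 ≤ s) (hq : q ≤ 5 / (5 + exp s)) :
    (1003 / 1000) ^ 2 * q * exp (2 * ((2 + s) / 1000)) * (21 / 20 * s) ≤ 19 / 20 := by
  have h3 : exp (2 * ((2 + s) / 1000)) = exp (1 / 250) * exp (s / 500) := by
    rw [← exp_add]; congr 1; ring
  rw [h3]
  have h1 := hq.trans (q_bound s)
  have h2 := le_mul_exp (9 / 5) s (by norm_num)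
  have h4 : q * s ≤ 27 / 20 * exp (-(3 / 5) * s) * (9 / 5 * exp (s / (9 / 5) - 1)) :=
    mul_le_mul h1 h2 hs (by positivity)
  have h5 : 27 / 20 * exp (-(3 / 5) * s) * (9 / 5 * exp (s / (9 / 5) - 1)) =
      243 / 100 * exp (-1) * exp (-(3 / 5) * s + s / (9 / 5)) := by
    have : exp (s / (9 / 5) - 1) = exp (-1) * exp (s / (9 / 5)) := by rw [← exp_add]; congr 1; ring
    rw [this, exp_add]; ring
  rw [h5] at h4
  have h6 : exp (-1) ≤ 36788 / 100000 := by
    rw [exp_neg, inv_le_comm₀ (exp_pos _) (by norm_num)]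
    have := exp_one_gt_d9
    refine le_trans ?_ this.le
    norm_num
  have h7 : exp (-(3 / 5) * s + s / (9 / 5)) * exp (s / 500) ≤ 1 := by
    rw [← exp_add, exp_le_one_iff]; linarith
  have h8 := exp_c2
  calc (1003 / 1000) ^ 2 * q * (exp (1 / 250) * exp (s / 500)) * (21 / 20 * s) =
      (1003 / 1000) ^ 2 * (21 / 20) * exp (1 / 250) * exp (s / 500) * (q * s) := by ring
    _ ≤ (1003 / 1000) ^ 2 * (21 / 20) * exp (1 / 250) * exp (s / 500) *
        (243 / 100 * exp (-1) * exp (-(3 / 5) * s + s / (9 / 5))) := mul_le_mul_of_nonneg_left h4 (by positivity)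
    _ = (1003 / 1000) ^ 2 * (21 / 20) * exp (1 / 250) * (243 / 100) * exp (-1) *
        (exp (-(3 / 5) * s + s / (9 / 5)) * exp (s / 500)) := by ring
    _ ≤ (1003 / 1000) ^ 2 * (21 / 20) * exp (1 / 250) * (243 / 100) * exp (-1) * 1 :=
        mul_le_mul_of_nonneg_left h7 (by positivity)
    _ ≤ (1003 / 1000) ^ 2 * (21 / 20) * 1.00402 * (243 / 100) * (36788 / 100000) * 1 := by
        have := exp_pos (-1); have := exp_pos (1 / 250)
        apply mul_le_mul_of_nonneg_right _ (by norm_num)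
        apply mul_le_mul _ h6 (exp_pos _).le (by positivity)
        apply mul_le_mul_of_nonneg_right _ (by norm_num)
        apply mul_le_mul_of_nonneg_left h8 (by positivity)
    _ ≤ _ := by norm_num

/-- the weight inequality without the small corrections -/
lemma key_pow (q s : ℝ) (hq0 : 0 ≤ q) (hs : 0 ≤ s) (hq : q ≤ 5 / (5 + exp s)) :
    q ^ (19 / 40 : ℝ) * s ^ (21 / 40 : ℝ) ≤ 491 / 500 * exp (-(9 / 400) * s) := by
  have h1 := hq.trans (q_bound s)
  have h2 := le_mul_exp 2 s (by norm_num)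
  have hX : 0 ≤ q ^ (19 / 40 : ℝ) * s ^ (21 / 40 : ℝ) := by positivity
  have hY : 0 ≤ 491 / 500 * exp (-(9 / 400) * s) := by positivity
  rw [← pow_le_pow_iff_left₀ hX hY (n := 40) (by norm_num)]
  have e1 : (q ^ (19 / 40 : ℝ) * s ^ (21 / 40 : ℝ)) ^ 40 = q ^ 19 * s ^ 21 := by
    rw [mul_pow, ← rpow_natCast, ← rpow_natCast (s ^ (21 / 40 : ℝ)), ← rpow_mul hq0, ← rpow_mul hs]
    norm_num
  rw [e1, mul_pow]
  have e2 : q ^ 19 * s ^ 21 ≤ (27 / 20 * exp (-(3 / 5) * s)) ^ 19 * (2 * exp (s / 2 - 1)) ^ 21 :=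
    mul_le_mul (pow_le_pow_left₀ hq0 h1 _) (pow_le_pow_left₀ hs h2 _) (by positivity) (by positivity)
  refine e2.trans ?_
  rw [mul_pow, mul_pow, ← exp_nat_mul, ← exp_nat_mul, ← exp_nat_mul]
  have e3 : exp (((21:ℕ):ℝ) * (s / 2 - 1)) = exp (-21) * exp (21 / 2 * s) := by
    rw [← exp_add]; congr 1; push_cast; ring
  have e4 : exp (((19:ℕ):ℝ) * (-(3 / 5) * s)) * exp (21 / 2 * s) = exp (((40:ℕ):ℝ) * (-(9 / 400) * s)) := by
    rw [← exp_add]; congr 1; push_cast; ring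
  rw [e3]
  have e5 : (27 / 20 : ℝ) ^ 19 * exp (((19:ℕ):ℝ) * (-(3 / 5) * s)) * (2 ^ 21 * (exp (-21) * exp (21 / 2 * s))) =
      (27 / 20 : ℝ) ^ 19 * 2 ^ 21 * exp (-21) * (exp (((19:ℕ):ℝ) * (-(3 / 5) * s)) * exp (21 / 2 * s)) := by ring
  rw [e5, e4]
  apply mul_le_mul_of_nonneg_right _ (exp_pos _).le
  have e6 : exp (-21) = (exp 1 ^ 21)⁻¹ := by
    rw [← exp_nat_mul, ← exp_neg]; norm_num
  rw [e6]
  have e7 : (2.7182818283:ℝ) ^ 21 ≤ exp 1 ^ 21 := pow_le_pow_left₀ (by norm_num) exp_one_gt_d9.le _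
  rw [mul_inv_le_iff₀ (by positivity)]
  have e8 : (27 / 20 : ℝ) ^ 19 * 2 ^ 21 ≤ (491 / 500) ^ 40 * 2.7182818283 ^ 21 := by norm_num
  refine e8.trans (mul_le_mul_of_nonneg_left e7 (by positivity))

/-- (N-b) -/
lemma main (q s : ℝ) (hq0 : 0 ≤ q) (hs : 0 ≤ s) (hq : q ≤ 5 / (5 + exp s)) :
    1003 / 1000 * exp ((2 + s) / 1000) * q ^ (19 / 40 : ℝ) * (1 / 1000 + s ^ (21 / 40 : ℝ)) ≤ 1 := by
  have h1 := key_pow q s hq0 hs hq
  have h2 : q ^ (19 / 40 : ℝ) ≤ 6 / 5 * exp (-(9 / 400) * s) := by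
    have h3 := hq.trans (q_bound s)
    have h4 : q ^ (19 / 40 : ℝ) ≤ (27 / 20 * exp (-(3 / 5) * s)) ^ (19 / 40 : ℝ) :=
      rpow_le_rpow hq0 h3 (by norm_num)
    refine h4.trans ?_
    rw [mul_rpow (by norm_num) (exp_pos _).le, ← exp_mul]
    apply mul_le_mul _ _ (exp_pos _).le (by norm_num)
    · have : (27 / 20 : ℝ) ^ (19 / 40 : ℝ) ≤ (27 / 20 : ℝ) ^ (1 / 2 : ℝ) :=
        rpow_le_rpow_of_exponent_le (by norm_num) (by norm_num)
      refine this.trans ?_
      rw [← sqrt_eq_rpow, sqrt_le_left (by norm_num)]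
      norm_num
    · apply exp_le_exp.mpr; nlinarith
  have h3 : exp ((2 + s) / 1000) = exp (1 / 500) * exp (s / 1000) := by
    rw [← exp_add]; congr 1; ring
  have h4 : q ^ (19 / 40 : ℝ) * (1 / 1000 + s ^ (21 / 40 : ℝ)) ≤ (6 / 5000 + 491 / 500) * exp (-(9 / 400) * s) := by
    nlinarith
  calc 1003 / 1000 * exp ((2 + s) / 1000) * q ^ (19 / 40 : ℝ) * (1 / 1000 + s ^ (21 / 40 : ℝ)) =
      1003 / 1000 * exp (1 / 500) * exp (s / 1000) * (q ^ (19 / 40 : ℝ) * (1 / 1000 + s ^ (21 / 40 : ℝ))) := by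
        rw [h3]; ring
    _ ≤ 1003 / 1000 * exp (1 / 500) * exp (s / 1000) * ((6 / 5000 + 491 / 500) * exp (-(9 / 400) * s)) :=
        mul_le_mul_of_nonneg_left h4 (by positivity)
    _ = 1003 / 1000 * (6 / 5000 + 491 / 500) * exp (1 / 500) * (exp (s / 1000) * exp (-(9 / 400) * s)) := by ring
    _ ≤ 1003 / 1000 * (6 / 5000 + 491 / 500) * 1.0021 * 1 := by
        apply mul_le_mul
        · apply mul_le_mul_of_nonneg_left exp_c1 (by norm_num)
        · rw [← exp_add, exp_le_one_iff]; linarith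
        · positivity
        · norm_num
    _ ≤ 1 := by norm_num

end Pool.Agent.Hhelper46.Forest.LocalNum
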