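import Pool.Agent.Hhelper46.Forest.Basic
import Pool.Agent.Hhelper46.Forest.LocalNum

/-!
# The real recursions controlling the logarithm near the real axis
-/

set_option linter.unusedSectionVars false

namespace Pool.Agent.Hhelper46.Forest

open Finset

variable {V : Type*} [Fintype V] [DecidableEq V]

namespace LocalReal

lemma holder {ι : Type*} (s : Finset ι) (f g : ι → ℝ) (hf : ∀ i ∈ s, 0 ≤ f i) (hg : ∀ i ∈ s, 0 ≤ g i) :
    ∑ i ∈ s, f i ^ (19 / 40 : ℝ) * g i ^ (21 / 40 : ℝ) ≤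
      (∑ i ∈ s, f i) ^ (19 / 40 : ℝ) * (∑ i ∈ s, g i) ^ (21 / 40 : ℝ) := by
  have hpq : Real.HolderConjugate (40 / 19) (40 / 21) := by
    rw [Real.holderConjugate_iff]; norm_num
  have h := Real.inner_le_Lp_mul_Lq_of_nonneg s hpq (f := fun i => f i ^ (19 / 40 : ℝ))
    (g := fun i => g i ^ (21 / 40 : ℝ)) (fun i hi => Real.rpow_nonneg (hf i hi) _)
    (fun i hi => Real.rpow_nonneg (hg i hi) _)
  have e1 : ∑ i ∈ s, (f i ^ (19 / 40 : ℝ)) ^ (40 / 19 : ℝ) = ∑ i ∈ s, f i := by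
    apply Finset.sum_congr rfl
    intro i hi
    rw [← Real.rpow_mul (hf i hi)]; norm_num
  have e2 : ∑ i ∈ s, (g i ^ (21 / 40 : ℝ)) ^ (40 / 21 : ℝ) = ∑ i ∈ s, g i := by
    apply Finset.sum_congr rfl
    intro i hi
    rw [← Real.rpow_mul (hg i hi)]; norm_num
  rw [e1, e2] at h
  norm_num at h
  exact h

section

variable (T : RF V) (l : ℝ) (R : V → ℝ)

lemma R_pos (hl : 0 < l) (hR : ∀ v, R v = l * ∏ c ∈ T.ch v, (1 + R c)⁻¹) (v : V) : 0 < R v := by
  induction v using T.ind with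
  | _ v ih =>
    rw [hR v]
    apply mul_pos hl
    apply Finset.prod_pos
    intro c hc
    have := ih c hc
    positivity

/-- occupation ratio bound -/
lemma q_le (hl : 0 < l) (hl' : l ≤ 5) (hR : ∀ v, R v = l * ∏ c ∈ T.ch v, (1 + R c)⁻¹) (q : V → ℝ)
    (hq : ∀ v, q v = R v / (1 + R v)) (v : V) :
    q v ≤ 5 / (5 + Real.exp (∑ c ∈ T.ch v, q c)) := by
  have hpos := R_pos T l R hl hR
  have h1 : ∏ c ∈ T.ch v, (1 + R c)⁻¹ ≤ Real.exp (-∑ c ∈ T.ch v, q c) := by
    rw [← Finset.sum_neg_distrib, Real.exp_sum]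
    apply Finset.prod_le_prod
    · intro c _
      have := hpos c
      positivity
    · intro c _
      have := hpos c
      have h2 := Real.add_one_le_exp (-q c)
      refine le_trans (le_of_eq ?_) h2
      rw [hq c]
      field_simp
      ring
  have h2 : R v ≤ 5 * Real.exp (-∑ c ∈ T.ch v, q c) := by
    rw [hR v]
    exact mul_le_mul hl' h1 (Finset.prod_nonneg (fun c _ => by have := hpos c; positivity)) (by norm_num)
  set s := ∑ c ∈ T.ch v, q c
  have h3 := hpos v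
  have he := Real.exp_pos s
  rw [hq v, div_le_div_iff₀ (by positivity) (by positivity)]
  rw [Real.exp_neg] at h2
  have h4 : R v * Real.exp s ≤ 5 := by
    calc R v * Real.exp s ≤ 5 * (Real.exp s)⁻¹ * Real.exp s := mul_le_mul_of_nonneg_right h2 he.le
      _ = 5 := by field_simp
  nlinarith

end

/-- Subtree sizes are at most the number of vertices. -/
lemma m_le (T : RF V) (m : V → ℝ) (hm : ∀ v, m v = 1 + ∑ c ∈ T.ch v, m c) (v : V) :
    1 ≤ m v ∧ m v ≤ Fintype.card V := by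
  have h1 : ∀ v, 1 ≤ m v := by
    intro v
    induction v using T.ind with
    | _ v ih =>
      rw [hm v]
      have : 0 ≤ ∑ c ∈ T.ch v, m c := Finset.sum_nonneg (fun c hc => by linarith [ih c hc])
      linarith
  refine ⟨h1 v, ?_⟩
  have hsum : ∑ c ∈ univ.filter (fun c => ¬ (T.par c).isSome), m c = Fintype.card V := by
    have e1 : ∑ v, m v = Fintype.card V + ∑ v, ∑ c ∈ T.ch v, m c := by
      rw [Finset.sum_congr rfl (fun v _ => hm v), Finset.sum_add_distrib]
      simp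
    rw [T.sum_ch] at e1
    have e2 := Finset.sum_filter_add_sum_filter_not univ (fun c => ((T.par c).isSome : Prop)) m
    linarith
  induction v using T.ind_up with
  | _ v ih =>
    cases hp : T.par v with
    | none =>
      rw [← hsum]
      apply Finset.single_le_sum (f := m) (fun c _ => by linarith [h1 c])
      simp [hp]
    | some p =>
      refine le_trans ?_ (ih p hp)
      rw [hm p]
      have : m v ≤ ∑ c ∈ T.ch p, m c :=
        Finset.single_le_sum (f := m) (fun c _ => by linarith [h1 c]) ((T.mem_ch p v).mpr hp)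
      linarith

/-- The data of the real recursion. -/
structure Data (T : RF V) (q m B : V → ℝ) (r : ℝ) : Prop where
  q_pos : ∀ v, 0 < q v
  q_lt : ∀ v, q v < 1
  q_le : ∀ v, q v ≤ 5 / (5 + Real.exp (∑ c ∈ T.ch v, q c))
  m_ge : ∀ v, 1 ≤ m v
  m_eq : ∀ v, m v = 1 + ∑ c ∈ T.ch v, m c
  r_pos : 0 < r
  r_le : r ≤ 1 / 1000
  r_m : ∀ v, r * 1000 * m v ^ (19 / 40 : ℝ) ≤ 1 / 1000
  B_eq : ∀ v, B v = 1 + ∑ c ∈ T.ch v, 1003 / 1000 * q c * Real.exp (r * B c) * B c

variable {T : RF V} {q m B : V → ℝ} {r : ℝ}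

lemma Data.B_ge (D : Data T q m B r) (v : V) : 1 ≤ B v := by
  induction v using T.ind with
  | _ v ih =>
    rw [D.B_eq v]
    have : 0 ≤ ∑ c ∈ T.ch v, 1003 / 1000 * q c * Real.exp (r * B c) * B c := by
      apply Finset.sum_nonneg
      intro c hc
      have h1 := ih c hc
      have h2 := D.q_pos c
      have : 0 ≤ B c := by linarith
      positivity
    linarith

lemma Data.s_nonneg (D : Data T q m B r) (v : V) : 0 ≤ ∑ c ∈ T.ch v, q c :=
  Finset.sum_nonneg (fun c _ => (D.q_pos c).le)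

/-- from the bounds for the children to the bound for `r * B v` -/
lemma Data.rB_aux (D : Data T q m B r) (v : V)
    (h : ∀ c ∈ T.ch v, 1003 / 1000 * q c * Real.exp (r * B c) * B c ≤
      1000 * m c ^ (19 / 40 : ℝ) * q c ^ (21 / 40 : ℝ)) :
    B v ≤ 1 + 1000 * m v ^ (19 / 40 : ℝ) * (∑ c ∈ T.ch v, q c) ^ (21 / 40 : ℝ) ∧
    r * B v ≤ (2 + ∑ c ∈ T.ch v, q c) / 1000 := by
  have hs := D.s_nonneg v
  set s := ∑ c ∈ T.ch v, q c with hsdef
  have h1 : ∑ c ∈ T.ch v, 1003 / 1000 * q c * Real.exp (r * B c) * B c ≤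
      1000 * (m v ^ (19 / 40 : ℝ) * s ^ (21 / 40 : ℝ)) := by
    refine (Finset.sum_le_sum h).trans ?_
    have h2 : ∑ c ∈ T.ch v, 1000 * m c ^ (19 / 40 : ℝ) * q c ^ (21 / 40 : ℝ) =
        1000 * ∑ c ∈ T.ch v, m c ^ (19 / 40 : ℝ) * q c ^ (21 / 40 : ℝ) := by
      rw [Finset.mul_sum]
      apply Finset.sum_congr rfl
      intro c _
      ring
    rw [h2]
    apply mul_le_mul_of_nonneg_left _ (by norm_num)
    refine (holder _ _ _ (fun c _ => by linarith [D.m_ge c]) (fun c _ => (D.q_pos c).le)).trans ?_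
    apply mul_le_mul_of_nonneg_right _ (by positivity)
    apply Real.rpow_le_rpow (Finset.sum_nonneg (fun c _ => by linarith [D.m_ge c])) _ (by norm_num)
    rw [D.m_eq v]; linarith
  have hB : B v ≤ 1 + 1000 * m v ^ (19 / 40 : ℝ) * s ^ (21 / 40 : ℝ) := by
    rw [D.B_eq v]; linarith
  refine ⟨hB, ?_⟩
  have h3 : s ^ (21 / 40 : ℝ) ≤ 1 + s := by
    rcases le_total s 1 with hs1 | hs1
    · have := Real.rpow_le_one hs hs1 (z := (21 / 40 : ℝ)) (by norm_num)
      linarith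
    · have := Real.rpow_le_rpow_of_exponent_le hs1 (y := (21 / 40 : ℝ)) (z := 1) (by norm_num)
      rw [Real.rpow_one] at this
      linarith
  have h4 := D.r_m v
  have h5 := D.r_pos
  have h6 := D.r_le
  have hm0 : 0 ≤ m v ^ (19 / 40 : ℝ) := Real.rpow_nonneg (by linarith [D.m_ge v]) _
  have hs0 : 0 ≤ s ^ (21 / 40 : ℝ) := Real.rpow_nonneg hs _
  calc r * B v ≤ r * (1 + 1000 * m v ^ (19 / 40 : ℝ) * s ^ (21 / 40 : ℝ)) := mul_le_mul_of_nonneg_left hB h5.le
    _ = r + (r * 1000 * m v ^ (19 / 40 : ℝ)) * s ^ (21 / 40 : ℝ) := by ring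
    _ ≤ 1 / 1000 + 1 / 1000 * s ^ (21 / 40 : ℝ) := by
      have := mul_le_mul_of_nonneg_right h4 hs0
      linarith
    _ ≤ 1 / 1000 + 1 / 1000 * (1 + s) := by linarith
    _ = _ := by ring

lemma Data.A_bound (D : Data T q m B r) (v : V) :
    1003 / 1000 * q v * Real.exp (r * B v) * B v ≤ 1000 * m v ^ (19 / 40 : ℝ) * q v ^ (21 / 40 : ℝ) := by
  induction v using T.ind with
  | _ v ih =>
    obtain ⟨h1, h2⟩ := D.rB_aux v ih
    have hs := D.s_nonneg v
    have hN := LocalNum.main (q v) _ (D.q_pos v).le hs (D.q_le v)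
    set s := ∑ c ∈ T.ch v, q c with hsdef
    have hq := D.q_pos v
    have hm := D.m_ge v
    have hm1 : 1 ≤ m v ^ (19 / 40 : ℝ) := Real.one_le_rpow hm (by norm_num)
    have hs0 : 0 ≤ s ^ (21 / 40 : ℝ) := Real.rpow_nonneg hs _
    have hB0 : 0 ≤ B v := by linarith [D.B_ge v]
    have hsplit : q v = q v ^ (19 / 40 : ℝ) * q v ^ (21 / 40 : ℝ) := by
      rw [← Real.rpow_add hq]; norm_num
    have hexp : Real.exp (r * B v) ≤ Real.exp ((2 + s) / 1000) := Real.exp_le_exp.mpr h2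
    have hB2 : B v ≤ 1000 * m v ^ (19 / 40 : ℝ) * (1 / 1000 + s ^ (21 / 40 : ℝ)) := by
      nlinarith
    calc 1003 / 1000 * q v * Real.exp (r * B v) * B v
        ≤ 1003 / 1000 * q v * Real.exp ((2 + s) / 1000) *
          (1000 * m v ^ (19 / 40 : ℝ) * (1 / 1000 + s ^ (21 / 40 : ℝ))) := by
          apply mul_le_mul _ hB2 hB0 (by positivity)
          exact mul_le_mul_of_nonneg_left hexp (by positivity)
      _ = (1003 / 1000 * Real.exp ((2 + s) / 1000) * q v ^ (19 / 40 : ℝ) * (1 / 1000 + s ^ (21 / 40 : ℝ))) *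
          (1000 * m v ^ (19 / 40 : ℝ) * q v ^ (21 / 40 : ℝ)) := by
          conv_lhs => rw [hsplit]
          ring
      _ ≤ 1 * (1000 * m v ^ (19 / 40 : ℝ) * q v ^ (21 / 40 : ℝ)) := by
          apply mul_le_mul_of_nonneg_right hN (by positivity)
      _ = _ := one_mul _

lemma Data.rB_le (D : Data T q m B r) (v : V) : r * B v ≤ (2 + ∑ c ∈ T.ch v, q c) / 1000 :=
  (D.rB_aux v (fun c _ => D.A_bound c)).2

/-- `Q̄ v`, the bound for the complex occupation probability -/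
noncomputable def Qb (q B : V → ℝ) (r : ℝ) (v : V) : ℝ := 1003 / 1000 * q v * Real.exp (r * B v)

lemma Data.Qb_pos (D : Data T q m B r) (v : V) : 0 < Qb q B r v := by
  unfold Qb
  have := D.q_pos v
  positivity

lemma Data.q_le_Qb (D : Data T q m B r) (v : V) : q v ≤ Qb q B r v := by
  unfold Qb
  have h1 := D.q_pos v
  have h2 := D.B_ge v
  have h3 := D.r_pos
  have h4 : 1 ≤ Real.exp (r * B v) := Real.one_le_exp (by positivity)
  nlinarith

lemma Data.Qb_le (D : Data T q m B r) (v : V) : Qb q B r v ≤ 17 / 20 := by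
  unfold Qb
  refine le_trans ?_ (LocalNum.qbar_le (q v) _ (D.s_nonneg v) (D.q_le v))
  have := D.q_pos v
  apply mul_le_mul_of_nonneg_left _ (by positivity)
  exact Real.exp_le_exp.mpr (D.rB_le v)

/-- smallness needed to stay away from the zeros -/
lemma Data.small (D : Data T q m B r) (v : V) :
    q v * (r * B v * Real.exp (r * B v)) ≤ 271 / 100000 := by
  refine le_trans ?_ (LocalNum.small (q v) _ (D.s_nonneg v) (D.q_le v))
  have h1 := D.q_pos v
  have h2 := D.rB_le v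
  have h3 := D.r_pos
  have h4 := D.B_ge v
  apply mul_le_mul_of_nonneg_left _ h1.le
  apply mul_le_mul h2 (Real.exp_le_exp.mpr h2) (Real.exp_pos _).le
  have := D.s_nonneg v
  positivity

/-- the potential is linear -/
lemma Data.Phi_le (D : Data T q m B r) (v : V) :
    (Qb q B r v * B v) ^ 2 / q v ≤ 22 + 19 / 20 * ∑ c ∈ T.ch v, (Qb q B r c * B c) ^ 2 / q c := by
  have hq := D.q_pos v
  have hs := D.s_nonneg v
  have h1 := D.rB_le v
  have hB := D.B_ge v
  have hcs : (∑ c ∈ T.ch v, Qb q B r c * B c) ^ 2 ≤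
      (∑ c ∈ T.ch v, q c) * ∑ c ∈ T.ch v, (Qb q B r c * B c) ^ 2 / q c := by
    apply Finset.sum_sq_le_sum_mul_sum_of_sq_le_mul
    · intro c _; exact (D.q_pos c).le
    · intro c _; have := D.q_pos c; positivity
    · intro c _; have := D.q_pos c; exact le_of_eq (by field_simp)
  have hBv : B v = 1 + ∑ c ∈ T.ch v, Qb q B r c * B c := by
    rw [D.B_eq v]
    rfl
  have hPhi : 0 ≤ ∑ c ∈ T.ch v, (Qb q B r c * B c) ^ 2 / q c := by
    apply Finset.sum_nonneg
    intro c _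
    have := D.q_pos c
    positivity
  have hc := LocalNum.const_le (q v) _ hs (D.q_le v)
  have hlin := LocalNum.lin_le (q v) _ hq.le hs (D.q_le v)
  set s := ∑ c ∈ T.ch v, q c
  set X := ∑ c ∈ T.ch v, Qb q B r c * B c
  set P := ∑ c ∈ T.ch v, (Qb q B r c * B c) ^ 2 / q c
  have hB2 : B v ^ 2 ≤ 21 + 21 / 20 * (s * P) := by
    rw [hBv]
    nlinarith [sq_nonneg (X - 20)]
  have hE : Real.exp (r * B v) ^ 2 ≤ Real.exp (2 * ((2 + s) / 1000)) := by
    rw [← Real.exp_nat_mul]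
    apply Real.exp_le_exp.mpr
    push_cast
    linarith
  have e1 : (Qb q B r v * B v) ^ 2 / q v = (1003 / 1000) ^ 2 * q v * Real.exp (r * B v) ^ 2 * B v ^ 2 := by
    unfold Qb
    field_simp
  rw [e1]
  calc (1003 / 1000) ^ 2 * q v * Real.exp (r * B v) ^ 2 * B v ^ 2
      ≤ (1003 / 1000) ^ 2 * q v * Real.exp (2 * ((2 + s) / 1000)) * (21 + 21 / 20 * (s * P)) := by
        apply mul_le_mul _ hB2 (by positivity) (by positivity)
        exact mul_le_mul_of_nonneg_left hE (by positivity)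
    _ = (1003 / 1000) ^ 2 * q v * Real.exp (2 * ((2 + s) / 1000)) * 21 +
        ((1003 / 1000) ^ 2 * q v * Real.exp (2 * ((2 + s) / 1000)) * (21 / 20 * s)) * P := by ring
    _ ≤ 22 + 19 / 20 * P := by
        have := mul_le_mul_of_nonneg_right hlin hPhi
        linarith

lemma Data.sum_Phi (D : Data T q m B r) :
    ∑ v, (Qb q B r v * B v) ^ 2 / q v ≤ 440 * Fintype.card V := by
  have h1 : ∑ v, (Qb q B r v * B v) ^ 2 / q v ≤
      ∑ v, (22 + 19 / 20 * ∑ c ∈ T.ch v, (Qb q B r c * B c) ^ 2 / q c) :=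
    Finset.sum_le_sum (fun v _ => D.Phi_le v)
  rw [Finset.sum_add_distrib, ← Finset.mul_sum] at h1
  have h2 := T.sum_ch_le (fun v => (Qb q B r v * B v) ^ 2 / q v)
    (fun v => by have := D.q_pos v; positivity)
  simp only [Finset.sum_const, Finset.card_univ, nsmul_eq_mul] at h1
  linarith

lemma Data.sum_QB (D : Data T q m B r) : ∑ v, Qb q B r v * B v ^ 2 ≤ 440 * Fintype.card V := by
  refine le_trans (Finset.sum_le_sum (fun v _ => ?_)) D.sum_Phi
  have h1 := D.q_pos v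
  have h2 := D.q_le_Qb v
  have h3 := D.Qb_pos v
  rw [le_div_iff₀ h1]
  have : (Qb q B r v * B v) ^ 2 = Qb q B r v * B v ^ 2 * Qb q B r v := by ring
  rw [this]
  apply mul_le_mul_of_nonneg_left h2
  positivity

/-- the second order bounds -/
lemma Data.sum_b (D : Data T q m B r) (b : V → ℝ)
    (hb : ∀ v, b v = Qb q B r v * (1 + Qb q B r v) * B v ^ 2 + Qb q B r v * ∑ c ∈ T.ch v, b c) :
    (∀ v, 0 ≤ b v) ∧ ∑ v, b v ≤ 6000 * Fintype.card V := by
  have h0 : ∀ v, 0 ≤ b v := by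
    intro v
    induction v using T.ind with
    | _ v ih =>
      rw [hb v]
      have h1 := D.Qb_pos v
      have h2 : 0 ≤ ∑ c ∈ T.ch v, b c := Finset.sum_nonneg ih
      positivity
  refine ⟨h0, ?_⟩
  have h1 : ∑ v, b v ≤ ∑ v, (37 / 20 * (Qb q B r v * B v ^ 2) + 17 / 20 * ∑ c ∈ T.ch v, b c) := by
    apply Finset.sum_le_sum
    intro v _
    rw [hb v]
    have h2 := D.Qb_pos v
    have h3 := D.Qb_le v
    have h4 : 0 ≤ ∑ c ∈ T.ch v, b c := Finset.sum_nonneg (fun c _ => h0 c)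
    have h5 : 0 ≤ B v ^ 2 := sq_nonneg _
    have h6 : Qb q B r v * (1 + Qb q B r v) * B v ^ 2 ≤ 37 / 20 * (Qb q B r v * B v ^ 2) := by
      have : 0 ≤ Qb q B r v * B v ^ 2 := by positivity
      nlinarith
    have h7 := mul_le_mul_of_nonneg_right h3 h4
    linarith
  rw [Finset.sum_add_distrib, ← Finset.mul_sum, ← Finset.mul_sum] at h1
  have h2 := T.sum_ch_le b h0
  have h3 := D.sum_QB
  have h4 : (0:ℝ) ≤ Fintype.card V := Nat.cast_nonneg _
  linarith

end LocalReal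

end Pool.Agent.Hhelper46.Forest
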